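import Mathlib
import Pool.Agent.H326R3.CB3
import Pool.Agent.W732.Cor.Stm2

/-!
The Banach algebra of bounded families `(f_i)_{i ∈ I}` of holomorphic functions on the ball, its
characters, and uniform solvability of Bezout equations.
-/

set_option autoImplicit false

open Metric Set Filter Topology WeakDual

namespace Pool.Agent.TH310.Cor

open Pool.Agent.H326R3.CB (Bt gam gam_bd gam_diff gleason)

/-- `ℂ^m` with the Euclidean norm -/
abbrev V (m : ℕ) := EuclideanSpace ℂ (Fin m)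

variable {m : ℕ} {I : Type} [TopologicalSpace I] [DiscreteTopology I]

/-- the algebra of bounded families of holomorphic functions -/
noncomputable def HI (I : Type) [TopologicalSpace I] (m : ℕ) :
    Subalgebra ℂ (BoundedContinuousFunction (I × Bt m) ℂ) where
  carrier := {F | ∀ k, ∃ f : V m → ℂ, DifferentiableOn ℂ f (ball 0 1) ∧ ∀ z : Bt m, F (k, z) = f z}
  mul_mem' := by
    rintro F G hF hG k
    obtain ⟨f, hf, hF⟩ := hF k
    obtain ⟨g, hg, hG⟩ := hG k
    refine ⟨fun z => f z * g z, hf.mul hg, fun z => ?_⟩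
    rw [BoundedContinuousFunction.mul_apply, hF, hG]
  add_mem' := by
    rintro F G hF hG k
    obtain ⟨f, hf, hF⟩ := hF k
    obtain ⟨g, hg, hG⟩ := hG k
    refine ⟨fun z => f z + g z, hf.add hg, fun z => ?_⟩
    rw [BoundedContinuousFunction.add_apply, hF, hG]
  algebraMap_mem' := by
    intro c k
    exact ⟨fun _ => c, differentiableOn_const _, fun z => rfl⟩

omit [DiscreteTopology I] in
theorem isClosed_HI : IsClosed ((HI I m : Subalgebra ℂ (BoundedContinuousFunction (I × Bt m) ℂ)) :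
    Set (BoundedContinuousFunction (I × Bt m) ℂ)) := by
  apply IsSeqClosed.isClosed
  intro F G hF hG i
  choose f hf hFf using fun k => hF k i
  have hbd : ∃ C : ℝ, ∀ k, ‖F k‖ ≤ C := by
    obtain ⟨C, hC⟩ := hG.norm.bddAbove_range
    exact ⟨C, fun k => hC ⟨k, rfl⟩⟩
  obtain ⟨C, hC⟩ := hbd
  obtain ⟨g, hg, -, hlim⟩ := Pool.Agent.H720R2.Cor.ultra_lim (isOpen_ball (x := (0 : V m)) (ε := 1))
    (C := C) (Ultrafilter.of (atTop : Filter ℕ)) f hf (fun k z hz => by
      have := (F k).norm_coe_le_norm (i, ⟨z, hz⟩)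
      rw [hFf] at this
      exact this.trans (hC k))
  refine ⟨g, hg, fun z => ?_⟩
  have h1 : Tendsto (fun k => f k z) atTop (𝓝 (G (i, z))) := by
    have h2 := ((BoundedContinuousFunction.tendsto_iff_tendstoUniformly.1 hG).tendsto_at (i, z))
    refine h2.congr (fun k => ?_)
    exact hFf k z
  exact tendsto_nhds_unique (h1.mono_left (Ultrafilter.of_le _)) (hlim z z.2)

noncomputable instance : NormedCommRing (HI I m) := inferInstance
noncomputable instance : NormedAlgebra ℂ (HI I m) := inferInstance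
instance : CompleteSpace (HI I m) := isClosed_HI.completeSpace_coe

/-- elements of `HI` -/
noncomputable def mk {f : I → V m → ℂ} (hf : ∀ k, DifferentiableOn ℂ (f k) (ball 0 1))
    {C : ℝ} (hC : ∀ k, ∀ z ∈ ball (0 : V m) 1, ‖f k z‖ ≤ C) : HI I m :=
  ⟨BoundedContinuousFunction.ofNormedAddCommGroup (fun x : I × Bt m => f x.1 x.2)
    (continuous_prod_of_discrete_left.2 fun k =>
      continuousOn_iff_continuous_domRestrict.1 (hf k).continuousOn) C
    (fun x => hC x.1 x.2 x.2.2), fun k => ⟨f k, hf k, fun z => rfl⟩⟩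

theorem mk_apply {f : I → V m → ℂ} (hf : ∀ k, DifferentiableOn ℂ (f k) (ball 0 1))
    {C : ℝ} (hC : ∀ k, ∀ z ∈ ball (0 : V m) 1, ‖f k z‖ ≤ C) (x : I × Bt m) :
    (mk hf hC).1 x = f x.1 x.2 := rfl

omit [DiscreteTopology I] in
theorem ext' {F G : HI I m} (h : ∀ x, F.1 x = G.1 x) : F = G := by
  apply Subtype.ext
  ext x
  exact h x

omit [DiscreteTopology I] in
theorem sum_apply {ι : Type*} (s : Finset ι) (F : ι → HI I m) (x : I × Bt m) :
    (∑ i ∈ s, F i).1 x = ∑ i ∈ s, (F i).1 x := by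
  classical
  induction s using Finset.induction_on with
  | empty => rfl
  | insert i s hi ih =>
    rw [Finset.sum_insert hi, Finset.sum_insert hi, ← ih]
    rfl

omit [DiscreteTopology I] in
theorem pow_apply (F : HI I m) (k : ℕ) (x : I × Bt m) : (F ^ k).1 x = F.1 x ^ k := by
  induction k with
  | zero =>
    rw [pow_zero, pow_zero]; rfl
  | succ k ih =>
    rw [pow_succ, pow_succ, ← ih]
    rfl

omit [DiscreteTopology I] in
theorem norm_le {F : HI I m} {C : ℝ} (hC : 0 ≤ C) (h : ∀ x, ‖F.1 x‖ ≤ C) : ‖F‖ ≤ C :=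
  (BoundedContinuousFunction.norm_le hC).2 h

omit [DiscreteTopology I] in
theorem le_norm (F : HI I m) (x : I × Bt m) : ‖F.1 x‖ ≤ ‖F‖ := F.1.norm_coe_le_norm x

omit [DiscreteTopology I] in
theorem char_le (χ : characterSpace ℂ (HI I m)) (F : HI I m) : ‖χ F‖ ≤ ‖F‖ := by
  have h := AlgHom.apply_mem_spectrum χ F
  have h2 := spectrum.norm_le_norm_mul_of_mem h
  have h3 : ‖(1 : HI I m)‖ ≤ 1 := norm_le zero_le_one (fun z => by
    change ‖(1 : ℂ)‖ ≤ 1
    simp)
  calc ‖χ F‖ ≤ ‖F‖ * ‖(1 : HI I m)‖ := h2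
    _ ≤ ‖F‖ * 1 := by gcongr
    _ = ‖F‖ := mul_one _

omit [DiscreteTopology I] in
theorem exists_char (J : Ideal (HI I m)) (h : J ≠ ⊤) :
    ∃ χ : characterSpace ℂ (HI I m), ∀ F ∈ J, χ F = 0 := by
  obtain ⟨M, hM, hIM⟩ := J.exists_le_maximal h
  exact ⟨M.toCharacterSpace, fun F hF => M.toCharacterSpace_apply_eq_zero_of_mem (hIM hF)⟩

/-- functions of the index -/
noncomputable def Ix (m : ℕ) {c : I → ℂ} {C : ℝ} (hC : ∀ k, ‖c k‖ ≤ C) : HI I m :=
  mk (f := fun k _ => c k) (fun _ => differentiableOn_const _) (C := C) (fun k _ _ => hC k)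

/-- the linear function `z ↦ ⟨a, z⟩` -/
noncomputable def Lw (a : V m) : HI I m :=
  mk (f := fun _ z => inner ℂ a z) (C := ‖a‖)
    (fun _ => by
      have : Differentiable ℂ (fun z : V m => inner ℂ a z) := (innerSL ℂ a).differentiable
      exact this.differentiableOn)
    (by
      intro _ z hz
      rw [mem_ball_zero_iff] at hz
      calc ‖inner ℂ a z‖ ≤ ‖a‖ * ‖z‖ := norm_inner_le_norm a z
        _ ≤ ‖a‖ * 1 := by gcongr
        _ = ‖a‖ := mul_one _)

theorem Lw_apply (a : V m) (x : I × Bt m) : (Lw a : HI I m).1 x = inner ℂ a (x.2 : V m) := rfl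

/-- constants -/
noncomputable def Cc (c : ℂ) : HI I m := algebraMap ℂ (HI I m) c

omit [DiscreteTopology I] in
theorem Cc_apply (c : ℂ) (x : I × Bt m) : (Cc c : HI I m).1 x = c := rfl

omit [DiscreteTopology I] in
theorem char_Cc (χ : characterSpace ℂ (HI I m)) (c : ℂ) : χ (Cc c) = c := by
  unfold Cc
  exact AlgHomClass.commutes χ c

/-- the point below a character -/
noncomputable def pt (χ : characterSpace ℂ (HI I m)) : V m :=
  WithLp.toLp 2 (fun i => χ (Lw (EuclideanSpace.single i (1:ℂ))))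

theorem pt_apply (χ : characterSpace ℂ (HI I m)) (i : Fin m) :
    pt χ i = χ (Lw (EuclideanSpace.single i (1:ℂ))) := rfl

theorem Lw_single_apply (i : Fin m) (x : I × Bt m) :
    (Lw (EuclideanSpace.single i (1:ℂ)) : HI I m).1 x = (x.2 : V m) i := by
  rw [Lw_apply, EuclideanSpace.inner_single_left]
  simp

theorem char_Lw (χ : characterSpace ℂ (HI I m)) (a : V m) : χ (Lw a) = inner ℂ a (pt χ) := by
  have h1 : (Lw a : HI I m) = ∑ i, Cc (starRingEnd ℂ (a i)) * Lw (EuclideanSpace.single i (1:ℂ)) := by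
    apply ext'
    intro z
    rw [sum_apply, Lw_apply, PiLp.inner_apply]
    refine Finset.sum_congr rfl fun i _ => ?_
    change _ = (Cc (starRingEnd ℂ (a i)) : HI I m).1 z *
      (Lw (EuclideanSpace.single i (1:ℂ)) : HI I m).1 z
    rw [Cc_apply, Lw_single_apply, RCLike.inner_apply, mul_comm]
  rw [h1, map_sum, PiLp.inner_apply]
  refine Finset.sum_congr rfl fun i _ => ?_
  rw [map_mul, char_Cc, pt_apply, RCLike.inner_apply, mul_comm]

theorem pt_norm (χ : characterSpace ℂ (HI I m)) : ‖pt χ‖ ≤ 1 := by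
  have h1 := char_le χ (Lw (pt χ))
  rw [char_Lw] at h1
  have h2 : ‖(Lw (pt χ) : HI I m)‖ ≤ ‖pt χ‖ := by
    refine norm_le (norm_nonneg _) (fun z => ?_)
    rw [Lw_apply]
    have hz := z.2.2
    rw [mem_ball_zero_iff] at hz
    calc ‖inner ℂ (pt χ) (z.2 : V m)‖ ≤ ‖pt χ‖ * ‖(z.2 : V m)‖ := norm_inner_le_norm _ _
      _ ≤ ‖pt χ‖ * 1 := by gcongr
      _ = ‖pt χ‖ := mul_one _
  have h3 : ‖(inner ℂ (pt χ) (pt χ) : ℂ)‖ = ‖pt χ‖ ^ 2 := by
    rw [inner_self_eq_norm_sq_to_K]; simp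
  rw [h3] at h1
  by_contra hcon
  push Not at hcon
  nlinarith

/-- characters over interior points only depend on the values at the point -/
theorem char_interior (χ : characterSpace ℂ (HI I m)) (hp : ‖pt χ‖ < 1) (F : HI I m) :
    χ F = χ (Ix m (c := fun k => F.1 (k, ⟨pt χ, by simpa using hp⟩)) (C := ‖F‖)
      (fun k => le_norm F _)) := by
  choose f hf hfF using F.2
  set p := pt χ with hpdef
  have hfb : ∀ k, ∀ z ∈ ball (0 : V m) 1, ‖f k z‖ ≤ ‖F‖ := by
    intro k z hz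
    have := le_norm F (k, ⟨z, hz⟩)
    rw [hfF] at this
    exact this
  set Γ : Fin m → HI I m := fun i => mk
    (f := fun k => gam (f k) p (EuclideanSpace.single i (1:ℂ)))
    (fun k => gam_diff (hf k) (EuclideanSpace.single i (1:ℂ)) hp)
    (C := 44 * ‖F‖ / (1 - ‖p‖) ^ 2)
    (fun k z hz => gam_bd (hf k) (hfb k) (by simp) (by simpa using hz) hp)
    with hΓ
  set c : HI I m := Ix m (c := fun k => F.1 (k, ⟨p, by simpa using hp⟩)) (C := ‖F‖)
      (fun k => le_norm F _) with hcdef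
  have h1 : F = c + ∑ i, (Lw (EuclideanSpace.single i (1:ℂ)) - Cc (p i)) * Γ i := by
    apply ext'
    rintro ⟨k, z⟩
    have hz := z.2
    rw [mem_ball_zero_iff] at hz
    have hg := gleason (hf k) hp hz
    change F.1 (k, z) = c.1 (k, z) +
      (∑ i, (Lw (EuclideanSpace.single i (1:ℂ)) - Cc (p i)) * Γ i : HI I m).1 (k, z)
    rw [sum_apply]
    have h0 : c.1 (k, z) = f k p := hfF k ⟨p, by simpa using hp⟩
    rw [h0, hfF]
    have h2 : ∀ i, ((Lw (EuclideanSpace.single i (1:ℂ)) - Cc (p i)) * Γ i : HI I m).1 (k, z) =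
        ((z : V m) i - p i) * gam (f k) p (EuclideanSpace.single i (1:ℂ)) z := by
      intro i
      change ((Lw (EuclideanSpace.single i (1:ℂ)) : HI I m).1 (k, z) - (Cc (p i) : HI I m).1 (k, z)) *
        (Γ i).1 (k, z) = _
      rw [Lw_single_apply, Cc_apply]
      rfl
    rw [Finset.sum_congr rfl (fun i _ => h2 i), ← hg]
    ring
  conv_lhs => rw [h1]
  rw [map_add, map_sum]
  have h3 : ∀ i, χ ((Lw (EuclideanSpace.single i (1:ℂ)) - Cc (p i)) * Γ i) = 0 := by
    intro i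
    rw [map_mul, map_sub, char_Cc, hpdef, pt_apply, sub_self, zero_mul]
  rw [Finset.sum_congr rfl (fun i _ => h3 i), Finset.sum_const_zero, add_zero]

/-- finitely many functions of the index without common zero -/
theorem char_index {ι : Type} [Fintype ι] (χ : characterSpace ℂ (HI I m)) (c : ι → I → ℂ) {C : ℝ}
    (hC : ∀ j k, ‖c j k‖ ≤ C) {δ : ℝ} (hδ : 0 < δ) (hlow : ∀ k, δ ≤ ∑ j, ‖c j k‖)
    (h0 : ∀ j, χ (Ix m (hC j)) = 0) : False := by
  -- `∑ |c|² ≥ δ² / card`
  have hcard : 0 < (Fintype.card ι : ℝ) ∨ IsEmpty I := by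
    by_cases hI : IsEmpty I
    · exact Or.inr hI
    · left
      rw [not_isEmpty_iff] at hI
      obtain ⟨k⟩ := hI
      have h1 := hlow k
      by_contra hcon
      push Not at hcon
      have h2 : Fintype.card ι = 0 := by
        have : (Fintype.card ι : ℝ) = 0 := le_antisymm hcon (Nat.cast_nonneg _)
        exact_mod_cast this
      rw [Fintype.card_eq_zero_iff] at h2
      rw [Finset.univ_eq_empty, Finset.sum_empty] at h1
      linarith
  rcases hcard with hcard | hI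
  · have hS : ∀ k, δ ^ 2 / Fintype.card ι ≤ ∑ j, ‖c j k‖ ^ 2 := by
      intro k
      have h1 := sq_sum_le_card_mul_sum_sq (s := (Finset.univ : Finset ι)) (f := fun j => ‖c j k‖)
      rw [div_le_iff₀ hcard]
      have h2 : δ ^ 2 ≤ (∑ j, ‖c j k‖) ^ 2 := pow_le_pow_left₀ hδ.le (hlow k) 2
      have h3 : ((Finset.univ : Finset ι).card : ℝ) = Fintype.card ι := by rw [Finset.card_univ]
      rw [h3] at h1
      linarith
    have hS0 : ∀ k, 0 < ∑ j, ‖c j k‖ ^ 2 := fun k => lt_of_lt_of_le (by positivity) (hS k)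
    have hdb : ∀ j k, ‖starRingEnd ℂ (c j k) / ((∑ i, ‖c i k‖ ^ 2 : ℝ) : ℂ)‖ ≤
        |C| / (δ ^ 2 / Fintype.card ι) := by
      intro j k
      rw [norm_div, Complex.norm_real, Real.norm_of_nonneg (hS0 k).le, RCLike.norm_conj]
      exact div_le_div₀ (abs_nonneg _) ((hC j k).trans (le_abs_self _)) (by positivity) (hS k)
    have h1 : (1 : HI I m) = ∑ j, Ix m (hC j) * Ix m (hdb j) := by
      apply ext'
      rintro ⟨k, z⟩
      rw [sum_apply]
      change (1 : ℂ) = ∑ j, c j k * (starRingEnd ℂ (c j k) / ((∑ i, ‖c i k‖ ^ 2 : ℝ) : ℂ))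
      have h2 : ∀ j, c j k * (starRingEnd ℂ (c j k) / ((∑ i, ‖c i k‖ ^ 2 : ℝ) : ℂ)) =
          ((‖c j k‖ ^ 2 : ℝ) : ℂ) / ((∑ i, ‖c i k‖ ^ 2 : ℝ) : ℂ) := by
        intro j
        rw [← mul_div_assoc, Complex.mul_conj, Complex.normSq_eq_norm_sq]
      rw [Finset.sum_congr rfl (fun j _ => h2 j), ← Finset.sum_div, ← Complex.ofReal_sum, div_self]
      exact_mod_cast (hS0 k).ne'
    have h2 := congrArg χ h1
    rw [map_one, map_sum] at h2
    have h3 : ∀ j, χ (Ix m (hC j) * Ix m (hdb j)) = 0 := by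
      intro j
      rw [map_mul, h0 j, zero_mul]
    rw [Finset.sum_congr rfl (fun j _ => h3 j), Finset.sum_const_zero] at h2
    exact one_ne_zero h2
  · have h1 : (1 : HI I m) = 0 := by
      apply ext'
      rintro ⟨k, z⟩
      exact (hI.false k).elim
    have h2 := congrArg χ h1
    rw [map_one, map_zero] at h2
    exact one_ne_zero h2

/-- indicator functions -/
noncomputable def Id (m : ℕ) (E : Set I) : HI I m :=
  Ix m (c := E.indicator (fun _ => (1 : ℂ))) (C := 1) (fun k => by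
    by_cases h : k ∈ E
    · rw [Set.indicator_of_mem h, norm_one]
    · rw [Set.indicator_of_notMem h, norm_zero]; exact zero_le_one)

theorem Id_mem {E : Set I} {k : I} (hk : k ∈ E) (z : Bt m) : (Id m E).1 (k, z) = 1 :=
  Set.indicator_of_mem hk (fun _ => (1 : ℂ))

theorem Id_not_mem {E : Set I} {k : I} (hk : k ∉ E) (z : Bt m) : (Id m E).1 (k, z) = 0 :=
  Set.indicator_of_notMem hk (fun _ => (1 : ℂ))

theorem Id_mul (E F : Set I) : Id m E * Id m F = Id m (E ∩ F) := by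
  apply ext'
  rintro ⟨k, z⟩
  change (Id m E).1 (k, z) * (Id m F).1 (k, z) = _
  by_cases h1 : k ∈ E
  · by_cases h2 : k ∈ F
    · have h3 : k ∈ E ∩ F := ⟨h1, h2⟩
      rw [Id_mem (I := I) h1, Id_mem (I := I) h2, Id_mem (I := I) h3, one_mul]
    · have h3 : k ∉ E ∩ F := fun h => h2 h.2
      rw [Id_not_mem (I := I) h2, Id_not_mem (I := I) h3, mul_zero]
  · have h3 : k ∉ E ∩ F := fun h => h1 h.1
    rw [Id_not_mem (I := I) h1, Id_not_mem (I := I) h3, zero_mul]

theorem Id_compl (E : Set I) : Id m E + Id m Eᶜ = 1 := by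
  apply ext'
  rintro ⟨k, z⟩
  change (Id m E).1 (k, z) + (Id m Eᶜ).1 (k, z) = 1
  by_cases h1 : k ∈ E
  · have h3 : k ∉ Eᶜ := fun h => h h1
    rw [Id_mem (I := I) h1, Id_not_mem (I := I) h3, add_zero]
  · have h3 : k ∈ Eᶜ := h1
    rw [Id_not_mem (I := I) h1, Id_mem (I := I) h3, zero_add]

theorem char_Id (χ : characterSpace ℂ (HI I m)) (E : Set I) :
    χ (Id m E) = 1 ∨ χ (Id m Eᶜ) = 1 := by
  have h1 := congrArg χ (Id_compl (m := m) E)
  have h2 : χ (Id m E) * χ (Id m E) = χ (Id m E) := by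
    rw [← map_mul, Id_mul, inter_self]
  rw [map_add, map_one] at h1
  have h3 : χ (Id m E) * (χ (Id m E) - 1) = 0 := by rw [mul_sub, h2, mul_one, sub_self]
  rcases mul_eq_zero.1 h3 with h4 | h4
  · right
    rw [h4, zero_add] at h1
    exact h1
  · left
    exact sub_eq_zero.1 h4

/-- if an index function is small in the character, then it is small on a large set -/
theorem char_small (χ : characterSpace ℂ (HI I m)) {c : I → ℂ} {C : ℝ}
    (hC : ∀ k, ‖c k‖ ≤ C) {ε ε' : ℝ} (hε : ‖χ (Ix m hC)‖ ≤ ε) (hε0 : 0 < ε') (hεε : ε < ε') :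
    χ (Id m {k | ‖c k‖ ≤ ε'}) = 1 := by
  classical
  rcases char_Id χ {k | ‖c k‖ ≤ ε'} with h | h
  · exact h
  · exfalso
    set E : Set I := {k | ‖c k‖ ≤ ε'}ᶜ with hE
    have hd : ∀ k, ‖(if k ∈ E then 1 / c k else 0 : ℂ)‖ ≤ 1 / ε' := by
      intro k
      by_cases hk : k ∈ E
      · rw [if_pos hk]
        have h1 : ε' < ‖c k‖ := by
          have : ¬ (‖c k‖ ≤ ε') := hk
          exact not_le.1 this
        rw [norm_div, norm_one]
        exact one_div_le_one_div_of_le hε0 h1.le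
      · rw [if_neg hk, norm_zero]; positivity
    have h1 : Id m E = Ix m hC * Ix m hd := by
      apply ext'
      rintro ⟨k, z⟩
      change _ = c k * (if k ∈ E then 1 / c k else 0 : ℂ)
      by_cases hk : k ∈ E
      · rw [Id_mem hk, if_pos hk]
        have h1 : ε' < ‖c k‖ := by
          have : ¬ (‖c k‖ ≤ ε') := hk
          exact not_le.1 this
        have h2 : c k ≠ 0 := by
          intro h
          rw [h, norm_zero] at h1
          linarith
        rw [mul_one_div, div_self h2]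
      · rw [Id_not_mem hk, if_neg hk, mul_zero]
    have h2 := congrArg χ h1
    rw [h, map_mul] at h2
    have h3 : ‖χ (Ix m hd)‖ ≤ 1 / ε' := by
      refine (char_le χ _).trans (norm_le (by positivity) (fun x => ?_))
      exact hd x.1
    have h4 : (1 : ℝ) ≤ ε * (1 / ε') := by
      calc (1 : ℝ) = ‖χ (Ix m hC) * χ (Ix m hd)‖ := by rw [← h2, norm_one]
        _ = ‖χ (Ix m hC)‖ * ‖χ (Ix m hd)‖ := norm_mul _ _
        _ ≤ ε * (1 / ε') := by
          have h5 : 0 ≤ ε := (norm_nonneg _).trans hε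
          gcongr
    rw [mul_one_div, le_div_iff₀ hε0] at h4
    linarith

/-- localisation at boundary points -/
theorem char_boundary (χ : characterSpace ℂ (HI I m)) (hp : ‖pt χ‖ = 1) (u : HI I m)
    {ρ : ℝ} (hρ : 0 < ρ) {C : ℝ} (hC : 0 ≤ C) (E : Set I) (hE : χ (Id m E) = 1)
    (hu : ∀ k ∈ E, ∀ z : Bt m, ‖(z : V m) - pt χ‖ < ρ → ‖u.1 (k, z)‖ ≤ C) : ‖χ u‖ ≤ C := by
  set p := pt χ with hpdef
  set P : HI I m := Cc (1/2) * (1 + Lw p) with hP
  have hPχ : χ P = 1 := by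
    rw [hP, map_mul, char_Cc, map_add, map_one, char_Lw, ← hpdef, inner_self_eq_norm_sq_to_K, hp]
    norm_num
  have hPz : ∀ z : I × Bt m, P.1 z = 1/2 * (1 + inner ℂ p (z.2 : V m)) := fun z => rfl
  refine le_of_forall_pos_le_add fun ε hε => ?_
  set ρ' := min ρ 1 with hρdef
  have hρ' : 0 < ρ' := lt_min hρ one_pos
  have hρ1 : ρ' ≤ 1 := min_le_right _ _
  set s : ℝ := 1 - ρ' ^ 2 / 4 with hs
  have hs0 : 0 ≤ s := by rw [hs]; nlinarith
  have hs1 : s < 1 := by rw [hs]; nlinarith [sq_pos_of_pos hρ']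
  have hlim : Tendsto (fun k : ℕ => ‖u‖ * s ^ k) atTop (𝓝 0) := by
    have := (tendsto_pow_atTop_nhds_zero_of_lt_one hs0 hs1).const_mul ‖u‖
    simpa using this
  obtain ⟨k, hk⟩ := (hlim.eventually_lt_const hε).exists
  have hw : ∀ z : Bt m, ‖(inner ℂ p (z : V m) : ℂ)‖ ≤ 1 := by
    intro z
    have hz := z.2
    rw [mem_ball_zero_iff] at hz
    calc ‖(inner ℂ p (z : V m) : ℂ)‖ ≤ ‖p‖ * ‖(z : V m)‖ := norm_inner_le_norm _ _
      _ ≤ 1 * 1 := by rw [hp]; gcongr
      _ = 1 := one_mul _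
  have hP1 : ∀ x : I × Bt m, ‖P.1 x‖ ≤ 1 := by
    rintro ⟨i, z⟩
    rw [hPz, norm_mul]
    have := norm_add_le (1:ℂ) (inner ℂ p (z : V m))
    have h3 := hw z
    rw [norm_one] at this
    have h4 : ‖(1/2 : ℂ)‖ = 1/2 := by norm_num
    rw [h4]; linarith
  have hP2 : ∀ (i : I) (z : Bt m), ρ' ≤ ‖(z : V m) - p‖ → ‖P.1 (i, z)‖ ^ 2 ≤ s := by
    intro i z hzp
    have hz := z.2
    rw [mem_ball_zero_iff] at hz
    have h3 : ‖(z : V m) - p‖ ^ 2 = ‖(z : V m)‖ ^ 2 - 2 * (inner ℂ p (z : V m) : ℂ).re + 1 := by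
      rw [norm_sub_sq (𝕜 := ℂ), hp]
      have : RCLike.re (inner ℂ (z : V m) p : ℂ) = (inner ℂ p (z : V m) : ℂ).re :=
        inner_re_symm (𝕜 := ℂ) _ _
      rw [this]; ring
    have h4 : ρ' ^ 2 ≤ ‖(z : V m) - p‖ ^ 2 := by gcongr
    have h5 : ‖(z : V m)‖ ^ 2 ≤ 1 := by nlinarith [norm_nonneg (z : V m)]
    have h6 : ‖P.1 (i, z)‖ ^ 2 = 1/4 * ‖1 + (inner ℂ p (z : V m) : ℂ)‖ ^ 2 := by
      rw [hPz, norm_mul, mul_pow]; norm_num
    have h7 : ‖1 + (inner ℂ p (z : V m) : ℂ)‖ ^ 2 = 1 + 2 * (inner ℂ p (z : V m) : ℂ).re +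
        ‖(inner ℂ p (z : V m) : ℂ)‖ ^ 2 := by
      rw [← Complex.normSq_eq_norm_sq, ← Complex.normSq_eq_norm_sq, Complex.normSq_apply,
        Complex.normSq_apply]
      simp; ring
    have h8 : ‖(inner ℂ p (z : V m) : ℂ)‖ ^ 2 ≤ 1 := by
      nlinarith [hw z, norm_nonneg (inner ℂ p (z : V m) : ℂ)]
    rw [h6, h7, hs]
    nlinarith
  have hbound : ‖u * Id m E * P ^ (2 * k)‖ ≤ C + ε := by
    refine norm_le (by linarith) ?_
    rintro ⟨i, z⟩
    have h0 : (u * Id m E * P ^ (2 * k)).1 (i, z) =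
      u.1 (i, z) * (Id m E).1 (i, z) * (P ^ (2 * k)).1 (i, z) := rfl
    rw [h0, pow_apply, norm_mul, norm_mul, norm_pow, pow_mul]
    by_cases hi : i ∈ E
    · rw [Id_mem hi, norm_one, mul_one]
      by_cases hzp : ‖(z : V m) - p‖ < ρ'
      · have h3 : ‖u.1 (i, z)‖ ≤ C := hu i hi z (hzp.trans_le (min_le_left _ _))
        have h4 : (‖P.1 (i, z)‖ ^ 2) ^ k ≤ 1 := by
          apply pow_le_one₀ (by positivity)
          exact pow_le_one₀ (norm_nonneg _) (hP1 _)
        calc ‖u.1 (i, z)‖ * (‖P.1 (i, z)‖ ^ 2) ^ k ≤ C * 1 := by gcongr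
          _ ≤ C + ε := by linarith
      · push Not at hzp
        calc ‖u.1 (i, z)‖ * (‖P.1 (i, z)‖ ^ 2) ^ k ≤ ‖u‖ * s ^ k := by
              gcongr
              · exact le_norm u _
              · exact hP2 i z hzp
          _ ≤ C + ε := by linarith
    · rw [Id_not_mem hi, norm_zero, mul_zero, zero_mul]
      linarith
  calc ‖χ u‖ = ‖χ (u * Id m E * P ^ (2 * k))‖ := by
        rw [map_mul, map_mul, map_pow, hPχ, hE, one_pow, mul_one, mul_one]
    _ ≤ ‖u * Id m E * P ^ (2 * k)‖ := char_le _ _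
    _ ≤ C + ε := hbound

end Pool.Agent.TH310.Cor
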