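import Mathlib
import Pool.Agent.TH310.Cor.Fam

/-!
Uniform solvability, and the reduction step: slice localisation along a geodesic removes the
functions which are scaled continuous along this geodesic.
-/

set_option autoImplicit false

open Metric Set Filter Topology WeakDual

namespace Pool.Agent.TH310.Cor

open Pool.Agent.H326R3.CB (Bt)
open Pool.Agent.W732.Cor (mv S_mv S_ball)

variable {m : ℕ}

/-- holomorphic on the ball and bounded by `1` -/
def HB (f : V m → ℂ) : Prop :=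
  DifferentiableOn ℂ f (ball 0 1) ∧ ∀ z ∈ ball (0 : V m) 1, ‖f z‖ ≤ 1

/-- `ψ` is an automorphism of the ball with inverse `φ` -/
structure Aut (ψ φ : V m → V m) : Prop where
  d1 : DifferentiableOn ℂ ψ (ball 0 1)
  d2 : DifferentiableOn ℂ φ (ball 0 1)
  m1 : MapsTo ψ (ball 0 1) (ball 0 1)
  m2 : MapsTo φ (ball 0 1) (ball 0 1)
  i1 : ∀ z ∈ ball (0 : V m) 1, φ (ψ z) = z
  i2 : ∀ z ∈ ball (0 : V m) 1, ψ (φ z) = z

theorem Aut.symm {ψ φ : V m → V m} (h : Aut ψ φ) : Aut φ ψ := ⟨h.d2, h.d1, h.m2, h.m1, h.i2, h.i1⟩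

theorem Aut.comp {ψ φ ψ' φ' : V m → V m} (h : Aut ψ φ) (h' : Aut ψ' φ') :
    Aut (fun z => ψ (ψ' z)) (fun z => φ' (φ z)) where
  d1 := h.d1.comp h'.d1 h'.m1
  d2 := h'.d2.comp h.d2 h.m2
  m1 := h.m1.comp h'.m1
  m2 := h'.m2.comp h.m2
  i1 := fun z hz => by rw [h.i1 _ (h'.m1 hz), h'.i1 z hz]
  i2 := fun z hz => by rw [h'.i2 _ (h.m2 hz), h.i2 z hz]

theorem HB.comp {f : V m → ℂ} {ψ φ : V m → V m} (hf : HB f) (h : Aut ψ φ) :
    HB (fun z => f (ψ z)) :=
  ⟨hf.1.comp h.d1 h.m1, fun z hz => hf.2 _ (h.m1 hz)⟩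

theorem aut_mv (hmv : S_mv) {p : V m} (hp : ‖p‖ = 1) {a : ℂ} (ha : a ∈ ball (0 : ℂ) 1) :
    Aut (mv p a) (mv p (-a)) := by
  have ha' : -a ∈ ball (0 : ℂ) 1 := by simpa using ha
  obtain ⟨h1, h2, h3, -, -⟩ := hmv m p hp a ha
  obtain ⟨h1', h2', h3', -, -⟩ := hmv m p hp (-a) ha'
  rw [neg_neg] at h3'
  exact ⟨h1, h1', h2, h2', h3, h3'⟩

/-- uniform solvability of the Bezout equations -/
def Solv {I ι : Type} [Fintype ι] (F : I → ι → V m → ℂ) : Prop :=
  ∃ C : ℝ, ∀ i, ∃ g : ι → V m → ℂ, (∀ j, DifferentiableOn ℂ (g j) (ball 0 1)) ∧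
    (∀ j, ∀ z ∈ ball (0 : V m) 1, ‖g j z‖ ≤ C) ∧ ∀ z ∈ ball (0 : V m) 1, ∑ j, F i j z * g j z = 1

theorem Solv.mono {I ι κ : Type} [Fintype ι] [Fintype κ] {F : I → ι → V m → ℂ}
    {F' : I → κ → V m → ℂ} (f : ι → κ)
    (h : ∀ i j, ∀ z ∈ ball (0 : V m) 1, F i j z = F' i (f j) z) (hs : Solv F) : Solv F' := by
  classical
  obtain ⟨C, hC⟩ := hs
  refine ⟨Fintype.card ι * |C|, fun i => ?_⟩
  obtain ⟨g, hg, hgb, hid⟩ := hC i
  refine ⟨fun k z => ∑ j, if f j = k then g j z else 0, fun k => ?_, fun k z hz => ?_,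
    fun z hz => ?_⟩
  · refine DifferentiableOn.fun_sum fun j _ => ?_
    by_cases hj : f j = k
    · simp only [if_pos hj]; exact hg j
    · simp only [if_neg hj]; exact differentiableOn_const _
  · refine (norm_sum_le _ _).trans ?_
    have h1 : ∀ j ∈ (Finset.univ : Finset ι), ‖(if f j = k then g j z else 0 : ℂ)‖ ≤ |C| := by
      intro j _
      by_cases hj : f j = k
      · rw [if_pos hj]; exact (hgb j z hz).trans (le_abs_self _)
      · rw [if_neg hj, norm_zero]; exact abs_nonneg _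
    refine (Finset.sum_le_sum h1).trans ?_
    rw [Finset.sum_const, Finset.card_univ, nsmul_eq_mul]
  · rw [← hid z hz]
    simp only [Finset.mul_sum]
    rw [Finset.sum_comm]
    refine Finset.sum_congr rfl fun j _ => ?_
    rw [Finset.sum_eq_single (f j)]
    · rw [if_pos rfl, h i j z hz]
    · intro k _ hk
      rw [if_neg (fun h => hk h.symm), mul_zero]
    · intro h; exact absurd (Finset.mem_univ _) h

theorem Solv.comp {I ι : Type} [Fintype ι] {F : I → ι → V m → ℂ} {ψ φ : I → V m → V m}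
    (h : ∀ i, Aut (ψ i) (φ i)) (hs : Solv (fun i j z => F i j (φ i z))) : Solv F := by
  obtain ⟨C, hC⟩ := hs
  refine ⟨C, fun i => ?_⟩
  obtain ⟨g, hg, hgb, hid⟩ := hC i
  refine ⟨fun j z => g j (ψ i z), fun j => (hg j).comp (h i).d1 (h i).m1,
    fun j z hz => hgb j _ ((h i).m1 hz), fun z hz => ?_⟩
  have h1 := hid _ ((h i).m1 hz)
  simp only [(h i).i1 z hz] at h1
  exact h1

/-- a family of functions as an element of the algebra -/
noncomputable def El {I : Type} [TopologicalSpace I] [DiscreteTopology I] {f : I → V m → ℂ}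
    (hf : ∀ i, HB (f i)) : HI I m :=
  mk (f := f) (fun i => (hf i).1) (C := 1) (fun i => (hf i).2)

theorem El_apply {I : Type} [TopologicalSpace I] [DiscreteTopology I] {f : I → V m → ℂ}
    (hf : ∀ i, HB (f i)) (x : I × Bt m) : (El hf).1 x = f x.1 x.2 := rfl

theorem exists_zero {I ι : Type} [TopologicalSpace I] [DiscreteTopology I] [Fintype ι]
    {F : I → ι → V m → ℂ} (hF : ∀ i j, HB (F i j)) (h : ¬ Solv F) :
    ∃ χ : characterSpace ℂ (HI I m), ∀ j, χ (El (f := fun i => F i j) (fun i => hF i j)) = 0 := by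
  by_cases hI : Ideal.span (Set.range fun j => El (f := fun i => F i j) (fun i => hF i j)) = ⊤
  · exfalso
    apply h
    have h1 : (1 : HI I m) ∈
        Ideal.span (Set.range fun j => El (f := fun i => F i j) (fun i => hF i j)) := by
      rw [hI]; trivial
    obtain ⟨c, hc⟩ := Ideal.mem_span_range_iff_exists_fun.1 h1
    choose g hg hgc using fun j => (c j).2
    refine ⟨∑ j, ‖c j‖, fun i => ⟨fun j => g j i, fun j => hg j i, fun j z hz => ?_,
      fun z hz => ?_⟩⟩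
    · have h2 := hgc j i ⟨z, hz⟩
      have h3 := le_norm (c j) (i, ⟨z, hz⟩)
      rw [h2] at h3
      exact h3.trans (Finset.single_le_sum (f := fun j => ‖c j‖) (fun j _ => norm_nonneg _)
        (Finset.mem_univ j))
    · have h2 : (∑ j, c j * El (f := fun i => F i j) (fun i => hF i j) : HI I m).1 (i, ⟨z, hz⟩) = 1 := by
        rw [hc]; rfl
      rw [sum_apply] at h2
      rw [← h2]
      refine Finset.sum_congr rfl fun j _ => ?_
      change F i j z * g j i z = (c j).1 (i, ⟨z, hz⟩) * F i j z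
      rw [hgc j i, mul_comm]
  · obtain ⟨χ, hχ⟩ := exists_char _ hI
    exact ⟨χ, fun j => hχ _ (Ideal.subset_span ⟨j, rfl⟩)⟩

theorem not_solv {I ι : Type} [TopologicalSpace I] [DiscreteTopology I] [Fintype ι]
    {F : I → ι → V m → ℂ} (hF : ∀ i j, HB (F i j)) (χ : characterSpace ℂ (HI I m)) (E : Set I)
    (hE : χ (Id m E) = 1) (h0 : ∀ j, χ (El (f := fun i => F i j) (fun i => hF i j)) = 0) :
    ¬ Solv (fun l : E => F l.1) := by
  classical
  rintro ⟨C, hC⟩
  choose g hg hgb hid using hC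
  have hd : ∀ (j : ι) (i : I),
      DifferentiableOn ℂ (fun z => if h : i ∈ E then g ⟨i, h⟩ j z else 0) (ball (0 : V m) 1) := by
    intro j i
    by_cases h : i ∈ E
    · simp only [dif_pos h]; exact hg ⟨i, h⟩ j
    · simp only [dif_neg h]; exact differentiableOn_const _
  have hb : ∀ (j : ι) (i : I), ∀ z ∈ ball (0 : V m) 1,
      ‖(if h : i ∈ E then g ⟨i, h⟩ j z else 0 : ℂ)‖ ≤ |C| := by
    intro j i z hz
    by_cases h : i ∈ E
    · rw [dif_pos h]; exact (hgb ⟨i, h⟩ j z hz).trans (le_abs_self _)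
    · rw [dif_neg h, norm_zero]; exact abs_nonneg _
  have h1 : Id m E = ∑ j, El (f := fun i => F i j) (fun i => hF i j) *
      mk (f := fun i z => if h : i ∈ E then g ⟨i, h⟩ j z else 0) (hd j) (hb j) := by
    apply ext'
    rintro ⟨i, z⟩
    rw [sum_apply]
    change _ = ∑ j, F i j z * (if h : i ∈ E then g ⟨i, h⟩ j z else 0)
    by_cases h : i ∈ E
    · rw [Id_mem h]
      simp only [dif_pos h]
      exact (hid ⟨i, h⟩ z z.2).symm
    · rw [Id_not_mem h]
      simp only [dif_neg h, mul_zero, Finset.sum_const_zero]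
  have h2 := congrArg χ h1
  rw [hE, map_sum] at h2
  have h3 : ∀ j, χ (El (f := fun i => F i j) (fun i => hF i j) *
      mk (f := fun i z => if h : i ∈ E then g ⟨i, h⟩ j z else 0) (hd j) (hb j)) = 0 := by
    intro j
    rw [map_mul, h0 j, zero_mul]
  rw [Finset.sum_congr rfl (fun j _ => h3 j), Finset.sum_const_zero] at h2
  exact one_ne_zero h2

theorem char_inter {I κ : Type} [TopologicalSpace I] [DiscreteTopology I] [Fintype κ]
    (χ : characterSpace ℂ (HI I m)) (E : κ → Set I) (h : ∀ j, χ (Id m (E j)) = 1) :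
    χ (Id m {i | ∀ j, i ∈ E j}) = 1 := by
  classical
  have key : ∀ s : Finset κ, χ (Id m {i | ∀ j ∈ s, i ∈ E j}) = 1 := by
    intro s
    induction s using Finset.induction_on with
    | empty =>
      have h1 : (Id m {i : I | ∀ j ∈ (∅ : Finset κ), i ∈ E j}) = 1 := by
        apply ext'
        rintro ⟨k, z⟩
        have h2 : k ∈ {i : I | ∀ j ∈ (∅ : Finset κ), i ∈ E j} := by simp
        rw [Id_mem h2]
        rfl
      rw [h1, map_one]
    | insert j s hj ih =>
      have h1 : {i : I | ∀ l ∈ insert j s, i ∈ E l} = E j ∩ {i | ∀ l ∈ s, i ∈ E l} := by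
        ext i
        simp
      rw [h1, ← Id_mul, map_mul, h j, ih, mul_one]
  have h1 := key Finset.univ
  have h2 : {i : I | ∀ j ∈ (Finset.univ : Finset κ), i ∈ E j} = {i | ∀ j, i ∈ E j} := by
    ext i; simp
  rw [h2] at h1
  exact h1

/-- slice localisation for families -/
theorem slice (hmv : S_mv) (hball : S_ball) {p : V m} (hp : ‖p‖ = 1) {I ι : Type} [Fintype ι]
    {F : I → ι → V m → ℂ} (hF : ∀ i j, HB (F i j)) (h : ¬ Solv F) :
    ¬ Solv (fun (x : I × ball (0 : ℂ) 1) (o : ι ⊕ Unit) (z : V m) =>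
      o.elim (fun j => F x.1 j (mv p x.2 z)) (fun _ => inner ℂ p z)) := by
  classical
  rintro ⟨C, hC⟩
  apply h
  obtain ⟨C', hC'⟩ := hball (Fintype.card ι) C
  refine ⟨C', fun i => ?_⟩
  let e := Fintype.equivFin ι
  obtain ⟨g, hg, hgb, hid⟩ := hC' m p hp (fun j => F i (e.symm j)) (fun j => (hF i _).1)
    (fun j => (hF i _).2) (by
      intro a ha
      obtain ⟨g, hg, hgb, hid⟩ := hC (i, ⟨a, ha⟩)
      have A := aut_mv hmv hp ha
      have ha' : -a ∈ ball (0 : ℂ) 1 := by simpa using ha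
      obtain ⟨-, -, -, hin', -⟩ := hmv m p hp (-a) ha'
      refine ⟨fun j z => g (Sum.inl (e.symm j)) (mv p (-a) z), fun z => g (Sum.inr ()) (mv p (-a) z),
        fun j => (hg _).comp A.d2 A.m2, (hg _).comp A.d2 A.m2, fun j z hz => hgb _ _ (A.m2 hz),
        fun z hz => hgb _ _ (A.m2 hz), fun z hz => ?_⟩
      have h1 := hid _ (A.m2 hz)
      rw [Fintype.sum_sum_type] at h1
      simp only [Sum.elim_inl, Sum.elim_inr, Finset.univ_unique, Finset.sum_singleton] at h1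
      rw [A.i2 z hz, hin' z hz, map_neg, neg_mul, ← sub_eq_add_neg, ← sub_eq_add_neg] at h1
      rw [Equiv.sum_comp e.symm (fun j => F i j z * g (Sum.inl j) (mv p (-a) z))]
      exact h1)
  refine ⟨fun j => g (e j), fun j => hg _, fun j => hgb _, fun z hz => ?_⟩
  have h1 := hid z hz
  rw [← Equiv.sum_comp e (fun j => F i (e.symm j) z * g j z)] at h1
  simpa using h1

/-- the function `(1 - ⟨q, z⟩) / 2` -/
noncomputable def Lo (q z : V m) : ℂ := (1 - inner ℂ q z) / 2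

theorem HB_inner {p : V m} (hp : ‖p‖ = 1) : HB (fun z : V m => (inner ℂ p z : ℂ)) := by
  refine ⟨(innerSL ℂ p).differentiable.differentiableOn, fun z hz => ?_⟩
  rw [mem_ball_zero_iff] at hz
  calc ‖inner ℂ p z‖ ≤ ‖p‖ * ‖z‖ := norm_inner_le_norm p z
    _ ≤ 1 * 1 := by rw [hp]; gcongr
    _ = 1 := mul_one _

theorem HB_Lo {q : V m} (hq : ‖q‖ = 1) : HB (Lo q) := by
  refine ⟨?_, fun z hz => ?_⟩
  · have h1 : Differentiable ℂ (fun z : V m => (inner ℂ q z : ℂ)) := (innerSL ℂ q).differentiable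
    have h2 : Differentiable ℂ (fun z : V m => (1 - inner ℂ q z : ℂ) * (2 : ℂ)⁻¹) :=
      (h1.const_sub (1 : ℂ)).mul_const _
    exact h2.differentiableOn
  · have h1 := (HB_inner hq).2 z hz
    unfold Lo
    rw [norm_div]
    have h2 : ‖(2 : ℂ)‖ = 2 := by norm_num
    rw [h2, div_le_one (by norm_num)]
    calc ‖1 - (inner ℂ q z : ℂ)‖ ≤ ‖(1 : ℂ)‖ + ‖(inner ℂ q z : ℂ)‖ := norm_sub_le _ _
      _ ≤ 1 + 1 := by rw [norm_one]; linarith
      _ = 2 := by norm_num

/-- scaled continuity along the circle of `p`, with modulus `r` -/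
def SCr (p : V m) (r : V m → ℝ → ℝ) (f : V m → ℂ) : Prop :=
  ∀ q : V m, ‖q‖ = 1 → (inner ℂ p q : ℂ) = 0 → ∀ ε : ℝ, 0 < ε →
    ∀ a ∈ ball (0 : ℂ) 1, ∀ z ∈ ball (0 : V m) 1, ∀ w ∈ ball (0 : V m) 1,
      ‖z - q‖ < r q ε → ‖w - q‖ < r q ε → ‖f (mv p a z) - f (mv p a w)‖ ≤ ε

end Pool.Agent.TH310.Cor
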