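import Mathlib
import Pool.Agent.TH310.Cor.Red

/-!
The reduction step.
-/

set_option autoImplicit false

open Metric Set Filter Topology WeakDual

namespace Pool.Agent.TH310.Cor

open Pool.Agent.H326R3.CB (Bt)
open Pool.Agent.W732.Cor (mv S_mv S_ball)

variable {m : ℕ}

theorem Id_univ {I : Type} [TopologicalSpace I] [DiscreteTopology I] :
    (Id m (univ : Set I)) = 1 := by
  apply ext'
  rintro ⟨k, z⟩
  rw [Id_mem (mem_univ k)]
  rfl

theorem one_sub_inner {p z : V m} (hp : ‖p‖ = 1) (hz : ‖z‖ ≤ 1) {ρ : ℝ}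
    (hρ : 0 ≤ ρ) (h : ρ ≤ ‖z - p‖) : ρ ^ 2 / 2 ≤ ‖(1 : ℂ) - inner ℂ p z‖ := by
  have h3 : ‖z - p‖ ^ 2 = ‖z‖ ^ 2 - 2 * (inner ℂ p z : ℂ).re + 1 := by
    rw [norm_sub_sq (𝕜 := ℂ), hp]
    have : RCLike.re (inner ℂ z p : ℂ) = (inner ℂ p z : ℂ).re :=
      inner_re_symm (𝕜 := ℂ) _ _
    rw [this]
    ring
  have h4 : ρ ^ 2 ≤ ‖z - p‖ ^ 2 := pow_le_pow_left₀ hρ h 2
  have h5 : ‖z‖ ^ 2 ≤ 1 := by nlinarith [norm_nonneg z]
  have h6 : ((1 : ℂ) - inner ℂ p z).re ≤ ‖(1 : ℂ) - inner ℂ p z‖ := Complex.re_le_norm _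
  rw [Complex.sub_re, Complex.one_re] at h6
  linarith

theorem Lo_ge {q z : V m} (hq : ‖q‖ = 1) (hz : z ∈ ball (0 : V m) 1) {ρ : ℝ}
    (hρ : 0 ≤ ρ) (h : ρ ≤ ‖z - q‖) : ρ ^ 2 / 4 ≤ ‖Lo q z‖ := by
  rw [mem_ball_zero_iff] at hz
  have h1 := one_sub_inner hq hz.le hρ h
  unfold Lo
  rw [norm_div]
  have h2 : ‖(2 : ℂ)‖ = 2 := by norm_num
  rw [h2]
  linarith

/-- **Reduction step.** -/
theorem step (hmv : S_mv) (hball : S_ball) {p : V m} (hp : ‖p‖ = 1) {I ι κ : Type} [Fintype ι]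
    [Fintype κ] {A : I → ι → V m → ℂ} {B : I → κ → V m → ℂ} (hA : ∀ i j, HB (A i j))
    (hB : ∀ i j, HB (B i j)) (ψ φ : I → V m → V m) (hψ : ∀ i, Aut (ψ i) (φ i))
    (r : V m → ℝ → ℝ) (hr : ∀ q ε, 0 < ε → 0 < r q ε)
    (hsc : ∀ i j, SCr p r (fun z => B i j (φ i z)))
    {δ : ℝ} (hδ : 0 < δ)
    (hlow : ∀ i, ∀ z ∈ ball (0 : V m) 1, δ ≤ ∑ j, ‖A i j z‖ + ∑ j, ‖B i j z‖)
    (hns : ¬ Solv (fun i => Sum.elim (A i) (B i))) :
    ∃ (J : Type) (n : J → I) (θ θ' : J → V m → V m) (q : V m) (δ' : ℝ), 0 < δ' ∧ ‖q‖ = 1 ∧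
      (∀ l, Aut (θ l) (θ' l)) ∧
      (∀ l, ∀ z ∈ ball (0 : V m) 1, δ' ≤ ∑ j, ‖A (n l) j (θ l z)‖ + ‖Lo q z‖) ∧
      ¬ Solv (fun (l : J) (o : ι ⊕ Unit) (z : V m) =>
        o.elim (fun j => A (n l) j (θ l z)) (fun _ => Lo q z)) := by
  classical
  -- transport
  have h1 : ¬ Solv (fun i (o : ι ⊕ κ) (z : V m) => Sum.elim (A i) (B i) o (φ i z)) :=
    fun h => hns (Solv.comp hψ h)
  have hF1 : ∀ i (o : ι ⊕ κ), HB (fun z => Sum.elim (A i) (B i) o (φ i z)) := by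
    intro i o
    rcases o with j | j
    · exact (hA i j).comp (hψ i).symm
    · exact (hB i j).comp (hψ i).symm
  have h2 := slice hmv hball hp hF1 h1
  -- the new index set
  letI tJ : TopologicalSpace (I × ball (0 : ℂ) 1) := ⊥
  haveI dJ : DiscreteTopology (I × ball (0 : ℂ) 1) := ⟨rfl⟩
  have hmvx : ∀ x : I × ball (0 : ℂ) 1, Aut (mv p x.2) (mv p (-(x.2 : ℂ))) :=
    fun x => aut_mv hmv hp x.2.2
  have hF2 : ∀ (x : I × ball (0 : ℂ) 1) (o : (ι ⊕ κ) ⊕ Unit),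
      HB (fun z => o.elim (fun j => Sum.elim (A x.1) (B x.1) j (φ x.1 (mv p x.2 z)))
        (fun _ => inner ℂ p z)) := by
    intro x o
    rcases o with o | o
    · exact (hF1 x.1 o).comp (hmvx x)
    · exact HB_inner hp
  obtain ⟨χ, hχ⟩ := exists_zero hF2 h2
  obtain ⟨q, hq⟩ : ∃ q, q = pt χ := ⟨_, rfl⟩
  -- families
  have hA2 : ∀ (x : I × ball (0 : ℂ) 1) (j : ι), HB (fun z => A x.1 j (φ x.1 (mv p x.2 z))) :=
    fun x j => hF2 x (Sum.inl (Sum.inl j))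
  have hB2 : ∀ (x : I × ball (0 : ℂ) 1) (j : κ), HB (fun z => B x.1 j (φ x.1 (mv p x.2 z))) :=
    fun x j => hF2 x (Sum.inl (Sum.inr j))
  have hχA : ∀ j : ι, χ (El (f := fun x z => A x.1 j (φ x.1 (mv p x.2 z)))
      (fun x => hA2 x j)) = 0 := fun j => hχ (Sum.inl (Sum.inl j))
  have hχB : ∀ j : κ, χ (El (f := fun x z => B x.1 j (φ x.1 (mv p x.2 z)))
      (fun x => hB2 x j)) = 0 := fun j => hχ (Sum.inl (Sum.inr j))
  have hpq : (inner ℂ p q : ℂ) = 0 := by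
    have h3 := char_Lw χ p
    have h4 : (Lw p : HI (I × ball (0 : ℂ) 1) m) =
        El (f := fun _ z => (inner ℂ p z : ℂ)) (fun x => HB_inner hp) := ext' fun x => rfl
    have h5 : χ (El (I := I × ball (0 : ℂ) 1) (f := fun _ z => (inner ℂ p z : ℂ))
      (fun x => HB_inner hp)) = 0 := hχ (Sum.inr ())
    rw [h4, h5] at h3
    rw [hq]
    exact h3.symm
  have hlow2 : ∀ (x : I × ball (0 : ℂ) 1), ∀ z ∈ ball (0 : V m) 1,
      δ ≤ ∑ j, ‖A x.1 j (φ x.1 (mv p x.2 z))‖ + ∑ j, ‖B x.1 j (φ x.1 (mv p x.2 z))‖ :=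
    fun x z hz => hlow x.1 _ ((hψ x.1).m2 ((hmvx x).m1 hz))
  -- the point is on the sphere
  have hq1 : ‖q‖ = 1 := by
    rcases lt_or_eq_of_le (pt_norm χ) with h3 | h3
    · exfalso
      have hpt : pt χ ∈ ball (0 : V m) 1 := by rw [mem_ball_zero_iff]; exact h3
      refine char_index (ι := ι ⊕ κ) χ
        (fun o x => Sum.elim (A x.1) (B x.1) o (φ x.1 (mv p x.2 (pt χ)))) (C := 1)
        (fun o x => (hF2 x (Sum.inl o)).2 _ hpt) hδ ?_ ?_
      · intro x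
        rw [Fintype.sum_sum_type]
        exact hlow2 x _ hpt
      · intro o
        have h4 := char_interior χ h3 (El (f := fun x z => Sum.elim (A x.1) (B x.1) o
          (φ x.1 (mv p x.2 z))) (fun x => hF2 x (Sum.inl o)))
        have h5 : χ (El (f := fun (x : I × ball (0 : ℂ) 1) z => Sum.elim (A x.1) (B x.1) o
          (φ x.1 (mv p x.2 z))) (fun x => hF2 x (Sum.inl o))) = 0 := hχ (Sum.inl o)
        rw [h5] at h4
        refine Eq.trans (congrArg χ ?_) h4.symm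
        exact ext' fun x => rfl
    · rw [hq]; exact h3
  -- elimination
  obtain ⟨ε, hε⟩ : ∃ ε : ℝ, ε = δ / (8 * (Fintype.card κ + 1)) := ⟨_, rfl⟩
  have hN1 : (0 : ℝ) < Fintype.card κ + 1 := by positivity
  have hε0 : 0 < ε := by rw [hε]; positivity
  have hNε : (Fintype.card κ : ℝ) * (3 * ε) ≤ δ / 2 := by
    rw [hε]
    have h3 : (Fintype.card κ : ℝ) * (3 * (δ / (8 * (Fintype.card κ + 1)))) =
        (Fintype.card κ / (Fintype.card κ + 1)) * (3 * δ / 8) := by field_simp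
    rw [h3]
    have h4 : (Fintype.card κ : ℝ) / (Fintype.card κ + 1) ≤ 1 := by
      rw [div_le_one hN1]; linarith
    have h5 : (0 : ℝ) ≤ (Fintype.card κ : ℝ) / (Fintype.card κ + 1) := by positivity
    nlinarith
  obtain ⟨ρ, hρ⟩ : ∃ ρ : ℝ, ρ = min (r q ε) 1 := ⟨_, rfl⟩
  have hρ0 : 0 < ρ := by rw [hρ]; exact lt_min (hr q ε hε0) one_pos
  have hρr : ρ ≤ r q ε := by rw [hρ]; exact min_le_left _ _
  have hρ1 : ρ ≤ 1 := by rw [hρ]; exact min_le_right _ _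
  obtain ⟨w0, hw0⟩ : ∃ w0 : V m, w0 = ((1 - ρ / 2 : ℝ) : ℂ) • q := ⟨_, rfl⟩
  have hw0b : w0 ∈ ball (0 : V m) 1 := by
    rw [mem_ball_zero_iff, hw0, norm_smul, hq1, Complex.norm_real, Real.norm_of_nonneg (by linarith)]
    linarith
  have hw0q : ‖w0 - q‖ < ρ := by
    have h3 : w0 - q = (-(ρ / 2 : ℝ) : ℂ) • q := by
      rw [hw0]
      push_cast
      module
    rw [h3, norm_smul, hq1, norm_neg, Complex.norm_real, Real.norm_of_nonneg (by linarith)]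
    linarith
  have hosc : ∀ (x : I × ball (0 : ℂ) 1) (j : κ), ∀ z ∈ ball (0 : V m) 1, ‖z - q‖ < ρ →
      ‖B x.1 j (φ x.1 (mv p x.2 z)) - B x.1 j (φ x.1 (mv p x.2 w0))‖ ≤ ε := by
    intro x j z hz hzq
    exact hsc x.1 j q hq1 hpq ε hε0 x.2 x.2.2 z hz w0 hw0b (hzq.trans_le hρr)
      (hw0q.trans_le hρr)
  have hcb : ∀ (j : κ) (x : I × ball (0 : ℂ) 1), ‖B x.1 j (φ x.1 (mv p x.2 w0))‖ ≤ 1 :=
    fun j x => (hB2 x j).2 w0 hw0b
  have hsm : ∀ j : κ, χ (Id m {x : I × ball (0 : ℂ) 1 |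
      ‖B x.1 j (φ x.1 (mv p x.2 w0))‖ ≤ 2 * ε}) = 1 := by
    intro j
    refine char_small χ (hcb j) (ε := ε) ?_ (by positivity) (by linarith)
    have h3 : ‖χ (El (f := fun x z => B x.1 j (φ x.1 (mv p x.2 z))) (fun x => hB2 x j) -
        Ix m (hcb j))‖ ≤ ε := by
      refine char_boundary χ (by rw [← hq]; exact hq1) _ hρ0 hε0.le univ
        (by rw [Id_univ, map_one]) ?_
      intro x _ z hz
      rw [← hq] at hz
      exact hosc x j z z.2 hz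
    rw [map_sub, hχB j, zero_sub, norm_neg] at h3
    exact h3
  obtain ⟨E, hE⟩ : ∃ E : Set (I × ball (0 : ℂ) 1), E = {x | ∀ j : κ, x ∈
      {x : I × ball (0 : ℂ) 1 | ‖B x.1 j (φ x.1 (mv p x.2 w0))‖ ≤ 2 * ε}} := ⟨_, rfl⟩
  have hχE : χ (Id m E) = 1 := by
    rw [hE]
    exact char_inter χ _ hsm
  refine ⟨E, fun l => l.1.1, fun l z => φ l.1.1 (mv p l.1.2 z),
    fun l z => mv p (-(l.1.2 : ℂ)) (ψ l.1.1 z), q, min (δ / 2) (ρ ^ 2 / 4), by positivity, hq1,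
    fun l => (hψ l.1.1).symm.comp (hmvx l.1), ?_, ?_⟩
  · intro l z hz
    by_cases hzq : ‖z - q‖ < ρ
    · have h3 : ∑ j, ‖B l.1.1 j (φ l.1.1 (mv p l.1.2 z))‖ ≤ δ / 2 := by
        have h4 : ∀ j ∈ (Finset.univ : Finset κ),
            ‖B l.1.1 j (φ l.1.1 (mv p l.1.2 z))‖ ≤ 3 * ε := by
          intro j _
          have h5 := hosc l.1 j z hz hzq
          have h6 : ‖B l.1.1 j (φ l.1.1 (mv p l.1.2 w0))‖ ≤ 2 * ε := by
            have h8 : ∀ y ∈ E, ∀ j : κ, ‖B y.1 j (φ y.1 (mv p y.2 w0))‖ ≤ 2 * ε := by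
              intro y hy
              rw [hE] at hy
              exact hy
            exact h8 l.1 l.2 j
          have h7 := norm_add_le (B l.1.1 j (φ l.1.1 (mv p l.1.2 z)) -
            B l.1.1 j (φ l.1.1 (mv p l.1.2 w0))) (B l.1.1 j (φ l.1.1 (mv p l.1.2 w0)))
          rw [sub_add_cancel] at h7
          linarith
        refine (Finset.sum_le_sum h4).trans ?_
        rw [Finset.sum_const, Finset.card_univ, nsmul_eq_mul]
        exact hNε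
      have h5 := hlow2 l.1 z hz
      have h6 := norm_nonneg (Lo q z)
      have h7 := min_le_left (δ / 2) (ρ ^ 2 / 4)
      change _ ≤ ∑ j, ‖A l.1.1 j (φ l.1.1 (mv p l.1.2 z))‖ + ‖Lo q z‖
      linarith
    · push Not at hzq
      have h3 := Lo_ge hq1 hz hρ0.le hzq
      have h4 : 0 ≤ ∑ j, ‖A l.1.1 j (φ l.1.1 (mv p l.1.2 z))‖ :=
        Finset.sum_nonneg fun j _ => norm_nonneg _
      have h7 := min_le_right (δ / 2) (ρ ^ 2 / 4)
      change _ ≤ ∑ j, ‖A l.1.1 j (φ l.1.1 (mv p l.1.2 z))‖ + ‖Lo q z‖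
      linarith
  · have hF3 : ∀ (x : I × ball (0 : ℂ) 1) (o : ι ⊕ Unit), HB (fun z => o.elim
        (fun j => A x.1 j (φ x.1 (mv p x.2 z))) (fun _ => Lo q z)) := by
      intro x o
      rcases o with o | o
      · exact hA2 x o
      · exact HB_Lo hq1
    refine not_solv (F := fun (x : I × ball (0 : ℂ) 1) (o : ι ⊕ Unit) z => o.elim
        (fun j => A x.1 j (φ x.1 (mv p x.2 z))) (fun _ => Lo q z)) hF3 χ E hχE ?_
    intro o
    rcases o with o | o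
    · exact hχA o
    · have h3 : El (f := fun (_ : I × ball (0 : ℂ) 1) z => Lo q z) (fun x => HB_Lo hq1) =
          (Cc (1/2) * (1 - Lw q) : HI (I × ball (0 : ℂ) 1) m) := by
        apply ext'
        rintro ⟨x, z⟩
        change (1 - inner ℂ q (z : V m)) / 2 = (1/2 : ℂ) * (1 - inner ℂ q (z : V m))
        ring
      change χ (El (f := fun (_ : I × ball (0 : ℂ) 1) z => Lo q z) (fun x => HB_Lo hq1)) = 0
      rw [h3, map_mul, char_Cc, map_sub, map_one, char_Lw, ← hq, inner_self_eq_norm_sq_to_K, hq1]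
      norm_num

end Pool.Agent.TH310.Cor
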