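import Mathlib
import Pool.Agent.TH310.Cor.Step
import Pool.Agent.W721.Cor.Mv

/-!
Automorphisms of the ball: Cartan's theorem, decomposition, and the localising functions.
-/

set_option autoImplicit false

open Metric Set Filter Topology

namespace Pool.Agent.TH310.Cor

open Pool.Agent.W732.Cor (mv S_mv S_ball)
open Pool.Agent.W721.Cor.Mv (inner_pp inner_perp norm_comb norm_dec inner_lt den_ne inner_mv perp_mv)

variable {m : ℕ}

theorem mv_zero_arg (p : V m) (a : ℂ) : mv p a 0 = a • p := by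
  unfold mv
  rw [inner_zero_right]
  simp

theorem mv_zero (p z : V m) : mv p 0 z = z := by
  unfold mv
  simp

theorem mv_unitary (U : V m ≃ₗᵢ[ℂ] V m) (p : V m) (a : ℂ) (z : V m) :
    mv (U p) a (U z) = U (mv p a z) := by
  unfold mv
  rw [U.inner_map_map, map_smul, map_add, map_smul, map_smul, map_sub, map_smul]

theorem aut_unitary (U : V m ≃ₗᵢ[ℂ] V m) : Aut (m := m) U U.symm where
  d1 := U.toContinuousLinearEquiv.differentiable.differentiableOn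
  d2 := U.symm.toContinuousLinearEquiv.differentiable.differentiableOn
  m1 := fun z hz => by
    rw [mem_ball_zero_iff] at hz ⊢
    rwa [U.norm_map]
  m2 := fun z hz => by
    rw [mem_ball_zero_iff] at hz ⊢
    rwa [U.symm.norm_map]
  i1 := fun z _ => U.symm_apply_apply z
  i2 := fun z _ => U.apply_symm_apply z

theorem exists_unitary {p b : V m} (hp : ‖p‖ = 1) (hb : ‖b‖ = 1) :
    ∃ U : V m ≃ₗᵢ[ℂ] V m, U p = b := by
  let S : Submodule ℂ (V m) := Submodule.span ℂ {p}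
  let e1 : ℂ ≃ₗᵢ[ℂ] S := LinearIsometryEquiv.toSpanUnitSingleton p hp
  let e2 : ℂ ≃ₗᵢ[ℂ] (Submodule.span ℂ {b}) := LinearIsometryEquiv.toSpanUnitSingleton b hb
  let L : S →ₗᵢ[ℂ] V m :=
    (Submodule.subtypeₗᵢ (Submodule.span ℂ {b})).comp ((e1.symm.trans e2).toLinearIsometry)
  have hps : p ∈ S := Submodule.mem_span_singleton_self p
  have h1 : e1 1 = ⟨p, hps⟩ := by
    apply Subtype.ext
    change (1 : ℂ) • p = p
    rw [one_smul]
  have h2 : L.extend p = b := by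
    have h3 := L.extend_apply ⟨p, hps⟩
    have h4 : L ⟨p, hps⟩ = b := by
      change ((e2 (e1.symm ⟨p, hps⟩) : Submodule.span ℂ {b}) : V m) = b
      rw [← h1, LinearIsometryEquiv.symm_apply_apply]
      change (1 : ℂ) • b = b
      rw [one_smul]
    exact h3.trans h4
  exact ⟨L.extend.toLinearIsometryEquiv rfl, by
    rw [LinearIsometry.coe_toLinearIsometryEquiv]; exact h2⟩

theorem schwarz {η : V m → V m} (hd : DifferentiableOn ℂ η (ball 0 1))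
    (hm : MapsTo η (ball 0 1) (ball 0 1)) (h0 : η 0 = 0) {z : V m} (hz : z ∈ ball (0 : V m) 1) :
    ‖η z‖ ≤ ‖z‖ := by
  rcases eq_or_ne z 0 with h | h
  · rw [h, h0]
  have hn : 0 < ‖z‖ := norm_pos_iff.2 h
  rw [mem_ball_zero_iff] at hz
  have hmaps : MapsTo (fun l : ℂ => l • z) (ball 0 (‖z‖⁻¹)) (ball (0 : V m) 1) := by
    intro l hl
    rw [mem_ball_zero_iff] at hl
    change l • z ∈ _
    rw [mem_ball_zero_iff, norm_smul]
    calc ‖l‖ * ‖z‖ < ‖z‖⁻¹ * ‖z‖ := by gcongr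
      _ = 1 := inv_mul_cancel₀ hn.ne'
  have hg : DifferentiableOn ℂ (fun l : ℂ => η (l • z)) (ball 0 (‖z‖⁻¹)) :=
    hd.comp (by fun_prop : Differentiable ℂ fun l : ℂ => l • z).differentiableOn hmaps
  have hg2 : MapsTo (fun l : ℂ => η (l • z)) (ball 0 (‖z‖⁻¹))
      (closedBall ((fun l : ℂ => η (l • z)) 0) 1) := by
    intro l hl
    have h1 := hm (hmaps hl)
    rw [mem_ball_zero_iff] at h1
    simp only [zero_smul, h0, mem_closedBall, dist_zero_right]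
    exact h1.le
  have h3 := Complex.dist_le_div_mul_dist_of_mapsTo_ball hg hg2 (z := 1)
    (by rw [mem_ball_zero_iff, norm_one, one_lt_inv₀ hn]; exact hz)
  simp only [one_smul, zero_smul, h0, dist_zero_right, norm_one, mul_one, one_div, inv_inv] at h3
  exact h3

/-- **Cartan's theorem** for the ball. -/
theorem cartan {η η' : V m → V m} (h : Aut η η') (h0 : η 0 = 0) :
    ∃ W : V m ≃ₗᵢ[ℂ] V m, ∀ z ∈ ball (0 : V m) 1, η z = W z := by
  have h0b : (0 : V m) ∈ ball (0 : V m) 1 := mem_ball_self one_pos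
  have h0' : η' 0 = 0 := by
    have := h.i1 0 h0b
    rwa [h0] at this
  have hn : ∀ z ∈ ball (0 : V m) 1, ‖η z‖ = ‖z‖ := by
    intro z hz
    refine le_antisymm (schwarz h.d1 h.m1 h0 hz) ?_
    have h1 := schwarz h.d2 h.m2 h0' (h.m1 hz)
    rwa [h.i1 z hz] at h1
  obtain ⟨L, hL⟩ : ∃ L : V m →L[ℂ] V m, L = fderiv ℂ η 0 := ⟨_, rfl⟩
  have hL0 : HasFDerivAt η L 0 := by
    rw [hL]
    exact (h.d1.differentiableAt (isOpen_ball.mem_nhds h0b)).hasFDerivAt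
  have key : ∀ z ∈ ball (0 : V m) 1, η z = L z := by
    intro z hz
    rcases eq_or_ne z 0 with hz0 | hz0
    · rw [hz0, h0, map_zero]
    have hnz : 0 < ‖z‖ := norm_pos_iff.2 hz0
    rw [mem_ball_zero_iff] at hz
    obtain ⟨R, hR⟩ : ∃ R : ℝ, R = ‖z‖⁻¹ := ⟨_, rfl⟩
    have hR1 : 1 < R := by rw [hR, one_lt_inv₀ hnz]; exact hz
    have hmaps : MapsTo (fun l : ℂ => l • z) (ball 0 R) (ball (0 : V m) 1) := by
      intro l hl
      rw [mem_ball_zero_iff] at hl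
      change l • z ∈ _
      rw [mem_ball_zero_iff, norm_smul]
      calc ‖l‖ * ‖z‖ < ‖z‖⁻¹ * ‖z‖ := by rw [← hR]; gcongr
        _ = 1 := inv_mul_cancel₀ hnz.ne'
    obtain ⟨g, hg⟩ : ∃ g : ℂ → V m, g = fun l => η (l • z) := ⟨_, rfl⟩
    have hgd : DifferentiableOn ℂ g (ball 0 R) := by
      rw [hg]
      exact h.d1.comp (by fun_prop : Differentiable ℂ fun l : ℂ => l • z).differentiableOn hmaps
    have hg0 : g 0 = 0 := by rw [hg]; simp [h0]
    have hgder : HasDerivAt g (L z) 0 := by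
      have h1 : HasDerivAt (fun l : ℂ => l • z) z 0 := by
        simpa using (hasDerivAt_id (0 : ℂ)).smul_const z
      have h2 : HasFDerivAt η L ((fun l : ℂ => l • z) 0) := by
        simp only [zero_smul]; exact hL0
      rw [hg]
      exact h2.comp_hasDerivAt 0 h1
    have h0R : (0 : ℂ) ∈ ball (0 : ℂ) R := mem_ball_self (by linarith)
    have hds : DifferentiableOn ℂ (dslope g 0) (ball 0 R) :=
      (Complex.differentiableOn_dslope (isOpen_ball.mem_nhds h0R)).2 hgd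
    have hval : ∀ l ∈ ball (0 : ℂ) R, l ≠ 0 → ‖dslope g 0 l‖ = ‖z‖ := by
      intro l hl hl0
      rw [dslope_of_ne _ hl0, slope_def_module, hg0, sub_zero, sub_zero, norm_smul, norm_inv, hg]
      have h3 := hn _ (hmaps hl)
      simp only at h3 ⊢
      rw [h3, norm_smul, inv_mul_cancel_left₀ (norm_ne_zero_iff.2 hl0)]
    have hval0 : ‖dslope g 0 0‖ = ‖z‖ := by
      have hc : ContinuousAt (fun l => ‖dslope g 0 l‖) 0 :=
        ((hds.differentiableAt (isOpen_ball.mem_nhds h0R)).continuousAt).norm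
      have h3 : Tendsto (fun l => ‖dslope g 0 l‖) (𝓝[≠] (0 : ℂ)) (𝓝 ‖dslope g 0 0‖) :=
        hc.tendsto.mono_left nhdsWithin_le_nhds
      have h4 : Tendsto (fun l => ‖dslope g 0 l‖) (𝓝[≠] (0 : ℂ)) (𝓝 ‖z‖) := by
        refine tendsto_const_nhds.congr' ?_
        have h5 : ∀ᶠ l in 𝓝[≠] (0 : ℂ), l ∈ ball (0 : ℂ) R :=
          nhdsWithin_le_nhds (isOpen_ball.mem_nhds h0R)
        filter_upwards [h5, self_mem_nhdsWithin] with l hl hl0
        exact (hval l hl hl0).symm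
      exact tendsto_nhds_unique h3 h4
    have hmax : IsMaxOn (norm ∘ dslope g 0) (ball 0 R) 0 := by
      intro l hl
      change ‖dslope g 0 l‖ ≤ ‖dslope g 0 0‖
      rw [hval0]
      rcases eq_or_ne l 0 with hl0 | hl0
      · rw [hl0, hval0]
      · exact (hval l hl hl0).le
    have hconst := Complex.eqOn_of_isPreconnected_of_isMaxOn_norm
      (convex_ball (0 : ℂ) R).isPreconnected isOpen_ball hds h0R hmax
    have h1R : (1 : ℂ) ∈ ball (0 : ℂ) R := by rw [mem_ball_zero_iff, norm_one]; exact hR1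
    have h6 := hconst h1R
    rw [Function.const_apply, dslope_same, hgder.deriv, dslope_of_ne _ one_ne_zero,
      slope_def_module, hg0, sub_zero, sub_zero, inv_one, one_smul, hg] at h6
    simpa using h6
  have hiso : ∀ z : V m, ‖L z‖ = ‖z‖ := by
    intro z
    rcases eq_or_ne z 0 with hz0 | hz0
    · rw [hz0, map_zero]
    have hnz : 0 < ‖z‖ := norm_pos_iff.2 hz0
    obtain ⟨t, ht⟩ : ∃ t : ℝ, t = 1 / (2 * ‖z‖) := ⟨_, rfl⟩
    have ht0 : 0 < t := by rw [ht]; positivity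
    have h1 : ‖(t : ℂ) • z‖ = 1 / 2 := by
      rw [norm_smul, Complex.norm_real, Real.norm_of_nonneg ht0.le, ht]
      field_simp
    have h2 : (t : ℂ) • z ∈ ball (0 : V m) 1 := by
      rw [mem_ball_zero_iff, h1]; norm_num
    have h3 := hn _ h2
    rw [key _ h2, map_smul, norm_smul, norm_smul] at h3
    have h4 : ‖(t : ℂ)‖ ≠ 0 := by
      rw [Complex.norm_real, Real.norm_of_nonneg ht0.le]; exact ht0.ne'
    exact mul_left_cancel₀ h4 h3
  let Li : V m →ₗᵢ[ℂ] V m := ⟨L.toLinearMap, hiso⟩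
  refine ⟨Li.toLinearIsometryEquiv rfl, fun z hz => ?_⟩
  rw [LinearIsometry.coe_toLinearIsometryEquiv]
  exact key z hz

/-- decomposition of automorphisms -/
theorem decomp (hmv : S_mv) {p : V m} (hp : ‖p‖ = 1) {θ θ' : V m → V m} (h : Aut θ θ') :
    ∃ (U W : V m ≃ₗᵢ[ℂ] V m) (c : ℂ), c ∈ ball (0 : ℂ) 1 ∧
      ∀ z ∈ ball (0 : V m) 1, θ (U z) = W (mv p c z) := by
  have h0b : (0 : V m) ∈ ball (0 : V m) 1 := mem_ball_self one_pos
  obtain ⟨b, hb⟩ : ∃ b : V m, b = θ' 0 := ⟨_, rfl⟩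
  have hbb : b ∈ ball (0 : V m) 1 := by rw [hb]; exact h.m2 h0b
  have hθb : θ b = 0 := by rw [hb]; exact h.i2 0 h0b
  obtain ⟨u, hu, hbu⟩ : ∃ u : V m, ‖u‖ = 1 ∧ b = ((‖b‖ : ℝ) : ℂ) • u := by
    rcases eq_or_ne b 0 with hb0 | hb0
    · exact ⟨p, hp, by rw [hb0]; simp⟩
    · have hnb : ‖b‖ ≠ 0 := norm_ne_zero_iff.2 hb0
      have hnbc : ((‖b‖ : ℝ) : ℂ) ≠ 0 := by exact_mod_cast hnb
      refine ⟨((‖b‖ : ℝ) : ℂ)⁻¹ • b, ?_, ?_⟩
      · rw [norm_smul, norm_inv, Complex.norm_real, norm_norm, inv_mul_cancel₀ hnb]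
      · rw [smul_smul, mul_inv_cancel₀ hnbc, one_smul]
  rw [mem_ball_zero_iff] at hbb
  obtain ⟨U, hU⟩ := exists_unitary hp hu
  have ht : ((‖b‖ : ℝ) : ℂ) ∈ ball (0 : ℂ) 1 := by
    rw [mem_ball_zero_iff, Complex.norm_real, norm_norm]; exact hbb
  have A := aut_mv hmv hp ht
  have A2 := (h.comp (aut_unitary U)).comp A
  obtain ⟨W, hW⟩ := cartan A2 (by
    change θ (U (mv p ((‖b‖ : ℝ) : ℂ) 0)) = 0
    rw [mv_zero_arg, map_smul, hU, ← hbu, hθb])
  refine ⟨U, W, -((‖b‖ : ℝ) : ℂ), by simpa using ht, fun z hz => ?_⟩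
  have h1 := hW _ (A.m2 hz)
  rw [A.i2 z hz] at h1
  exact h1

/-- equi-Lipschitz property -/
theorem mv_lip {p : V m} (hp : ‖p‖ = 1) {a c : ℂ} (ha : ‖a‖ < 1) (hc : ‖c‖ < 1) {z w : V m}
    (hz : ‖z‖ ≤ 1) (hw : ‖w‖ ≤ 1) (hz2 : ‖(inner ℂ p z : ℂ)‖ ≤ 1 / 2)
    (hw2 : ‖(inner ℂ p w : ℂ)‖ ≤ 1 / 2) :
    ‖mv p c (mv p a z) - mv p c (mv p a w)‖ ≤ 10 * ‖z - w‖ := by
  -- explicit formula
  obtain ⟨s, hs⟩ : ∃ s : ℝ, s = √(1 - ‖c‖ ^ 2) * √(1 - ‖a‖ ^ 2) := ⟨_, rfl⟩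
  obtain ⟨e, he⟩ : ∃ e : ℂ, e = 1 + starRingEnd ℂ c * a := ⟨_, rfl⟩
  obtain ⟨d, hd⟩ : ∃ d : ℂ, d = a + c := ⟨_, rfl⟩
  have hac : ‖starRingEnd ℂ c * a‖ < 1 := by
    rw [norm_mul, RCLike.norm_conj]
    nlinarith [norm_nonneg a, norm_nonneg c]
  have he2 : ‖e‖ ^ 2 - ‖d‖ ^ 2 = (1 - ‖c‖ ^ 2) * (1 - ‖a‖ ^ 2) := by
    rw [he, hd]; exact Pool.Agent.W721.Cor.Mv.lemA c a
  have ha2 : 0 < 1 - ‖a‖ ^ 2 := by nlinarith [norm_nonneg a]
  have hc2 : 0 < 1 - ‖c‖ ^ 2 := by nlinarith [norm_nonneg c]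
  have hs0 : 0 ≤ s := by rw [hs]; positivity
  have hs2 : s ^ 2 = ‖e‖ ^ 2 - ‖d‖ ^ 2 := by
    rw [he2, hs, mul_pow, Real.sq_sqrt hc2.le, Real.sq_sqrt ha2.le]
  have hepos : 0 < ‖e‖ := by
    have h1 : 0 < ‖e‖ ^ 2 := by nlinarith [mul_pos hc2 ha2, sq_nonneg ‖d‖]
    by_contra hcon
    push Not at hcon
    have : ‖e‖ = 0 := le_antisymm hcon (norm_nonneg _)
    rw [this] at h1
    norm_num at h1
  have hse : s ≤ ‖e‖ := by
    refine (sq_le_sq₀ hs0 (norm_nonneg _)).1 ?_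
    rw [hs2]; nlinarith [sq_nonneg ‖d‖]
  have hde : ‖d‖ ≤ ‖e‖ := by
    refine (sq_le_sq₀ (norm_nonneg _) (norm_nonneg _)).1 ?_
    nlinarith [sq_nonneg s]
  obtain ⟨D, hD⟩ : ∃ D : V m → ℂ, D = fun y => e + starRingEnd ℂ d * inner ℂ p y := ⟨_, rfl⟩
  have hDlow : ∀ y : V m, ‖(inner ℂ p y : ℂ)‖ ≤ 1 / 2 → ‖e‖ / 2 ≤ ‖D y‖ := by
    intro y hy
    rw [hD]
    have h1 : ‖starRingEnd ℂ d * (inner ℂ p y : ℂ)‖ ≤ ‖e‖ * (1 / 2) := by
      rw [norm_mul, RCLike.norm_conj]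
      gcongr
    have h2 := norm_sub_norm_le e (-(starRingEnd ℂ d * (inner ℂ p y : ℂ)))
    rw [norm_neg, sub_neg_eq_add] at h2
    simp only
    linarith
  have hform : ∀ y : V m, ‖y‖ ≤ 1 → ‖(inner ℂ p y : ℂ)‖ ≤ 1 / 2 → mv p c (mv p a y) =
      (((1 + c * starRingEnd ℂ a) * (inner ℂ p y : ℂ) + d) / D y) • p +
        ((s : ℂ) / D y) • (y - (inner ℂ p y : ℂ) • p) := by
    intro y hy hy2
    have hx1 : ‖(inner ℂ p y : ℂ)‖ < 1 := by linarith
    have hden1 : 1 + starRingEnd ℂ a * (inner ℂ p y : ℂ) ≠ 0 := den_ne ha hx1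
    have hDne : D y ≠ 0 := by
      rw [← norm_pos_iff]
      have := hDlow y hy2
      linarith
    have hDeq : (1 + starRingEnd ℂ c * (((inner ℂ p y : ℂ) + a) /
        (1 + starRingEnd ℂ a * inner ℂ p y))) = D y / (1 + starRingEnd ℂ a * inner ℂ p y) := by
      rw [eq_div_iff hden1, add_mul, mul_assoc (starRingEnd ℂ c), div_mul_cancel₀ _ hden1, hD, he, hd]
      simp only [map_add]
      ring
    have h1 := inner_mv hp c (mv p a y)
    have h2 := perp_mv hp c (mv p a y)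
    rw [inner_mv hp a y, hDeq] at h1 h2
    have h4 := perp_mv hp a y
    rw [inner_mv hp a y] at h4
    rw [h4] at h2
    have h3 : mv p c (mv p a y) = (inner ℂ p (mv p c (mv p a y)) : ℂ) • p +
      (mv p c (mv p a y) - (inner ℂ p (mv p c (mv p a y)) : ℂ) • p) := by module
    rw [h3, h2, h1, smul_smul]
    have h5 : ((inner ℂ p y : ℂ) + a) / (1 + starRingEnd ℂ a * inner ℂ p y) + c =
        ((1 + c * starRingEnd ℂ a) * (inner ℂ p y : ℂ) + d) /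
          (1 + starRingEnd ℂ a * inner ℂ p y) := by
      rw [eq_div_iff hden1, add_mul, div_mul_cancel₀ _ hden1, hd]
      ring
    congr 1
    · congr 1
      rw [h5, div_div_div_cancel_right₀ hden1]
    · congr 1
      rw [hs]
      push_cast
      field_simp
  rw [hform z hz hz2, hform w hw hw2]
  have hDz := hDlow z hz2
  have hDw := hDlow w hw2
  have hDz0 : D z ≠ 0 := by rw [← norm_pos_iff]; linarith
  have hDw0 : D w ≠ 0 := by rw [← norm_pos_iff]; linarith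
  obtain ⟨x, hx⟩ : ∃ x : ℂ, x = inner ℂ p z := ⟨_, rfl⟩
  obtain ⟨y, hy⟩ : ∃ y : ℂ, y = inner ℂ p w := ⟨_, rfl⟩
  rw [← hx, ← hy]
  have hDx : D z = e + starRingEnd ℂ d * x := by rw [hD, hx]
  have hDy : D w = e + starRingEnd ℂ d * y := by rw [hD, hy]
  have hxy : ‖x - y‖ ≤ ‖z - w‖ := by
    rw [hx, hy, ← inner_sub_right]
    calc ‖(inner ℂ p (z - w) : ℂ)‖ ≤ ‖p‖ * ‖z - w‖ := norm_inner_le_norm _ _
      _ = ‖z - w‖ := by rw [hp, one_mul]
  have hperp : ‖(z - x • p) - (w - y • p)‖ ≤ ‖z - w‖ := by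
    have h1 := norm_dec hp (z - w)
    have h2 : (z - w) - (inner ℂ p (z - w) : ℂ) • p = (z - x • p) - (w - y • p) := by
      rw [inner_sub_right, ← hx, ← hy]; module
    rw [h2] at h1
    refine (sq_le_sq₀ (norm_nonneg _) (norm_nonneg _)).1 ?_
    nlinarith [sq_nonneg ‖(inner ℂ p (z - w) : ℂ)‖]
  have hwp : ‖w - y • p‖ ≤ 1 := by
    have h1 := norm_dec hp w
    rw [← hy] at h1
    refine (sq_le_sq₀ (norm_nonneg _) zero_le_one).1 ?_
    nlinarith [sq_nonneg ‖y‖, norm_nonneg w]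
  -- the two parts
  have hdet : (1 + c * starRingEnd ℂ a) * e - d * starRingEnd ℂ d = ((s ^ 2 : ℝ) : ℂ) := by
    have h1 : starRingEnd ℂ e = 1 + c * starRingEnd ℂ a := by
      rw [he]; simp
    rw [← h1, mul_comm, Complex.mul_conj, Complex.mul_conj, Complex.normSq_eq_norm_sq,
      Complex.normSq_eq_norm_sq, hs2]
    push_cast
    ring
  have e1 : ((1 + c * starRingEnd ℂ a) * x + d) / D z - ((1 + c * starRingEnd ℂ a) * y + d) / D w =
      ((s ^ 2 : ℝ) : ℂ) * (x - y) / (D z * D w) := by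
    rw [div_sub_div _ _ hDz0 hDw0, ← hdet, hDx, hDy]
    congr 1
    ring
  have b1 : ‖((1 + c * starRingEnd ℂ a) * x + d) / D z -
      ((1 + c * starRingEnd ℂ a) * y + d) / D w‖ ≤ 4 * ‖z - w‖ := by
    rw [e1, norm_div, norm_mul, norm_mul, Complex.norm_real, Real.norm_of_nonneg (sq_nonneg s),
      div_le_iff₀ (by positivity)]
    have h1 : ‖e‖ / 2 * (‖e‖ / 2) ≤ ‖D z‖ * ‖D w‖ := by gcongr
    have h2 : s ^ 2 ≤ ‖e‖ ^ 2 := by rw [hs2]; nlinarith [sq_nonneg ‖d‖]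
    calc s ^ 2 * ‖x - y‖ ≤ ‖e‖ ^ 2 * ‖z - w‖ := by gcongr
      _ = 4 * ‖z - w‖ * (‖e‖ / 2 * (‖e‖ / 2)) := by ring
      _ ≤ 4 * ‖z - w‖ * (‖D z‖ * ‖D w‖) := by gcongr
  have e2 : ((s : ℂ) / D z) • (z - x • p) - ((s : ℂ) / D w) • (w - y • p) =
      ((s : ℂ) / D z) • ((z - x • p) - (w - y • p)) +
        ((s : ℂ) * (starRingEnd ℂ d * (y - x)) / (D z * D w)) • (w - y • p) := by
    have h1 : (s : ℂ) * (starRingEnd ℂ d * (y - x)) / (D z * D w) = (s : ℂ) / D z - (s : ℂ) / D w := by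
      rw [div_sub_div _ _ hDz0 hDw0]
      congr 1
      rw [hDx, hDy]
      ring
    rw [h1]
    module
  have b2 : ‖((s : ℂ) / D z) • (z - x • p) - ((s : ℂ) / D w) • (w - y • p)‖ ≤ 6 * ‖z - w‖ := by
    rw [e2]
    refine (norm_add_le _ _).trans ?_
    rw [norm_smul, norm_smul, norm_div, norm_div, norm_mul, norm_mul, norm_mul, RCLike.norm_conj,
      Complex.norm_real, Real.norm_of_nonneg hs0]
    have hDzp : 0 < ‖D z‖ := norm_pos_iff.2 hDz0
    have hDwp : 0 < ‖D w‖ := norm_pos_iff.2 hDw0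
    have h1 : s / ‖D z‖ ≤ 2 := by
      rw [div_le_iff₀ hDzp]; linarith
    have h2 : s * (‖d‖ * ‖y - x‖) / (‖D z‖ * ‖D w‖) ≤ 4 * ‖z - w‖ := by
      rw [div_le_iff₀ (by positivity)]
      have h3 : ‖e‖ / 2 * (‖e‖ / 2) ≤ ‖D z‖ * ‖D w‖ := by gcongr
      rw [norm_sub_rev] at hxy
      calc s * (‖d‖ * ‖y - x‖) ≤ ‖e‖ * (‖e‖ * ‖z - w‖) := by gcongr
        _ = 4 * ‖z - w‖ * (‖e‖ / 2 * (‖e‖ / 2)) := by ring
        _ ≤ 4 * ‖z - w‖ * (‖D z‖ * ‖D w‖) := by gcongr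
    calc s / ‖D z‖ * ‖z - x • p - (w - y • p)‖ +
          s * (‖d‖ * ‖y - x‖) / (‖D z‖ * ‖D w‖) * ‖w - y • p‖
        ≤ 2 * ‖z - w‖ + (4 * ‖z - w‖) * 1 := by gcongr
      _ = 6 * ‖z - w‖ := by ring
  have e3 : (((1 + c * starRingEnd ℂ a) * x + d) / D z) • p + ((s : ℂ) / D z) • (z - x • p) -
      ((((1 + c * starRingEnd ℂ a) * y + d) / D w) • p + ((s : ℂ) / D w) • (w - y • p)) =
      (((1 + c * starRingEnd ℂ a) * x + d) / D z -
        ((1 + c * starRingEnd ℂ a) * y + d) / D w) • p +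
      (((s : ℂ) / D z) • (z - x • p) - ((s : ℂ) / D w) • (w - y • p)) := by module
  rw [e3]
  refine (norm_add_le _ _).trans ?_
  rw [norm_smul, hp, mul_one]
  linarith

/-- the universal modulus -/
noncomputable def r0 (_ : V m) (ε : ℝ) : ℝ := min (1 / 2) (ε / 10)

theorem r0_pos (q : V m) {ε : ℝ} (hε : 0 < ε) : 0 < r0 q ε := by
  unfold r0
  positivity

theorem scr_Lo (hmv : S_mv) {p : V m} (hp : ‖p‖ = 1) {x : V m} (hx : ‖x‖ = 1)
    (W : V m ≃ₗᵢ[ℂ] V m) {c : ℂ} (hc : c ∈ ball (0 : ℂ) 1) :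
    SCr p r0 (fun z => Lo x (W (mv p c z))) := by
  intro q hq hpq ε hε a ha z hz w hw hzq hwq
  rw [mem_ball_zero_iff] at hc ha hz hw
  unfold r0 at hzq hwq
  have h1 : ∀ y : V m, ‖y - q‖ < min (1 / 2) (ε / 10) → ‖(inner ℂ p y : ℂ)‖ ≤ 1 / 2 := by
    intro y hy
    have h2 : (inner ℂ p y : ℂ) = inner ℂ p (y - q) := by rw [inner_sub_right, hpq, sub_zero]
    rw [h2]
    calc ‖(inner ℂ p (y - q) : ℂ)‖ ≤ ‖p‖ * ‖y - q‖ := norm_inner_le_norm _ _
      _ = ‖y - q‖ := by rw [hp, one_mul]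
      _ ≤ 1 / 2 := (hy.trans_le (min_le_left _ _)).le
  have h3 := mv_lip hp ha hc hz.le hw.le (h1 z hzq) (h1 w hwq)
  have h4 : ‖z - w‖ ≤ ε / 5 := by
    have h5 : z - w = (z - q) - (w - q) := by module
    rw [h5]
    have h6 := norm_sub_le (z - q) (w - q)
    have h7 := hzq.trans_le (min_le_right _ _)
    have h8 := hwq.trans_le (min_le_right _ _)
    linarith
  have h5 : Lo x (W (mv p c (mv p a z))) - Lo x (W (mv p c (mv p a w))) =
      -(inner ℂ x (W (mv p c (mv p a z) - mv p c (mv p a w))) : ℂ) / 2 := by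
    unfold Lo
    rw [map_sub, inner_sub_right]
    ring
  change ‖Lo x (W (mv p c (mv p a z))) - Lo x (W (mv p c (mv p a w)))‖ ≤ ε
  rw [h5, norm_div, norm_neg]
  have h6 : ‖(inner ℂ x (W (mv p c (mv p a z) - mv p c (mv p a w))) : ℂ)‖ ≤ 10 * ‖z - w‖ := by
    refine (norm_inner_le_norm _ _).trans ?_
    rw [hx, one_mul, W.norm_map]
    exact h3
  have h7 : ‖(2 : ℂ)‖ = 2 := by norm_num
  rw [h7]
  linarith

end Pool.Agent.TH310.Cor
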