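import Mathlib
import Pool.Agent.TH310.Cor.AutK

/-!
The induction over the number of geodesics.
-/

set_option autoImplicit false

open Metric Set Filter Topology

namespace Pool.Agent.TH310.Cor

open Pool.Agent.W732.Cor (mv S_mv S_ball S_uni)

variable {m : ℕ}

theorem SCr.congr {p : V m} {r : V m → ℝ → ℝ} {f g : V m → ℂ} (hmv : S_mv) (hp : ‖p‖ = 1)
    (h : SCr p r f) (hfg : ∀ z ∈ ball (0 : V m) 1, g z = f z) : SCr p r g := by
  intro q hq hpq ε hε a ha z hz w hw hzq hwq
  have A := aut_mv hmv hp ha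
  rw [hfg _ (A.m1 hz), hfg _ (A.m1 hw)]
  exact h q hq hpq ε hε a ha z hz w hw hzq hwq

/-- `k` families of `N` functions, each scaled continuous along some geodesic -/
structure Fams (p : V m) (r : V m → ℝ → ℝ) {k N : ℕ} (F : Fin k → Fin N → V m → ℂ) : Prop where
  hb : ∀ s j, HB (F s j)
  sc : ∀ s, ∃ ψ φ : V m → V m, Aut ψ φ ∧ ∀ j, SCr p r (fun z => F s j (φ z))

theorem Fams.comp {p : V m} {r : V m → ℝ → ℝ} (hmv : S_mv) (hp : ‖p‖ = 1) {k N : ℕ}
    {F : Fin k → Fin N → V m → ℂ} (h : Fams p r F) {θ θ' : V m → V m} (A : Aut θ θ') :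
    Fams p r (fun s j z => F s j (θ z)) where
  hb := fun s j => (h.hb s j).comp A
  sc := fun s => by
    obtain ⟨ψ, φ, hψ, hs⟩ := h.sc s
    refine ⟨fun z => ψ (θ z), fun z => θ' (φ z), hψ.comp A, fun j => ?_⟩
    refine (hs j).congr hmv hp (fun z hz => ?_)
    change F s j (θ (θ' (φ z))) = F s j (φ z)
    rw [A.i2 _ (hψ.m2 hz)]

/-- families, one arbitrary function, and one localising function -/
noncomputable def Data {I : Type} {k N : ℕ} (F : I → Fin k → Fin N → V m → ℂ) (G : I → V m → ℂ) (q : V m)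
    (i : I) (o : (Fin k × Fin N) ⊕ Bool) (z : V m) : ℂ :=
  o.elim (fun x => F i x.1 x.2 z) (fun b => if b then G i z else Lo q z)

theorem indT (hmv : S_mv) (hball : S_ball) (huni : S_uni) {p : V m} (hp : ‖p‖ = 1)
    (r : V m → ℝ → ℝ) (hr : ∀ q ε, 0 < ε → 0 < r q ε) (N k : ℕ) :
    ∀ (I : Type) (F : I → Fin k → Fin N → V m → ℂ) (G : I → V m → ℂ) (q : V m) (δ : ℝ),
      (∀ i, Fams p r (F i)) → (∀ i, HB (G i)) → ‖q‖ = 1 → 0 < δ →
      (∀ i, ∀ z ∈ ball (0 : V m) 1, δ ≤ ∑ s, ∑ j, ‖F i s j z‖ + ‖G i z‖ + ‖Lo q z‖) →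
      Solv (Data F G q) := by
  induction k with
  | zero =>
    intro I F G q δ _ hG hq hδ hlow
    obtain ⟨C, hC⟩ := huni m q hq 1 δ hδ r0 (fun q ε hε => r0_pos q hε)
    refine Solv.mono (F := fun i (b : Bool) z => if b then G i z else Lo q z) Sum.inr
      (fun i j z _ => rfl) ?_
    refine ⟨max C 0, fun i => ?_⟩
    obtain ⟨g, g0, hg, hg0, hgb, hg0b, hid⟩ := hC (fun _ => Lo q) (G i) (fun _ => (HB_Lo hq).1)
      (hG i).1 (fun _ => (HB_Lo hq).2) (hG i).2 (fun z hz => by
        have h1 := hlow i z hz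
        simp only [Finset.univ_eq_empty, Finset.sum_empty, zero_add] at h1
        simp only [Finset.univ_unique, Finset.sum_const, Finset.card_singleton, one_smul]
        linarith) (fun _ => by
        have h1 := scr_Lo hmv hq hq (LinearIsometryEquiv.refl ℂ (V m))
          (c := 0) (mem_ball_self one_pos)
        have h2 : SCr q r0 (Lo q) := by
          refine h1.congr hmv hq (fun z _ => ?_)
          change Lo q z = Lo q (mv q 0 z)
          rw [mv_zero]
        exact h2)
    refine ⟨fun b => if b then g0 else g 0, ?_, ?_, ?_⟩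
    · intro b
      cases b
      · exact hg 0
      · exact hg0
    · intro b z hz
      cases b
      · exact (hgb 0 z hz).trans (le_max_left _ _)
      · exact (hg0b z hz).trans (le_max_left _ _)
    · intro z hz
      have h1 := hid z hz
      rw [Fintype.sum_bool]
      simp only [Finset.univ_unique, Finset.sum_singleton, Fin.default_eq_zero] at h1
      simp only [if_true, Bool.false_eq_true, if_false]
      rw [← h1]; ring
  | succ k ih =>
    intro I F G q δ hF hG hq hδ hlow
    by_contra hns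
    -- first step: the geodesic of the family `0`
    choose ψ φ hψ hsc using fun i => (hF i).sc 0
    obtain ⟨A, hAdef⟩ : ∃ A : I → ((Fin k × Fin N) ⊕ Bool) → V m → ℂ,
      A = Data (fun i s => F i s.succ) G q := ⟨_, rfl⟩
    have hA : ∀ i o, HB (A i o) := by
      intro i o
      rw [hAdef]
      rcases o with x | b
      · exact (hF i).hb _ _
      · cases b
        · exact HB_Lo hq
        · exact hG i
    have hAsum : ∀ i z, ∑ o, ‖A i o z‖ =
        ∑ s : Fin k, ∑ j, ‖F i s.succ j z‖ + (‖G i z‖ + ‖Lo q z‖) := by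
      intro i z
      rw [hAdef, Fintype.sum_sum_type, Fintype.sum_prod_type, Fintype.sum_bool]
      rfl
    obtain ⟨J, n, θ, θ', q', δ', hδ', hq', hθ, hlow', hns'⟩ := step hmv hball hp (A := A)
      (B := fun i j => F i 0 j) hA (fun i j => (hF i).hb 0 j) ψ φ hψ r hr hsc hδ (by
        intro i z hz
        rw [hAsum]
        have h1 := hlow i z hz
        rw [Fin.sum_univ_succ] at h1
        linarith) (by
        intro h
        apply hns
        refine Solv.mono (fun o => o.elim (fun x => x.elim (fun y => Sum.inl (y.1.succ, y.2))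
          (fun b => Sum.inr b)) (fun j => Sum.inl (0, j))) ?_ h
        intro i o z _
        rcases o with (x | b) | j
        · simp only [Sum.elim_inl]
          rw [hAdef]; rfl
        · simp only [Sum.elim_inl, Sum.elim_inr]
          rw [hAdef]; rfl
        · rfl)
    -- second step: the geodesic of the localising functions
    choose U W c hc hUW using fun l => decomp hmv hp (hθ l)
    obtain ⟨A', hA'def⟩ : ∃ A' : J → ((Fin k × Fin N) ⊕ Unit) → V m → ℂ,
      A' = fun l o z => o.elim (fun x => F (n l) x.1.succ x.2 (θ l z)) (fun _ => G (n l) (θ l z)) :=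
      ⟨_, rfl⟩
    have hA' : ∀ l o, HB (A' l o) := by
      intro l o
      rw [hA'def]
      rcases o with x | b
      · exact ((hF (n l)).hb _ _).comp (hθ l)
      · exact (hG (n l)).comp (hθ l)
    have hA'sum : ∀ l z, ∑ o, ‖A' l o z‖ =
        ∑ s : Fin k, ∑ j, ‖F (n l) s.succ j (θ l z)‖ + ‖G (n l) (θ l z)‖ := by
      intro l z
      rw [hA'def, Fintype.sum_sum_type, Fintype.sum_prod_type]
      simp
    obtain ⟨J2, n2, θ2, θ2', q2, δ2, hδ2, hq2, hθ2, hlow2, hns2⟩ := step hmv hball hp (A := A')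
      (B := fun l (b : Bool) z => if b then Lo q (θ l z) else Lo q' z) hA' (by
        intro l b
        cases b
        · exact HB_Lo hq'
        · exact (HB_Lo hq).comp (hθ l)) (fun l => (U l).symm) (fun l => U l)
      (fun l => (aut_unitary (U l)).symm) r0 (fun q ε hε => r0_pos q hε) (by
        intro l b
        cases b
        · have h1 := scr_Lo hmv hp hq' (U l) (c := 0) (mem_ball_self one_pos)
          refine h1.congr hmv hp (fun z _ => ?_)
          change Lo q' (U l z) = Lo q' (U l (mv p 0 z))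
          rw [mv_zero]
        · have h1 := scr_Lo hmv hp hq (W l) (hc l)
          refine h1.congr hmv hp (fun z hz => ?_)
          change Lo q (θ l (U l z)) = Lo q (W l (mv p (c l) z))
          rw [hUW l z hz]) hδ' (by
        intro l z hz
        rw [hA'sum, Fintype.sum_bool]
        have h1 := hlow' l z hz
        rw [hAsum] at h1
        simp only [if_true, Bool.false_eq_true, if_false]
        linarith) (by
        intro h
        apply hns'
        refine Solv.mono (fun o => o.elim (fun x => x.elim (fun y => Sum.inl (Sum.inl y))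
          (fun _ => Sum.inl (Sum.inr true))) (fun b => if b then Sum.inl (Sum.inr false)
            else Sum.inr ())) ?_ h
        intro l o z _
        rcases o with (x | b) | b
        · simp only [Sum.elim_inl]
          rw [hAdef, hA'def]; rfl
        · simp only [Sum.elim_inl, Sum.elim_inr]
          rw [hAdef, hA'def]; rfl
        · cases b
          · rfl
          · simp only [Sum.elim_inr, if_true, Sum.elim_inl]
            rw [hAdef]; rfl)
    -- induction hypothesis
    apply hns2
    have h3 := ih J2 (fun l s j z => F (n (n2 l)) s.succ j (θ (n2 l) (θ2 l z)))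
      (fun l z => G (n (n2 l)) (θ (n2 l) (θ2 l z))) q2 δ2 (by
        intro l
        have h1 : Fams p r (fun (s : Fin k) j => F (n (n2 l)) s.succ j) :=
          ⟨fun s j => (hF _).hb _ _, fun s => (hF _).sc _⟩
        exact (h1.comp hmv hp (hθ (n2 l))).comp hmv hp (hθ2 l))
      (fun l => ((hG _).comp (hθ (n2 l))).comp (hθ2 l)) hq2 hδ2 (by
        intro l z hz
        have h1 := hlow2 l z hz
        rw [hA'sum] at h1
        exact h1)
    refine Solv.mono (fun o => o.elim (fun x => Sum.inl (Sum.inl x))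
      (fun b => if b then Sum.inl (Sum.inr ()) else Sum.inr ())) ?_ h3
    intro l o z _
    rcases o with x | b
    · simp only [Sum.elim_inl]
      rw [hA'def]; rfl
    · cases b
      · rfl
      · simp only [Sum.elim_inr, if_true, Sum.elim_inl]
        rw [hA'def]; rfl

/-- families and one arbitrary function -/
noncomputable def Data0 {I : Type} {k N : ℕ} (F : I → Fin k → Fin N → V m → ℂ) (G : I → V m → ℂ)
    (i : I) (o : (Fin k × Fin N) ⊕ Unit) (z : V m) : ℂ :=
  o.elim (fun x => F i x.1 x.2 z) (fun _ => G i z)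

theorem indQ (hmv : S_mv) (hball : S_ball) (huni : S_uni) {p : V m} (hp : ‖p‖ = 1)
    (r : V m → ℝ → ℝ) (hr : ∀ q ε, 0 < ε → 0 < r q ε) (N k : ℕ)
    (I : Type) (F : I → Fin k → Fin N → V m → ℂ) (G : I → V m → ℂ) (δ : ℝ)
    (hF : ∀ i, Fams p r (F i)) (hG : ∀ i, HB (G i)) (hδ : 0 < δ)
    (hlow : ∀ i, ∀ z ∈ ball (0 : V m) 1, δ ≤ ∑ s, ∑ j, ‖F i s j z‖ + ‖G i z‖) :
    Solv (Data0 F G) := by
  cases k with
  | zero =>
    have hlow' : ∀ i, ∀ z ∈ ball (0 : V m) 1, δ ≤ ‖G i z‖ := by
      intro i z hz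
      have h1 := hlow i z hz
      simpa using h1
    refine ⟨1 / δ, fun i => ⟨fun _ z => 1 / G i z, fun _ => ?_, fun _ z hz => ?_, fun z hz => ?_⟩⟩
    · have h1 : DifferentiableOn ℂ (fun z => (G i z)⁻¹) (ball 0 1) :=
        (hG i).1.inv (fun z hz => by
          rw [← norm_pos_iff]; exact hδ.trans_le (hlow' i z hz))
      simpa only [one_div] using h1
    · rw [norm_div, norm_one]
      exact one_div_le_one_div_of_le hδ (hlow' i z hz)
    · have h0 : G i z ≠ 0 := by
        rw [← norm_pos_iff]; exact hδ.trans_le (hlow' i z hz)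
      rw [Fintype.sum_sum_type]
      simp only [Data0, Finset.univ_eq_empty, Finset.sum_empty, zero_add,
        Finset.univ_unique, Finset.sum_singleton, Sum.elim_inr]
      rw [mul_one_div, div_self h0]
  | succ k =>
    by_contra hns
    choose ψ φ hψ hsc using fun i => (hF i).sc 0
    obtain ⟨A, hAdef⟩ : ∃ A : I → ((Fin k × Fin N) ⊕ Unit) → V m → ℂ,
      A = Data0 (fun i s => F i s.succ) G := ⟨_, rfl⟩
    have hA : ∀ i o, HB (A i o) := by
      intro i o
      rw [hAdef]
      rcases o with x | b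
      · exact (hF i).hb _ _
      · exact hG i
    have hAsum : ∀ i z, ∑ o, ‖A i o z‖ = ∑ s : Fin k, ∑ j, ‖F i s.succ j z‖ + ‖G i z‖ := by
      intro i z
      rw [hAdef, Fintype.sum_sum_type, Fintype.sum_prod_type]
      simp [Data0]
    obtain ⟨J, n, θ, θ', q', δ', hδ', hq', hθ, hlow', hns'⟩ := step hmv hball hp (A := A)
      (B := fun i j => F i 0 j) hA (fun i j => (hF i).hb 0 j) ψ φ hψ r hr hsc hδ (by
        intro i z hz
        rw [hAsum]
        have h1 := hlow i z hz
        rw [Fin.sum_univ_succ] at h1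
        linarith) (by
        intro h
        apply hns
        refine Solv.mono (fun o => o.elim (fun x => x.elim (fun y => Sum.inl (y.1.succ, y.2))
          (fun b => Sum.inr b)) (fun j => Sum.inl (0, j))) ?_ h
        intro i o z _
        rcases o with (x | b) | j
        · simp only [Sum.elim_inl]
          rw [hAdef]; rfl
        · simp only [Sum.elim_inl, Sum.elim_inr]
          rw [hAdef]; rfl
        · rfl)
    apply hns'
    have h3 := indT hmv hball huni hp r hr N k J (fun l s j z => F (n l) s.succ j (θ l z))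
      (fun l z => G (n l) (θ l z)) q' δ' (by
        intro l
        have h1 : Fams p r (fun (s : Fin k) j => F (n l) s.succ j) :=
          ⟨fun s j => (hF _).hb _ _, fun s => (hF _).sc _⟩
        exact h1.comp hmv hp (hθ l))
      (fun l => (hG _).comp (hθ l)) hq' hδ' (by
        intro l z hz
        have h1 := hlow' l z hz
        rw [hAsum] at h1
        exact h1)
    refine Solv.mono (fun o => o.elim (fun x => Sum.inl (Sum.inl x))
      (fun b => if b then Sum.inl (Sum.inr ()) else Sum.inr ())) ?_ h3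
    intro l o z _
    rcases o with x | b
    · simp only [Sum.elim_inl]
      rw [hAdef]; rfl
    · cases b
      · rfl
      · simp only [Sum.elim_inr, if_true, Sum.elim_inl]
        rw [hAdef]; rfl

/-- **Uniform corona theorem for `k` geodesics.** -/
theorem main (hmv : S_mv) (hball : S_ball) (huni : S_uni) {p : V m} (hp : ‖p‖ = 1)
    (r : V m → ℝ → ℝ) (hr : ∀ q ε, 0 < ε → 0 < r q ε) (N k : ℕ) {δ : ℝ} (hδ : 0 < δ) :
    ∃ C : ℝ, ∀ (F : Fin k → Fin N → V m → ℂ) (G : V m → ℂ), Fams p r F → HB G →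
      (∀ z ∈ ball (0 : V m) 1, δ ≤ ∑ s, ∑ j, ‖F s j z‖ + ‖G z‖) →
      ∃ (g : Fin k → Fin N → V m → ℂ) (g0 : V m → ℂ),
        (∀ s j, DifferentiableOn ℂ (g s j) (ball 0 1)) ∧ DifferentiableOn ℂ g0 (ball 0 1) ∧
        (∀ s j, ∀ z ∈ ball (0 : V m) 1, ‖g s j z‖ ≤ C) ∧ (∀ z ∈ ball (0 : V m) 1, ‖g0 z‖ ≤ C) ∧
        ∀ z ∈ ball (0 : V m) 1, ∑ s, ∑ j, F s j z * g s j z + G z * g0 z = 1 := by
  let I : Type := {x : (Fin k → Fin N → V m → ℂ) × (V m → ℂ) // Fams p r x.1 ∧ HB x.2 ∧
    ∀ z ∈ ball (0 : V m) 1, δ ≤ ∑ s, ∑ j, ‖x.1 s j z‖ + ‖x.2 z‖}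
  obtain ⟨C, hC⟩ := indQ hmv hball huni hp r hr N k I (fun i => i.1.1) (fun i => i.1.2) δ
    (fun i => i.2.1) (fun i => i.2.2.1) hδ (fun i => i.2.2.2)
  refine ⟨C, fun F G hF hG hlow => ?_⟩
  obtain ⟨g, hg, hgb, hid⟩ := hC ⟨(F, G), hF, hG, hlow⟩
  refine ⟨fun s j => g (Sum.inl (s, j)), g (Sum.inr ()), fun s j => hg _, hg _,
    fun s j => hgb _, hgb _, fun z hz => ?_⟩
  have h1 := hid z hz
  rw [Fintype.sum_sum_type, Fintype.sum_prod_type] at h1
  simpa [Data0] using h1

end Pool.Agent.TH310.Cor
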