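import Mathlib
import Pool.Agent.TH310.Cor.Ind

/-!
The closed algebra generated by the functions which are scaled continuous along a geodesic.
-/

set_option autoImplicit false

open Metric Set Filter Topology WeakDual

namespace Pool.Agent.TH310.Cor

open Pool.Agent.H326R3.CB (Bt)
open Pool.Agent.W732.Cor (mv S_mv S_ball S_uni SC)

variable {m : ℕ}

/-- bounded holomorphic functions on the ball -/
def BH (f : V m → ℂ) : Prop :=
  DifferentiableOn ℂ f (ball 0 1) ∧ ∃ M : ℝ, ∀ z ∈ ball (0 : V m) 1, ‖f z‖ ≤ M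

theorem BH.add {f g : V m → ℂ} (hf : BH f) (hg : BH g) : BH (f + g) := by
  obtain ⟨h1, M, hM⟩ := hf
  obtain ⟨h2, M', hM'⟩ := hg
  exact ⟨h1.add h2, M + M', fun z hz => (norm_add_le _ _).trans (add_le_add (hM z hz) (hM' z hz))⟩

theorem BH.mul {f g : V m → ℂ} (hf : BH f) (hg : BH g) : BH (f * g) := by
  obtain ⟨h1, M, hM⟩ := hf
  obtain ⟨h2, M', hM'⟩ := hg
  refine ⟨h1.mul h2, M * M', fun z hz => ?_⟩
  rw [Pi.mul_apply, norm_mul]
  exact mul_le_mul (hM z hz) (hM' z hz) (norm_nonneg _) ((norm_nonneg _).trans (hM z hz))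

theorem BH.const (c : ℂ) : BH (fun _ : V m => c) :=
  ⟨differentiableOn_const _, ‖c‖, fun _ _ => le_rfl⟩

theorem HB.bh {f : V m → ℂ} (h : HB f) : BH f := ⟨h.1, 1, h.2⟩

/-- the element of the algebra -/
noncomputable def el {f : V m → ℂ} (h : BH f) : HI Unit m :=
  mk (f := fun _ => f) (fun _ => h.1) (C := h.2.choose) (fun _ => h.2.choose_spec)

theorem el_apply {f : V m → ℂ} (h : BH f) (x : Unit × Bt m) : (el h).1 x = f x.2 := rfl

open Classical in
/-- the value of a character -/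
noncomputable def cv (χ : characterSpace ℂ (HI Unit m)) (f : V m → ℂ) : ℂ :=
  if h : BH f then χ (el h) else 0

theorem cv_eq (χ : characterSpace ℂ (HI Unit m)) {f : V m → ℂ} (h : BH f) : cv χ f = χ (el h) := by
  unfold cv
  rw [dif_pos h]

theorem cv_add (χ : characterSpace ℂ (HI Unit m)) {f g : V m → ℂ} (hf : BH f) (hg : BH g) :
    cv χ (f + g) = cv χ f + cv χ g := by
  rw [cv_eq χ hf, cv_eq χ hg, cv_eq χ (hf.add hg), ← map_add]
  congr 1

theorem cv_mul (χ : characterSpace ℂ (HI Unit m)) {f g : V m → ℂ} (hf : BH f) (hg : BH g) :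
    cv χ (f * g) = cv χ f * cv χ g := by
  rw [cv_eq χ hf, cv_eq χ hg, cv_eq χ (hf.mul hg), ← map_mul]
  congr 1

theorem cv_const (χ : characterSpace ℂ (HI Unit m)) (c : ℂ) : cv χ (fun _ : V m => c) = c := by
  rw [cv_eq χ (BH.const c)]
  have h1 : el (BH.const (m := m) c) = Cc c := ext' fun x => rfl
  rw [h1, char_Cc]

theorem cv_le (χ : characterSpace ℂ (HI Unit m)) (hp : ‖pt χ‖ = 1) {f g : V m → ℂ} (hf : BH f)
    (hg : BH g) {C : ℝ} (hC : 0 ≤ C)
    (h : ∀ᶠ z in 𝓝[ball 0 1] (pt χ), ‖f z - g z‖ ≤ C) : ‖cv χ f - cv χ g‖ ≤ C := by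
  rw [cv_eq χ hf, cv_eq χ hg, ← map_sub]
  rw [eventually_nhdsWithin_iff, Metric.eventually_nhds_iff] at h
  obtain ⟨ρ, hρ, h⟩ := h
  refine char_boundary χ hp _ hρ hC univ (by rw [Id_univ, map_one]) ?_
  intro k _ z hz
  exact h (y := (z : V m)) (by rw [dist_eq_norm]; exact hz) z.2

/-- the generators -/
def Gen (m : ℕ) : Set (V m → ℂ) :=
  {u | ∃ (p : V m) (ψ φ : V m → V m) (h : V m → ℂ), ‖p‖ = 1 ∧ Aut ψ φ ∧ BH h ∧ SC p h ∧
    ∀ z ∈ ball (0 : V m) 1, u z = h (ψ z)}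

theorem Gen.bh {u : V m → ℂ} (h : u ∈ Gen m) : BH u := by
  obtain ⟨p, ψ, φ, h, hp, hψ, ⟨hd, M, hM⟩, hs, he⟩ := h
  refine ⟨(hd.comp hψ.d1 hψ.m1).congr he, M, fun z hz => ?_⟩
  rw [he z hz]
  exact hM _ (hψ.m1 hz)

theorem adjoin_prop (χ : characterSpace ℂ (HI Unit m)) {g : V m → ℂ}
    (hg : g ∈ Algebra.adjoin ℂ (Gen m)) : BH g ∧ ∃ s : Finset (V m → ℂ), (∀ u ∈ s, u ∈ Gen m) ∧
      ∀ ε : ℝ, 0 < ε → ∃ η : ℝ, 0 < η ∧ ∀ z ∈ ball (0 : V m) 1,
        (∀ u ∈ s, ‖u z - cv χ u‖ ≤ η) → ‖g z - cv χ g‖ ≤ ε := by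
  classical
  induction hg using Algebra.adjoin_induction with
  | mem u hu =>
    refine ⟨Gen.bh hu, {u}, fun v hv => ?_, fun ε hε => ⟨ε, hε, fun z _ h => ?_⟩⟩
    · rw [Finset.mem_singleton] at hv; rw [hv]; exact hu
    · exact h u (Finset.mem_singleton_self u)
  | algebraMap c =>
    refine ⟨BH.const c, ∅, fun v hv => ?_, fun ε hε => ⟨1, one_pos, fun z _ _ => ?_⟩⟩
    · simp at hv
    · have h1 : cv χ (algebraMap ℂ (V m → ℂ) c) = c := cv_const χ c
      rw [h1]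
      change ‖c - c‖ ≤ ε
      rw [sub_self, norm_zero]; exact hε.le
  | add f g _ _ ihf ihg =>
    obtain ⟨hf, s, hs, hsf⟩ := ihf
    obtain ⟨hg, t, ht, htg⟩ := ihg
    refine ⟨hf.add hg, s ∪ t, fun v hv => ?_, fun ε hε => ?_⟩
    · rcases Finset.mem_union.1 hv with h | h
      · exact hs v h
      · exact ht v h
    · obtain ⟨η1, hη1, h1⟩ := hsf (ε / 2) (by positivity)
      obtain ⟨η2, hη2, h2⟩ := htg (ε / 2) (by positivity)
      refine ⟨min η1 η2, lt_min hη1 hη2, fun z hz hu => ?_⟩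
      have h3 := h1 z hz fun u hu' => (hu u (Finset.mem_union_left _ hu')).trans (min_le_left _ _)
      have h4 := h2 z hz fun u hu' => (hu u (Finset.mem_union_right _ hu')).trans (min_le_right _ _)
      rw [cv_add χ hf hg, Pi.add_apply]
      have h5 : f z + g z - (cv χ f + cv χ g) = (f z - cv χ f) + (g z - cv χ g) := by ring
      rw [h5]
      refine (norm_add_le _ _).trans ?_
      linarith
  | mul f g _ _ ihf ihg =>
    obtain ⟨hf, s, hs, hsf⟩ := ihf
    obtain ⟨hg, t, ht, htg⟩ := ihg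
    refine ⟨hf.mul hg, s ∪ t, fun v hv => ?_, fun ε hε => ?_⟩
    · rcases Finset.mem_union.1 hv with h | h
      · exact hs v h
      · exact ht v h
    · obtain ⟨hfd, M, hM⟩ := hf
      obtain ⟨K, hK⟩ : ∃ K : ℝ, K = |M| + ‖cv χ g‖ + 1 := ⟨_, rfl⟩
      have hK0 : 0 < K := by rw [hK]; positivity
      obtain ⟨η1, hη1, h1⟩ := hsf (ε / (2 * K)) (by positivity)
      obtain ⟨η2, hη2, h2⟩ := htg (ε / (2 * K)) (by positivity)
      refine ⟨min η1 η2, lt_min hη1 hη2, fun z hz hu => ?_⟩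
      have h3 := h1 z hz fun u hu' => (hu u (Finset.mem_union_left _ hu')).trans (min_le_left _ _)
      have h4 := h2 z hz fun u hu' => (hu u (Finset.mem_union_right _ hu')).trans (min_le_right _ _)
      rw [cv_mul χ ⟨hfd, M, hM⟩ hg, Pi.mul_apply]
      have h5 : f z * g z - cv χ f * cv χ g =
        f z * (g z - cv χ g) + cv χ g * (f z - cv χ f) := by ring
      rw [h5]
      refine (norm_add_le _ _).trans ?_
      rw [norm_mul, norm_mul]
      have h6 : ‖f z‖ ≤ K := by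
        have := hM z hz
        have h7 := le_abs_self M
        have h8 := norm_nonneg (cv χ g)
        rw [hK]; linarith
      have h7 : ‖cv χ g‖ ≤ K := by
        have h8 := abs_nonneg M
        rw [hK]; linarith
      calc ‖f z‖ * ‖g z - cv χ g‖ + ‖cv χ g‖ * ‖f z - cv χ f‖
          ≤ K * (ε / (2 * K)) + K * (ε / (2 * K)) := by gcongr
        _ = ε := by field_simp; ring

theorem common_modulus {K : ℕ} (p : V m) (f : Fin K → V m → ℂ) (h : ∀ l, SC p (f l)) :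
    ∃ r : V m → ℝ → ℝ, (∀ q ε, 0 < ε → 0 < r q ε) ∧ ∀ l, SCr p r (f l) := by
  classical
  have hrad : ∀ (q : V m) (ε : ℝ), ∃ r : ℝ, 0 < r ∧
      (‖q‖ = 1 → (inner ℂ p q : ℂ) = 0 → 0 < ε → ∀ l,
        ∀ a ∈ ball (0 : ℂ) 1, ∀ z ∈ ball (0 : V m) 1, ∀ w ∈ ball (0 : V m) 1,
          ‖z - q‖ < r → ‖w - q‖ < r → ‖f l (mv p a z) - f l (mv p a w)‖ ≤ ε) := by
    intro q ε
    by_cases hq : ‖q‖ = 1 ∧ (inner ℂ p q : ℂ) = 0 ∧ 0 < ε
    · obtain ⟨hq1, hq2, hε⟩ := hq
      choose r hr hr2 using fun l => h l q hq1 hq2 ε hε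
      have hne : (insert (1 : ℝ) (Finset.univ.image r)).Nonempty := ⟨1, Finset.mem_insert_self _ _⟩
      refine ⟨(insert (1 : ℝ) (Finset.univ.image r)).min' hne, ?_, ?_⟩
      · have h1 := Finset.min'_mem _ hne
        rcases Finset.mem_insert.1 h1 with h2 | h2
        · rw [h2]; exact one_pos
        · obtain ⟨l, -, hl⟩ := Finset.mem_image.1 h2
          rw [← hl]; exact hr l
      · intro _ _ _ l a ha z hz w hw h1 h2
        have h3 : (insert (1 : ℝ) (Finset.univ.image r)).min' hne ≤ r l :=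
          Finset.min'_le _ _ (Finset.mem_insert_of_mem (Finset.mem_image_of_mem r (Finset.mem_univ l)))
        exact hr2 l a ha z hz w hw (h1.trans_le h3) (h2.trans_le h3)
    · exact ⟨1, one_pos, fun h1 h2 h3 => absurd ⟨h1, h2, h3⟩ hq⟩
  choose r hr hr2 using hrad
  exact ⟨r, fun q ε _ => hr q ε, fun l q hq hpq ε hε a ha z hz w hw hzq hwq =>
    hr2 q ε hq hpq hε l a ha z hz w hw hzq hwq⟩

theorem gen_transport (hmv : S_mv) {p : V m} (hp : ‖p‖ = 1) {u : V m → ℂ} (hu : u ∈ Gen m) (c : ℂ)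
    {M : ℝ} (hM : 0 < M) :
    ∃ ψ φ : V m → V m, Aut ψ φ ∧ SC p (fun z => (u (φ z) - c) / (M : ℂ)) := by
  obtain ⟨x, ψ, φ, h, hx, hψ, hb, hs, he⟩ := hu
  obtain ⟨U, hU⟩ := exists_unitary hp hx
  refine ⟨fun z => U.symm (ψ z), fun z => φ (U z), (aut_unitary U).symm.comp hψ, ?_⟩
  intro q hq hpq ε hε
  obtain ⟨r, hr, h1⟩ := hs (U q) (by rw [U.norm_map, hq]) (by rw [← hU, U.inner_map_map, hpq])
    (ε * M) (by positivity)
  refine ⟨r, hr, fun a ha z hz w hw hzq hwq => ?_⟩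
  have A := aut_mv hmv hp ha
  have AU := aut_unitary U
  have h2 : ∀ y ∈ ball (0 : V m) 1, u (φ (U (mv p a y))) = h (mv x a (U y)) := by
    intro y hy
    rw [he _ (hψ.m2 (AU.m1 (A.m1 hy))), hψ.i2 _ (AU.m1 (A.m1 hy)), ← hU, mv_unitary]
  simp only
  rw [h2 z hz, h2 w hw, ← sub_div, norm_div, Complex.norm_real, Real.norm_of_nonneg hM.le,
    div_le_iff₀ hM, sub_sub_sub_cancel_right]
  refine h1 a ha _ (AU.m1 hz) _ (AU.m1 hw) ?_ ?_
  · rw [← map_sub, U.norm_map]; exact hzq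
  · rw [← map_sub, U.norm_map]; exact hwq

theorem Lo_gen (hmv : S_mv) {q : V m} (hq : ‖q‖ = 1) : Lo q ∈ Gen m := by
  refine ⟨q, fun z => z, fun z => z, Lo q, hq, ⟨differentiableOn_id, differentiableOn_id,
    fun z hz => hz, fun z hz => hz, fun z _ => rfl, fun z _ => rfl⟩, (HB_Lo hq).bh, ?_,
    fun z _ => rfl⟩
  have h1 := scr_Lo hmv hq hq (LinearIsometryEquiv.refl ℂ (V m)) (c := 0) (mem_ball_self one_pos)
  have h2 : SCr q r0 (Lo q) := by
    refine h1.congr hmv hq (fun z _ => ?_)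
    change Lo q z = Lo q (mv q 0 z)
    rw [mv_zero]
  intro q' hq' hpq ε hε
  exact ⟨r0 q' ε, r0_pos q' hε, fun a ha z hz w hw h3 h4 => h2 q' hq' hpq ε hε a ha z hz w hw h3 h4⟩

/-- the uniform closure on the ball of the algebra generated by `Gen` -/
def Cl (m : ℕ) : Set (V m → ℂ) :=
  {f | ∀ ε : ℝ, 0 < ε → ∃ g ∈ Algebra.adjoin ℂ (Gen m), ∀ z ∈ ball (0 : V m) 1, ‖f z - g z‖ ≤ ε}

theorem closed (hmv : S_mv) (hball : S_ball) (huni : S_uni) {N : ℕ} (f : Fin N → V m → ℂ)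
    (hf : ∀ j, BH (f j)) (h0 : ∀ z ∈ ball (0 : V m) 1, ∃ j, f j z ≠ 0)
    (hloc : ∀ p : V m, ‖p‖ = 1 → ∃ (k : Fin N) (S : Finset (Fin N)) (c η : ℝ), 0 ≤ η ∧
      2 * S.card * η < c ∧ (∀ᶠ z in 𝓝[ball 0 1] p, c ≤ ‖f k z‖ + ∑ j ∈ S, ‖f j z‖) ∧
      ∀ j ∈ S, ∃ h ∈ Cl m, ∀ᶠ z in 𝓝[ball 0 1] p, ‖f j z - h z‖ ≤ η) :
    ∃ g : Fin N → V m → ℂ, (∀ j, DifferentiableOn ℂ (g j) (ball 0 1)) ∧
      (∃ C : ℝ, ∀ j, ∀ z ∈ ball (0 : V m) 1, ‖g j z‖ ≤ C) ∧
      ∀ z ∈ ball (0 : V m) 1, ∑ j, f j z * g j z = 1 := by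
  classical
  by_contra hcon
  choose hfd Mf hMf using hf
  obtain ⟨M, hM1, hM⟩ : ∃ M : ℝ, 1 ≤ M ∧ ∀ j, ∀ z ∈ ball (0 : V m) 1, ‖f j z‖ ≤ M := by
    refine ⟨1 + ∑ j, |Mf j|, ?_, fun j z hz => ?_⟩
    · have : 0 ≤ ∑ j, |Mf j| := Finset.sum_nonneg fun j _ => abs_nonneg _
      linarith
    · have h1 : |Mf j| ≤ ∑ j, |Mf j| :=
        Finset.single_le_sum (f := fun j => |Mf j|) (fun j _ => abs_nonneg _) (Finset.mem_univ j)
      linarith [hMf j z hz, le_abs_self (Mf j)]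
  have hM0 : 0 < M := by linarith
  have hMn : ‖(M : ℂ)‖ = M := by rw [Complex.norm_real, Real.norm_of_nonneg hM0.le]
  have hMc : (M : ℂ) ≠ 0 := by exact_mod_cast hM0.ne'
  have hf : ∀ j, BH (f j) := fun j => ⟨hfd j, M, hM j⟩
  have hF : ∀ (i : Unit) (j : Fin N), HB (fun z => f j z / (M : ℂ)) := by
    intro _ j
    refine ⟨?_, fun z hz => ?_⟩
    · have h1 := (hfd j).mul_const ((M : ℂ)⁻¹)
      simp only [← div_eq_mul_inv] at h1
      exact h1
    · rw [norm_div, hMn, div_le_one hM0]; exact hM j z hz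
  have hns : ¬ Solv (fun (_ : Unit) (j : Fin N) z => f j z / (M : ℂ)) := by
    rintro ⟨C, hC⟩
    obtain ⟨g, hg, hgb, hid⟩ := hC ()
    apply hcon
    refine ⟨fun j z => g j z / (M : ℂ), fun j => ?_, ⟨C / M, fun j z hz => ?_⟩, fun z hz => ?_⟩
    · have h1 := (hg j).mul_const ((M : ℂ)⁻¹)
      simp only [← div_eq_mul_inv] at h1
      exact h1
    · rw [norm_div, hMn]
      exact div_le_div_of_nonneg_right (hgb j z hz) hM0.le
    · rw [← hid z hz]
      refine Finset.sum_congr rfl fun j _ => ?_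
      ring
  obtain ⟨χ, hχ⟩ := exists_zero (I := Unit) hF hns
  have hχ0 : ∀ j, cv χ (f j) = 0 := by
    intro j
    rw [cv_eq χ (hf j)]
    have h1 : el (hf j) = Cc (M : ℂ) * El (f := fun (_ : Unit) z => f j z / (M : ℂ))
        (fun i => hF i j) := by
      apply ext'
      rintro ⟨i, z⟩
      change f j z = (M : ℂ) * (f j z / (M : ℂ))
      rw [mul_div_cancel₀ _ hMc]
    rw [h1, map_mul, hχ j, mul_zero]
  rcases lt_or_eq_of_le (pt_norm χ) with hp | hp
  · have hpt : pt χ ∈ ball (0 : V m) 1 := by rw [mem_ball_zero_iff]; exact hp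
    obtain ⟨j, hj⟩ := h0 _ hpt
    apply hj
    have h1 := char_interior χ hp (el (hf j))
    rw [← cv_eq, hχ0 j] at h1
    have h2 : (Ix m (c := fun k : Unit => (el (hf j)).1 (k, ⟨pt χ, by simpa using hp⟩))
        (C := ‖el (hf j)‖) (fun k => le_norm _ _)) = Cc (f j (pt χ)) := ext' fun x => rfl
    rw [h2, char_Cc] at h1
    exact h1.symm
  · obtain ⟨p, hpdef⟩ : ∃ p : V m, p = pt χ := ⟨_, rfl⟩
    rw [← hpdef] at hp
    obtain ⟨k, S, c, η, hη, hSη, hlow, hS⟩ := hloc p hp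
    obtain ⟨c', hc'⟩ : ∃ c' : ℝ, c' = c - 2 * S.card * η := ⟨_, rfl⟩
    have hc'0 : 0 < c' := by rw [hc']; linarith
    obtain ⟨ε, hε⟩ : ∃ ε : ℝ, ε = c' / (6 * (S.card + 1)) := ⟨_, rfl⟩
    have hε0 : 0 < ε := by rw [hε]; positivity
    have hSε : (S.card : ℝ) * (3 * ε) ≤ c' / 2 := by
      rw [hε]
      have h1 : (S.card : ℝ) * (3 * (c' / (6 * (S.card + 1)))) =
        (S.card / (S.card + 1)) * (c' / 2) := by field_simp; ring
      rw [h1]
      have h2 : (S.card : ℝ) / (S.card + 1) ≤ 1 := by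
        rw [div_le_one (by positivity)]; linarith
      nlinarith
    -- approximations
    have hap : ∀ j : Fin N, ∃ g : V m → ℂ, j ∈ S → (g ∈ Algebra.adjoin ℂ (Gen m) ∧
        ∀ᶠ z in 𝓝[ball 0 1] p, ‖f j z - g z‖ ≤ η + ε) := by
      intro j
      by_cases hj : j ∈ S
      · obtain ⟨h, hh, hh2⟩ := hS j hj
        obtain ⟨g, hg, hg2⟩ := hh ε hε0
        refine ⟨g, fun _ => ⟨hg, ?_⟩⟩
        filter_upwards [hh2, self_mem_nhdsWithin] with z hz hzb
        have h1 := norm_add_le (f j z - h z) (h z - g z)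
        rw [sub_add_sub_cancel] at h1
        linarith [hg2 z hzb]
      · exact ⟨0, fun h => absurd h hj⟩
    choose g hg using hap
    have hgp : ∀ j ∈ S, BH (g j) ∧ ∃ s : Finset (V m → ℂ), (∀ u ∈ s, u ∈ Gen m) ∧
        ∀ ε : ℝ, 0 < ε → ∃ η : ℝ, 0 < η ∧ ∀ z ∈ ball (0 : V m) 1,
          (∀ u ∈ s, ‖u z - cv χ u‖ ≤ η) → ‖g j z - cv χ (g j)‖ ≤ ε :=
      fun j hj => adjoin_prop χ (hg j hj).1
    have hcvg : ∀ j ∈ S, ‖cv χ (g j)‖ ≤ η + ε := by
      intro j hj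
      have h1 := cv_le χ (by rw [← hpdef]; exact hp) (hf j) (hgp j hj).1 (C := η + ε) (by linarith)
        (by rw [← hpdef]; exact (hg j hj).2)
      rw [hχ0 j, zero_sub, norm_neg] at h1
      exact h1
    -- finitely many generators
    have hs : ∀ j : Fin N, ∃ (s : Finset (V m → ℂ)) (η' : ℝ), (∀ u ∈ s, u ∈ Gen m) ∧ 0 < η' ∧
        (j ∈ S → ∀ z ∈ ball (0 : V m) 1, (∀ u ∈ s, ‖u z - cv χ u‖ ≤ η') →
          ‖g j z - cv χ (g j)‖ ≤ ε) := by
      intro j
      by_cases hj : j ∈ S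
      · obtain ⟨-, s, hs1, hs2⟩ := hgp j hj
        obtain ⟨η', hη', h1⟩ := hs2 ε hε0
        exact ⟨s, η', hs1, hη', fun _ => h1⟩
      · exact ⟨∅, 1, by simp, one_pos, fun h => absurd h hj⟩
    choose s η' hs1 hη' hs2 using hs
    obtain ⟨η0, hη0, hη0'⟩ : ∃ η0 : ℝ, 0 < η0 ∧ ∀ j, η0 ≤ η' j := by
      have hne : (insert (1 : ℝ) (Finset.univ.image η')).Nonempty :=
        ⟨1, Finset.mem_insert_self _ _⟩
      refine ⟨(insert (1 : ℝ) (Finset.univ.image η')).min' hne, ?_, fun j =>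
        Finset.min'_le _ _ (Finset.mem_insert_of_mem (Finset.mem_image_of_mem η'
          (Finset.mem_univ j)))⟩
      have h1 := Finset.min'_mem _ hne
      rcases Finset.mem_insert.1 h1 with h2 | h2
      · rw [h2]; exact one_pos
      · obtain ⟨l, -, hl⟩ := Finset.mem_image.1 h2
        rw [← hl]; exact hη' l
    -- the radius
    obtain ⟨ρ, hρ, hρ2⟩ : ∃ ρ : ℝ, 0 < ρ ∧ ∀ z ∈ ball (0 : V m) 1, ‖z - p‖ < ρ →
        c ≤ ‖f k z‖ + ∑ j ∈ S, ‖f j z‖ ∧ ∀ j ∈ S, ‖f j z - g j z‖ ≤ η + ε := by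
      have h1 : ∀ᶠ z in 𝓝[ball 0 1] p, ∀ j, j ∈ S → ‖f j z - g j z‖ ≤ η + ε := by
        rw [eventually_all]
        intro j
        by_cases hj : j ∈ S
        · filter_upwards [(hg j hj).2] with z hz _
          exact hz
        · exact Eventually.of_forall fun z hz => absurd hz hj
      have h2 := hlow.and h1
      rw [eventually_nhdsWithin_iff, Metric.eventually_nhds_iff] at h2
      obtain ⟨ρ, hρ, h3⟩ := h2
      exact ⟨ρ, hρ, fun z hz hzp => h3 (by rw [dist_eq_norm]; exact hzp) hz⟩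
    -- the new data
    obtain ⟨T, hT⟩ : ∃ T : Finset (V m → ℂ), T = insert (Lo p) (Finset.univ.biUnion s) := ⟨_, rfl⟩
    have hTg : ∀ u ∈ T, u ∈ Gen m := by
      intro u hu
      rw [hT, Finset.mem_insert, Finset.mem_biUnion] at hu
      rcases hu with hu | ⟨j, -, hu⟩
      · rw [hu]; exact Lo_gen hmv hp
      · exact hs1 j u hu
    have hcvLo : cv χ (Lo p) = 0 := by
      rw [cv_eq χ (HB_Lo hp).bh]
      have h3 : el (HB_Lo hp).bh = (Cc (1/2) * (1 - Lw p) : HI Unit m) := by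
        apply ext'
        rintro ⟨x, z⟩
        change (1 - inner ℂ p (z : V m)) / 2 = (1/2 : ℂ) * (1 - inner ℂ p (z : V m))
        ring
      rw [h3, map_mul, char_Cc, map_sub, map_one, char_Lw, ← hpdef, inner_self_eq_norm_sq_to_K, hp]
      norm_num
    choose! Mu hMu using fun (u : V m → ℂ) (hu : u ∈ T) => (Gen.bh (hTg u hu)).2
    obtain ⟨M', hM'1, hM'⟩ : ∃ M' : ℝ, 1 ≤ M' ∧ ∀ u ∈ T, ∀ z ∈ ball (0 : V m) 1,
        ‖u z - cv χ u‖ ≤ M' := by
      refine ⟨1 + ∑ u ∈ T, (|Mu u| + ‖cv χ u‖), ?_, fun u hu z hz => ?_⟩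
      · have : 0 ≤ ∑ u ∈ T, (|Mu u| + ‖cv χ u‖) := Finset.sum_nonneg fun u _ => by positivity
        linarith
      · have h1 : |Mu u| + ‖cv χ u‖ ≤ ∑ u ∈ T, (|Mu u| + ‖cv χ u‖) :=
          Finset.single_le_sum (f := fun u => |Mu u| + ‖cv χ u‖) (fun u _ => by positivity) hu
        have h2 := norm_sub_le (u z) (cv χ u)
        have h3 := hMu u hu z hz
        have h4 := le_abs_self (Mu u)
        linarith
    have hM'0 : 0 < M' := by linarith
    have hM'n : ‖(M' : ℂ)‖ = M' := by rw [Complex.norm_real, Real.norm_of_nonneg hM'0.le]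
    have hM'c : (M' : ℂ) ≠ 0 := by exact_mod_cast hM'0.ne'
    let e := T.equivFin
    obtain ⟨u, hu⟩ : ∃ u : Fin T.card → V m → ℂ, u = fun l => ((e.symm l : T) : V m → ℂ) :=
      ⟨_, rfl⟩
    have huT : ∀ l, u l ∈ T := by
      intro l; rw [hu]; exact (e.symm l).2
    have huS : ∀ v ∈ T, ∃ l, u l = v := by
      intro v hv
      refine ⟨e ⟨v, hv⟩, ?_⟩
      rw [hu]; simp
    choose ψ φ hψ hsc using fun l => gen_transport hmv hp (hTg _ (huT l)) (cv χ (u l)) hM'0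
    obtain ⟨r, hr, hr2⟩ := common_modulus p _ hsc
    obtain ⟨δ, hδ⟩ : ∃ δ : ℝ, δ = min (min (η0 / M') (ρ ^ 2 / 8 / M')) (c' / 2 / M) := ⟨_, rfl⟩
    have hδ0 : 0 < δ := by rw [hδ]; positivity
    obtain ⟨C, hC⟩ := main hmv hball huni hp r hr 1 T.card hδ0
    have hHB : ∀ l, HB (fun z => (u l z - cv χ (u l)) / (M' : ℂ)) := by
      intro l
      have hBu := Gen.bh (hTg _ (huT l))
      refine ⟨?_, fun z hz => ?_⟩
      · have h1 := (hBu.1.sub_const (cv χ (u l))).mul_const ((M' : ℂ)⁻¹)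
        simp only [← div_eq_mul_inv] at h1
        exact h1
      · rw [norm_div, hM'n, div_le_one hM'0]
        exact hM' _ (huT l) z hz
    have hlow2 : ∀ z ∈ ball (0 : V m) 1, δ ≤ ∑ l : Fin T.card, ∑ _j : Fin 1,
        ‖(u l z - cv χ (u l)) / (M' : ℂ)‖ + ‖f k z / (M : ℂ)‖ := by
      intro z hz
      by_cases hall : (∀ v ∈ T, ‖v z - cv χ v‖ ≤ η0) ∧ ‖Lo p z‖ ≤ ρ ^ 2 / 8
      · obtain ⟨hall, hLo⟩ := hall
        have hzp : ‖z - p‖ < ρ := by
          by_contra h1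
          push Not at h1
          have h2 := Lo_ge hp hz hρ.le h1
          nlinarith [sq_pos_of_pos hρ]
        obtain ⟨h1, h2⟩ := hρ2 z hz hzp
        have h3 : ∀ j ∈ S, ‖f j z‖ ≤ 2 * η + 3 * ε := by
          intro j hj
          have h4 := h2 j hj
          have h5 := hs2 j hj z hz (fun v hv => (hall v (by
            rw [hT]
            exact Finset.mem_insert_of_mem (Finset.mem_biUnion.2 ⟨j, Finset.mem_univ j, hv⟩))).trans
            (hη0' j))
          have h6 := hcvg j hj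
          have h7 : f j z = (f j z - g j z) + (g j z - cv χ (g j)) + cv χ (g j) := by ring
          rw [h7]
          have h8 := norm_add₃_le (a := f j z - g j z) (b := g j z - cv χ (g j)) (c := cv χ (g j))
          linarith
        have h4 := Finset.sum_le_sum h3
        rw [Finset.sum_const, nsmul_eq_mul] at h4
        have h5 : c' / 2 ≤ ‖f k z‖ := by
          have : (S.card : ℝ) * (2 * η + 3 * ε) = 2 * S.card * η + S.card * (3 * ε) := by ring
          rw [this] at h4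
          rw [hc'] at hSε ⊢
          linarith
        have h6 : c' / 2 / M ≤ ‖f k z / (M : ℂ)‖ := by
          rw [norm_div, hMn]
          exact div_le_div_of_nonneg_right h5 hM0.le
        have h7 : 0 ≤ ∑ s : Fin T.card, ∑ _j : Fin 1, ‖(u s z - cv χ (u s)) / (M' : ℂ)‖ :=
          Finset.sum_nonneg fun s _ => Finset.sum_nonneg fun j _ => norm_nonneg _
        have h8 : δ ≤ c' / 2 / M := by rw [hδ]; exact min_le_right _ _
        linarith
      · have h1 : ∃ v ∈ T, min η0 (ρ ^ 2 / 8) ≤ ‖v z - cv χ v‖ := by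
          by_contra hno
          push Not at hno
          apply hall
          refine ⟨fun v hv => ((hno v hv).trans_le (min_le_left _ _)).le, ?_⟩
          have h2 := hno (Lo p) (by rw [hT]; exact Finset.mem_insert_self _ _)
          rw [hcvLo, sub_zero] at h2
          exact (h2.trans_le (min_le_right _ _)).le
        obtain ⟨v, hv, h1⟩ := h1
        obtain ⟨l, hl⟩ := huS v hv
        have h2 : min η0 (ρ ^ 2 / 8) / M' ≤ ‖(u l z - cv χ (u l)) / (M' : ℂ)‖ := by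
          rw [norm_div, hM'n, hl]
          exact div_le_div_of_nonneg_right h1 hM'0.le
        have h3 : ‖(u l z - cv χ (u l)) / (M' : ℂ)‖ ≤
            ∑ s : Fin T.card, ∑ _j : Fin 1, ‖(u s z - cv χ (u s)) / (M' : ℂ)‖ := by
          have h4 := Finset.single_le_sum
            (f := fun s : Fin T.card => ∑ _j : Fin 1, ‖(u s z - cv χ (u s)) / (M' : ℂ)‖)
            (fun s _ => Finset.sum_nonneg fun j _ => norm_nonneg _) (Finset.mem_univ l)
          simpa using h4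
        have h5 : δ ≤ min η0 (ρ ^ 2 / 8) / M' := by
          have h6 : min (η0 / M') (ρ ^ 2 / 8 / M') = min η0 (ρ ^ 2 / 8) / M' :=
            (min_div_div_right hM'0.le _ _)
          rw [hδ, h6]
          exact min_le_left _ _
        have h6 := norm_nonneg (f k z / (M : ℂ))
        linarith
    obtain ⟨gg, g0, hgg, hg0, hggb, hg0b, hid⟩ := hC
      (fun l _ z => (u l z - cv χ (u l)) / (M' : ℂ)) (fun z => f k z / (M : ℂ))
      ⟨fun l _ => hHB l, fun l => ⟨ψ l, φ l, hψ l, fun _ => hr2 l⟩⟩ (hF () k) hlow2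
    have hb1 : ∀ l, BH (fun z => (u l z - cv χ (u l)) / (M' : ℂ)) := by
      intro l
      have hBu := Gen.bh (hTg _ (huT l))
      refine ⟨?_, 1, fun z hz => ?_⟩
      · have h1 := (hBu.1.sub_const (cv χ (u l))).mul_const ((M' : ℂ)⁻¹)
        simp only [← div_eq_mul_inv] at h1
        exact h1
      · rw [norm_div, hM'n, div_le_one hM'0]; exact hM' _ (huT l) z hz
    have h1 : (1 : HI Unit m) = ∑ l, el (hb1 l) * el ⟨hgg l 0, C, hggb l 0⟩ +
        Cc (1 / (M : ℂ)) * el (hf k) * el ⟨hg0, C, hg0b⟩ := by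
      apply ext'
      rintro ⟨x, z⟩
      change (1 : ℂ) = (∑ l, el (hb1 l) * el ⟨hgg l 0, C, hggb l 0⟩ : HI Unit m).1 (x, z) +
        1 / (M : ℂ) * f k z * g0 z
      rw [sum_apply]
      have h2 := hid z z.2
      simp only [Finset.univ_unique, Finset.sum_singleton, Fin.default_eq_zero] at h2
      refine Eq.trans h2.symm (congrArg₂ (· + ·) rfl ?_)
      ring
    have h2 := congrArg χ h1
    have h3 : ∀ l, χ (el (hb1 l)) = 0 := by
      intro l
      have hBu := Gen.bh (hTg _ (huT l))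
      have h4 : el (hb1 l) = (el hBu - Cc (cv χ (u l))) * Cc (1 / (M' : ℂ)) := by
        apply ext'
        rintro ⟨x, z⟩
        change (u l z - cv χ (u l)) / (M' : ℂ) = (u l z - cv χ (u l)) * (1 / (M' : ℂ))
        ring
      rw [h4, map_mul, map_sub, char_Cc, ← cv_eq χ hBu, sub_self, zero_mul]
    rw [map_one, map_add, map_mul, map_mul, ← cv_eq χ (hf k), hχ0 k, mul_zero, zero_mul, add_zero,
      map_sum] at h2
    have h4 : ∀ l, χ (el (hb1 l) * el ⟨hgg l 0, C, hggb l 0⟩) = 0 := by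
      intro l
      rw [map_mul, h3 l, zero_mul]
    rw [Finset.sum_congr rfl (fun l _ => h4 l), Finset.sum_const_zero] at h2
    exact one_ne_zero h2

end Pool.Agent.TH310.Cor
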