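import Mathlib
import Pool.Agent.TH310.Cor.ClAlg
import Pool.Agent.W732.Cor.All
import Pool.Agent.W732.Ud.All3

/-!
Corona data on the ball which are controlled by the closed algebra off a thin set.
-/

set_option autoImplicit false

open Metric Set Filter Topology

namespace Pool.Agent.TH310.Cor

/-- the image of a thin set under finitely many automorphisms -/
theorem thin_closed (m N l : ℕ) (f : Fin N → V m → ℂ) (δ : ℝ) (hδ : 0 < δ) (hf : ∀ j, BH (f j))
    (hlow : ∀ z ∈ ball (0 : V m) 1, δ ≤ ∑ j, ‖f j z‖)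
    (X : Set (V m)) (hX : Pool.Agent.W732.Ud.Thin X) (ψ φ : Fin l → V m → V m)
    (hψ : ∀ j, DifferentiableOn ℂ (ψ j) (ball 0 1) ∧ DifferentiableOn ℂ (φ j) (ball 0 1) ∧
        MapsTo (ψ j) (ball 0 1) (ball 0 1) ∧ MapsTo (φ j) (ball 0 1) (ball 0 1) ∧
        (∀ z ∈ ball (0 : V m) 1, φ j (ψ j z) = z) ∧ ∀ z ∈ ball (0 : V m) 1, ψ j (φ j z) = z)
    (hloc : ∀ p : V m, ‖p‖ = 1 → ∃ (S : Finset (Fin N)) (c η : ℝ), 0 ≤ η ∧
      2 * S.card * η < c ∧ (∀ j ∈ S, ∃ h ∈ Cl m, ∀ᶠ z in 𝓝[ball 0 1] p, ‖f j z - h z‖ ≤ η) ∧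
      ((∃ k : Fin N, ∀ᶠ z in 𝓝[ball 0 1] p, c ≤ ‖f k z‖ + ∑ j ∈ S, ‖f j z‖) ∨
        ∀ᶠ z in 𝓝[ball 0 1] p, (∀ i, z ∉ ψ i '' X) → c ≤ ∑ j ∈ S, ‖f j z‖)) :
    ∃ g : Fin N → V m → ℂ, (∀ j, DifferentiableOn ℂ (g j) (ball 0 1)) ∧
      (∃ C : ℝ, ∀ j, ∀ z ∈ ball (0 : V m) 1, ‖g j z‖ ≤ C) ∧
      ∀ z ∈ ball (0 : V m) 1, ∑ j, f j z * g j z = 1 := by
  classical
  choose hfd Mf hMf using hf
  obtain ⟨M, hM1, hM⟩ : ∃ M : ℝ, 1 ≤ M ∧ ∀ j, ∀ z ∈ ball (0 : V m) 1, ‖f j z‖ ≤ M := by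
    refine ⟨1 + ∑ j, |Mf j|, ?_, fun j z hz => ?_⟩
    · have : 0 ≤ ∑ j, |Mf j| := Finset.sum_nonneg fun j _ => abs_nonneg _
      linarith
    · have h1 : |Mf j| ≤ ∑ j, |Mf j| :=
        Finset.single_le_sum (f := fun j => |Mf j|) (fun j _ => abs_nonneg _) (Finset.mem_univ j)
      linarith [hMf j z hz, le_abs_self (Mf j)]
  have hM0 : 0 < M := by linarith
  have hMn : ‖(M : ℂ)‖ = M := by rw [Complex.norm_real, Real.norm_of_nonneg hM0.le]
  have hMc : (M : ℂ) ≠ 0 := by exact_mod_cast hM0.ne'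
  -- the function `G` in the ideal
  obtain ⟨C, hC⟩ := Pool.Agent.W732.Ud.t_thin4 m N l (δ / M) (1 / 2) X (by positivity) (by norm_num) hX
  obtain ⟨g, hgd, hgb, hgX⟩ := hC ψ φ hψ (fun j z => f j z / (M : ℂ)) (by
    refine ⟨fun j => ?_, fun j z hz => ?_, fun z hz => ?_⟩
    · have h1 := (hfd j).mul_const ((M : ℂ)⁻¹)
      simp only [← div_eq_mul_inv] at h1
      exact h1
    · rw [norm_div, hMn, div_le_one hM0]; exact hM j z hz
    · have h1 : ∑ i, ‖f i z / (M : ℂ)‖ = (∑ i, ‖f i z‖) / M := by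
        rw [Finset.sum_div]
        refine Finset.sum_congr rfl fun i _ => ?_
        rw [norm_div, hMn]
      rw [h1]
      exact div_le_div_of_nonneg_right (hlow z hz) hM0.le)
  -- large multiple
  obtain ⟨K, hKdef⟩ : ∃ K : ℝ, K = 2 * (N * M + 1) := ⟨_, rfl⟩
  have hK0 : 0 < K := by rw [hKdef]; positivity
  have hKn : ‖(K : ℂ)‖ = K := by rw [Complex.norm_real, Real.norm_of_nonneg hK0.le]
  obtain ⟨G, hGdef⟩ : ∃ G : V m → ℂ, G = fun z => (K : ℂ) * ∑ i, f i z / (M : ℂ) * g i z := ⟨_, rfl⟩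
  have hGd : DifferentiableOn ℂ G (ball 0 1) := by
    rw [hGdef]
    refine DifferentiableOn.const_mul ?_ _
    refine DifferentiableOn.fun_sum fun i _ => ?_
    have h1 := (hfd i).mul_const ((M : ℂ)⁻¹)
    simp only [← div_eq_mul_inv] at h1
    exact h1.mul (hgd i)
  have hGb : ∃ B : ℝ, ∀ z ∈ ball (0 : V m) 1, ‖G z‖ ≤ B := by
    refine ⟨K * ∑ _i : Fin N, (1 * C), fun z hz => ?_⟩
    rw [hGdef]
    simp only
    rw [norm_mul, hKn]
    refine mul_le_mul_of_nonneg_left ((norm_sum_le _ _).trans (Finset.sum_le_sum fun i _ => ?_)) hK0.le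
    rw [norm_mul]
    refine mul_le_mul ?_ (hgb i z hz) (norm_nonneg _) zero_le_one
    rw [norm_div, hMn, div_le_one hM0]; exact hM i z hz
  -- `|G| ≥ K / 2` on the images of `X`
  have hGX : ∀ i, ∀ z ∈ ψ i '' X, N * M + 1 ≤ ‖G z‖ := by
    rintro i z ⟨x, hx, rfl⟩
    have h1 := hgX i x hx
    have h2 : (1 : ℝ) / 2 ≤ ‖∑ j, f j (ψ i x) / (M : ℂ) * g j (ψ i x)‖ := by
      have h3 : (1 : ℝ) = ‖(1 : ℂ)‖ := by simp
      have h4 : (1 : ℂ) = ∑ j, f j (ψ i x) / (M : ℂ) * g j (ψ i x) -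
        (∑ j, f j (ψ i x) / (M : ℂ) * g j (ψ i x) - 1) := by ring
      have h5 : (1 : ℝ) ≤ ‖∑ j, f j (ψ i x) / (M : ℂ) * g j (ψ i x)‖ +
        ‖∑ j, f j (ψ i x) / (M : ℂ) * g j (ψ i x) - 1‖ := by
        calc (1 : ℝ) = ‖(1 : ℂ)‖ := h3
          _ = ‖∑ j, f j (ψ i x) / (M : ℂ) * g j (ψ i x) -
              (∑ j, f j (ψ i x) / (M : ℂ) * g j (ψ i x) - 1)‖ := by rw [← h4]
          _ ≤ _ := norm_sub_le _ _
      linarith
    rw [hGdef]
    simp only
    rw [norm_mul, hKn]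
    have h6 : K * (1 / 2) ≤ K * ‖∑ j, f j (ψ i x) / (M : ℂ) * g j (ψ i x)‖ :=
      mul_le_mul_of_nonneg_left h2 hK0.le
    rw [hKdef] at h6 ⊢
    linarith
  -- apply the local theorem to `(f, G)`
  obtain ⟨u, hu, ⟨C', hC'⟩, hid⟩ := closed Pool.Agent.W732.Cor.t_mv Pool.Agent.W732.Cor.t_ball
    Pool.Agent.W732.Cor.t_uni (m := m) (N := N + 1) (Fin.snoc (α := fun _ => V m → ℂ) f G)
    (by
      intro j
      refine Fin.lastCases ?_ (fun j => ?_) j
      · rw [Fin.snoc_last]; exact ⟨hGd, hGb⟩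
      · rw [Fin.snoc_castSucc]; exact ⟨hfd j, M, hM j⟩)
    (by
      intro z hz
      by_contra hcon
      push Not at hcon
      have h1 := hlow z hz
      have h2 : ∀ j, f j z = 0 := by
        intro j
        have := hcon j.castSucc
        rwa [Fin.snoc_castSucc] at this
      rw [Finset.sum_eq_zero (fun j _ => by rw [h2 j, norm_zero])] at h1
      linarith)
    (by
      intro p hp
      obtain ⟨S, c, η, hη, hSc, hS, hab⟩ := hloc p hp
      have hmap : ∀ z, ∑ j ∈ S.map Fin.castSuccEmb, ‖Fin.snoc (α := fun _ => V m → ℂ) f G j z‖ =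
          ∑ j ∈ S, ‖f j z‖ := by
        intro z
        rw [Finset.sum_map]
        refine Finset.sum_congr rfl fun j _ => ?_
        rw [Fin.coe_castSuccEmb, Fin.snoc_castSucc]
      have hcl : ∀ j ∈ S.map Fin.castSuccEmb, ∃ h ∈ Cl m, ∀ᶠ z in 𝓝[ball 0 1] p,
          ‖Fin.snoc (α := fun _ => V m → ℂ) f G j z - h z‖ ≤ η := by
        intro j hj
        obtain ⟨i, hi, rfl⟩ := Finset.mem_map.1 hj
        obtain ⟨h, hh, hh2⟩ := hS i hi
        refine ⟨h, hh, ?_⟩
        filter_upwards [hh2] with z hz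
        rwa [Fin.coe_castSuccEmb, Fin.snoc_castSucc]
      rcases hab with ⟨k, hk⟩ | hb
      · refine ⟨k.castSucc, S.map Fin.castSuccEmb, c, η, hη, ?_, ?_, hcl⟩
        · rw [Finset.card_map]; exact hSc
        · filter_upwards [hk] with z hz
          rw [hmap, Fin.snoc_castSucc]
          exact hz
      · by_cases hc : c ≤ N * M + 1
        · refine ⟨Fin.last N, S.map Fin.castSuccEmb, c, η, hη, ?_, ?_, hcl⟩
          · rw [Finset.card_map]; exact hSc
          · filter_upwards [hb] with z hz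
            rw [hmap, Fin.snoc_last]
            by_cases hzT : ∀ i, z ∉ ψ i '' X
            · have := hz hzT
              have := norm_nonneg (G z)
              linarith
            · push Not at hzT
              obtain ⟨i, hi⟩ := hzT
              have h1 := hGX i z hi
              have h2 : 0 ≤ ∑ j ∈ S, ‖f j z‖ := Finset.sum_nonneg fun j _ => norm_nonneg _
              linarith
        · refine ⟨Fin.last N, ∅, 1, 0, le_rfl, by simp, ?_, by simp⟩
          filter_upwards [hb, self_mem_nhdsWithin] with z hz hzB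
          rw [Finset.sum_empty, add_zero, Fin.snoc_last]
          by_cases hzT : ∀ i, z ∉ ψ i '' X
          · exfalso
            have h1 := hz hzT
            have h2 : ∑ j ∈ S, ‖f j z‖ ≤ ∑ _j ∈ S, M := Finset.sum_le_sum fun j _ => hM j z hzB
            rw [Finset.sum_const, nsmul_eq_mul] at h2
            have h3 : (S.card : ℝ) ≤ N := by
              have := Finset.card_le_univ S
              rw [Fintype.card_fin] at this
              exact_mod_cast this
            have h4 : (S.card : ℝ) * M ≤ N * M := mul_le_mul_of_nonneg_right h3 hM0.le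
            linarith
          · push Not at hzT
            obtain ⟨i, hi⟩ := hzT
            have h1 := hGX i z hi
            have h2 : 0 ≤ (N : ℝ) * M := by positivity
            linarith)
  refine ⟨fun j z => u j.castSucc z + (K : ℂ) / M * g j z * u (Fin.last N) z, fun j => ?_, ?_,
    fun z hz => ?_⟩
  · exact (hu _).add (((hgd j).const_mul _).mul (hu _))
  · refine ⟨|C'| + K / M * |C| * |C'|, fun j z hz => ?_⟩
    have h1 := (hC' j.castSucc z hz).trans (le_abs_self C')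
    have h2 := (hC' (Fin.last N) z hz).trans (le_abs_self C')
    have h3 := (hgb j z hz).trans (le_abs_self C)
    refine (norm_add_le _ _).trans (add_le_add h1 ?_)
    rw [norm_mul, norm_mul, norm_div, hKn, hMn]
    have h4 : K / M * ‖g j z‖ ≤ K / M * |C| := mul_le_mul_of_nonneg_left h3 (by positivity)
    exact mul_le_mul h4 h2 (norm_nonneg _) (by positivity)
  · have h1 := hid z hz
    rw [Fin.sum_univ_castSucc] at h1
    simp only [Fin.snoc_castSucc, Fin.snoc_last] at h1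
    have h2 : ∀ j, f j z * (u j.castSucc z + (K : ℂ) / M * g j z * u (Fin.last N) z) =
        f j z * u j.castSucc z + (K : ℂ) * (f j z / M * g j z) * u (Fin.last N) z := by
      intro j; ring
    simp only [h2]
    rw [Finset.sum_add_distrib, ← Finset.sum_mul, ← Finset.mul_sum]
    rw [hGdef] at h1
    exact h1

end Pool.Agent.TH310.Cor
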