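import Mathlib
import Pool.Agent.W597.Cor.Ball

/-!
Bounded holomorphic functions on `B ∩ {|1 - w| < η}` agree near `w = 1` with bounded holomorphic
functions on `B`, up to functions tending to zero.
-/

set_option autoImplicit false

open MeasureTheory Metric Set Filter Topology Complex
open scoped ContDiff

namespace Pool.Agent.TH310.Cor

open Pool.Agent.H720R2.HP Pool.Agent.H788R3.Cor2
open Pool.Agent.W597.Cor.Ball (DD LL tubeD sub_ball)

/-- the cutoff -/
noncomputable def bmp (η : ℝ) (hη : 0 < η) : ContDiffBump (1 : ℂ) :=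
  ⟨η / 4, η / 2, by positivity, by linarith⟩

noncomputable def ct (η : ℝ) (hη : 0 < η) (z : ℂ) : ℂ := ((bmp η hη z : ℝ) : ℂ)

section

variable {η : ℝ} (hη : 0 < η)

theorem ct_smooth : ContDiff ℝ ∞ (ct η hη) := by
  unfold ct
  exact Complex.ofRealCLM.contDiff.comp (bmp η hη).contDiff

theorem ct_one {z : ℂ} (hz : ‖z - 1‖ ≤ η / 4) : ct η hη z = 1 := by
  unfold ct
  have h1 : bmp η hη z = 1 := (bmp η hη).one_of_mem_closedBall (by
    rw [mem_closedBall, dist_eq_norm]; exact hz)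
  rw [h1, Complex.ofReal_one]

theorem ct_zero {z : ℂ} (hz : η / 2 ≤ ‖z - 1‖) : ct η hη z = 0 := by
  unfold ct
  have h1 : bmp η hη z = 0 := (bmp η hη).zero_of_le_dist (by
    rw [dist_eq_norm]; exact hz)
  rw [h1, Complex.ofReal_zero]

theorem ct_le (z : ℂ) : ‖ct η hη z‖ ≤ 1 := by
  unfold ct
  rw [Complex.norm_real, Real.norm_of_nonneg (bmp η hη).nonneg]
  exact (bmp η hη).le_one

theorem db_ct_near {z : ℂ} (hz : ‖z - 1‖ < η / 4) : db (ct η hη) z = 0 := by
  have h1 : ct η hη =ᶠ[𝓝 z] fun _ => 1 := by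
    have h2 : ball (1 : ℂ) (η / 4) ∈ 𝓝 z := isOpen_ball.mem_nhds (by
      rw [mem_ball, dist_eq_norm]; exact hz)
    filter_upwards [h2] with w hw
    rw [mem_ball, dist_eq_norm] at hw
    exact ct_one hη hw.le
  rw [db_congr h1]
  exact db_holo (differentiableAt_const _)

theorem db_ct_far {z : ℂ} (hz : η / 2 < ‖z - 1‖) : db (ct η hη) z = 0 := by
  have h1 : ct η hη =ᶠ[𝓝 z] fun _ => 0 := by
    have h2 : {w : ℂ | η / 2 < ‖w - 1‖} ∈ 𝓝 z :=
      (isOpen_lt continuous_const (by fun_prop)).mem_nhds hz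
    filter_upwards [h2] with w hw
    exact ct_zero hη (le_of_lt hw)
  rw [db_congr h1]
  exact db_holo (differentiableAt_const _)

theorem db_ct_bd : ∃ K : ℝ, 0 ≤ K ∧ ∀ z, ‖db (ct η hη) z‖ ≤ K := by
  have hc : Continuous (db (ct η hη)) := db_cont (ct_smooth hη)
  obtain ⟨K, hK⟩ := (isCompact_closedBall (1 : ℂ) η).exists_bound_of_continuousOn hc.continuousOn
  refine ⟨max K 0, le_max_right _ _, fun z => ?_⟩
  by_cases hz : z ∈ closedBall (1 : ℂ) η
  · exact (hK z hz).trans (le_max_left _ _)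
  · rw [mem_closedBall, dist_eq_norm, not_le] at hz
    rw [db_ct_far hη (by linarith), norm_zero]
    exact le_max_right _ _

variable {E : Type} [NormedAddCommGroup E] [NormedSpace ℂ E] [FiniteDimensional ℂ E]

theorem LL_mem {ζ : ℂ} (hζ : ‖ζ‖ < 1) {p : ℂ × E} (hp : p ∈ DD E) : (ζ, LL E ζ p) ∈ DD E :=
  (tubeD E).retr.mem ζ (by rw [mem_ball_zero_iff]; exact hζ) p hp

/-- the kernel -/
noncomputable def Bf (g : ℂ × E → ℂ) (y : E) (ζ w : ℂ) : ℂ :=
  {p : ℂ × ℂ | (‖p.1‖ < 1 ∧ ‖p.1 - 1‖ < η) ∧ (p.2, y) ∈ DD E}.indicator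
    (fun p => db (ct η hη) p.1 * g (p.1, LL E p.1 (p.2, y))) (ζ, w)

theorem isOpen_DD : IsOpen (DD E) := isOpen_lt (by fun_prop) continuous_const

theorem Tset_open (y : E) :
    IsOpen {p : ℂ × ℂ | (‖p.1‖ < 1 ∧ ‖p.1 - 1‖ < η) ∧ (p.2, y) ∈ DD E} := by
  refine IsOpen.inter (IsOpen.inter ?_ ?_) ?_
  · exact isOpen_lt (by fun_prop : Continuous fun p : ℂ × ℂ => ‖p.1‖) continuous_const
  · exact isOpen_lt (by fun_prop : Continuous fun p : ℂ × ℂ => ‖p.1 - 1‖) continuous_const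
  · exact isOpen_DD.preimage (by fun_prop : Continuous fun p : ℂ × ℂ => (p.2, y))

/-- the domain of `g` -/
def Rg (E : Type) [NormedAddCommGroup E] (η : ℝ) : Set (ℂ × E) := DD E ∩ {p | ‖p.1 - 1‖ < η}

theorem Rg_open : IsOpen (Rg E η) :=
  isOpen_DD.inter (isOpen_lt (by fun_prop) continuous_const)

variable {g : ℂ × E → ℂ}

theorem Bf_meas (hg : DifferentiableOn ℂ g (Rg E η)) (y : E) :
    Measurable (fun p : ℂ × ℂ => Bf hη g y p.1 p.2) := by
  classical
  have h1 : (fun p : ℂ × ℂ => Bf hη g y p.1 p.2) =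
      {p : ℂ × ℂ | (‖p.1‖ < 1 ∧ ‖p.1 - 1‖ < η) ∧ (p.2, y) ∈ DD E}.indicator
    (fun p => db (ct η hη) p.1 * g (p.1, LL E p.1 (p.2, y))) := rfl
  rw [h1, ← Set.piecewise_eq_indicator]
  refine ContinuousOn.measurable_piecewise ?_ continuousOn_const (Tset_open y).measurableSet
  have hc : Continuous (db (ct η hη)) := db_cont (ct_smooth hη)
  refine (hc.comp continuous_fst).continuousOn.mul ?_
  refine hg.continuousOn.comp ?_ ?_
  · refine continuousOn_fst.prodMk (((tubeD E).retr.cont y).mono ?_)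
    rintro p ⟨⟨h2, -⟩, h3⟩
    exact ⟨by rw [mem_ball_zero_iff]; exact h2, h3⟩
  · rintro p ⟨⟨h2, h4⟩, h3⟩
    exact ⟨LL_mem h2 h3, h4⟩

theorem Bf_eq {y : E} {ζ w : ℂ} (hζ : ‖ζ‖ < 1) (hζ2 : ‖ζ - 1‖ < η) (hw : (w, y) ∈ DD E) :
    Bf hη g y ζ w = db (ct η hη) ζ * g (ζ, LL E ζ (w, y)) := by
  unfold Bf
  have h1 : (ζ, w) ∈ {p : ℂ × ℂ | (‖p.1‖ < 1 ∧ ‖p.1 - 1‖ < η) ∧ (p.2, y) ∈ DD E} :=
    ⟨⟨hζ, hζ2⟩, hw⟩
  rw [indicator_of_mem h1]

theorem Bf_zero {y : E} {ζ w : ℂ} (h : ¬ (‖ζ‖ < 1 ∧ ‖ζ - 1‖ < η)) : Bf hη g y ζ w = 0 := by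
  unfold Bf
  rw [indicator_of_notMem]
  exact fun h1 => h h1.1

theorem LL_diff {ζ : ℂ} (hζ : ‖ζ‖ < 1) {p : ℂ × E} (hp : p ∈ DD E) :
    DifferentiableAt ℂ (LL E ζ) p :=
  (tubeD E).retr.diff ζ (by rw [mem_ball_zero_iff]; exact hζ) p hp

theorem g_LL_diff (hg : DifferentiableOn ℂ g (Rg E η)) {ζ : ℂ} (hζ : ‖ζ‖ < 1)
    (hζ2 : ‖ζ - 1‖ < η) {p : ℂ × E} (hp : p ∈ DD E) :
    DifferentiableAt ℂ (fun p : ℂ × E => g (ζ, LL E ζ p)) p := by
  have hm : (ζ, LL E ζ p) ∈ Rg E η := ⟨LL_mem hζ hp, hζ2⟩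
  have h1 : DifferentiableAt ℂ g (ζ, LL E ζ p) := (hg _ hm).differentiableAt (Rg_open.mem_nhds hm)
  have h2 : DifferentiableAt ℂ (fun p : ℂ × E => (ζ, LL E ζ p)) p :=
    (differentiableAt_const _).prodMk (LL_diff hζ hp)
  exact DifferentiableAt.comp (g := g) (f := fun p : ℂ × E => (ζ, LL E ζ p)) p h1 h2

theorem slice_op (y : E) : IsOpen {w : ℂ | (w, y) ∈ DD E} :=
  isOpen_DD.preimage (by fun_prop : Continuous fun w : ℂ => (w, y))

theorem fib_op (w : ℂ) : IsOpen {y : E | (w, y) ∈ DD E} :=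
  isOpen_DD.preimage (by fun_prop : Continuous fun y : E => (w, y))

theorem Bf_diff (hg : DifferentiableOn ℂ g (Rg E η)) (y : E) (ζ : ℂ) :
    DifferentiableOn ℂ (Bf hη g y ζ) {w : ℂ | (w, y) ∈ DD E} := by
  intro w hw
  apply DifferentiableAt.differentiableWithinAt
  by_cases h : ‖ζ‖ < 1 ∧ ‖ζ - 1‖ < η
  · have h1 := g_LL_diff hg h.1 h.2 (p := (w, y)) hw
    have h2 : DifferentiableAt ℂ (fun w : ℂ => (w, y)) w :=
      differentiableAt_id.prodMk (differentiableAt_const _)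
    have h3 : DifferentiableAt ℂ (fun w : ℂ => g (ζ, LL E ζ (w, y))) w :=
      DifferentiableAt.comp (g := fun p : ℂ × E => g (ζ, LL E ζ p)) w h1 h2
    refine (h3.const_mul (db (ct η hη) ζ)).congr_of_eventuallyEq ?_
    filter_upwards [(slice_op y).mem_nhds hw] with w' hw'
    exact Bf_eq hη h.1 h.2 hw'
  · have h3 : Bf hη g y ζ = fun _ => 0 := by
      funext w'
      exact Bf_zero hη h
    rw [h3]
    exact differentiableAt_const _

theorem Bf_bd {K : ℝ} (hK0 : 0 ≤ K) (hK : ∀ z, ‖db (ct η hη) z‖ ≤ K)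
    (hgb : ∀ p ∈ Rg E η, ‖g p‖ ≤ 1) (y : E) (ζ w : ℂ) :
    ‖Bf hη g y ζ w‖ ≤ (ball (0 : ℂ) 1).indicator (fun _ => K) ζ := by
  by_cases h : ‖ζ‖ < 1 ∧ ‖ζ - 1‖ < η
  · rw [indicator_of_mem (by rw [mem_ball_zero_iff]; exact h.1)]
    by_cases hw : (w, y) ∈ DD E
    · rw [Bf_eq hη h.1 h.2 hw, norm_mul]
      calc ‖db (ct η hη) ζ‖ * ‖g (ζ, LL E ζ (w, y))‖ ≤ K * 1 :=
            mul_le_mul (hK ζ) (hgb _ ⟨LL_mem h.1 hw, h.2⟩) (norm_nonneg _) hK0
        _ = K := mul_one _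
    · unfold Bf
      rw [indicator_of_notMem (fun h1 => hw h1.2), norm_zero]
      exact hK0
  · rw [Bf_zero hη h, norm_zero]
    exact indicator_nonneg (fun _ _ => hK0) _

/-- the correction -/
noncomputable def Vc (g : ℂ × E → ℂ) (p : ℂ × E) : ℂ := CT (Bf hη g p.2) p.1

theorem Vc_bd {K : ℝ} (hK0 : 0 ≤ K) (hK : ∀ z, ‖db (ct η hη) z‖ ≤ K)
    (hgb : ∀ p ∈ Rg E η, ‖g p‖ ≤ 1) {p : ℂ × E} (hp : p ∈ DD E) : ‖Vc hη g p‖ ≤ 4 * K := by
  unfold Vc CT
  rw [norm_mul, norm_div, norm_one, Complex.norm_real, Real.norm_of_nonneg Real.pi_pos.le]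
  have h1 : ‖∫ ζ, Bf hη g p.2 ζ p.1 / (p.1 - ζ)‖ ≤ K * (2 * Real.pi * (‖p.1‖ + 1)) := by
    refine (norm_integral_le_of_norm_le (dom_int p.1 1 K) (Eventually.of_forall fun ζ => ?_)).trans
      (dom_int_le p.1 zero_le_one hK0)
    rw [norm_div, div_eq_mul_inv]
    exact mul_le_mul_of_nonneg_right (Bf_bd hη hK0 hK hgb p.2 ζ p.1) (by positivity)
  have h2 : ‖p.1‖ < 1 := sub_ball E hp
  have hpi := Real.pi_pos
  calc 1 / Real.pi * ‖∫ ζ, Bf hη g p.2 ζ p.1 / (p.1 - ζ)‖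
      ≤ 1 / Real.pi * (K * (2 * Real.pi * (‖p.1‖ + 1))) := by gcongr
    _ ≤ 1 / Real.pi * (K * (2 * Real.pi * (1 + 1))) := by gcongr
    _ = 4 * K := by field_simp; ring

/-- the cut off function -/
noncomputable def Fc (g : ℂ × E → ℂ) (p : ℂ × E) : ℂ :=
  {p : ℂ × E | ‖p.1 - 1‖ < η}.indicator (fun p => ct η hη p.1 * g p) p

theorem Fc_bd (hgb : ∀ p ∈ Rg E η, ‖g p‖ ≤ 1) {p : ℂ × E} (hp : p ∈ DD E) :
    ‖Fc hη g p‖ ≤ 1 := by
  unfold Fc
  by_cases h : p ∈ {p : ℂ × E | ‖p.1 - 1‖ < η}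
  · rw [indicator_of_mem h, norm_mul]
    calc ‖ct η hη p.1‖ * ‖g p‖ ≤ 1 * 1 :=
          mul_le_mul (ct_le hη p.1) (hgb _ ⟨hp, h⟩) (norm_nonneg _) zero_le_one
      _ = 1 := one_mul _
  · rw [indicator_of_notMem h, norm_zero]
    exact zero_le_one

theorem WD_Fc (hg : DifferentiableOn ℂ g (Rg E η)) (y : E) :
    WD {w : ℂ | (w, y) ∈ DD E} (fun w => Fc hη g (w, y)) (fun w => Bf hη g y w w) := by
  -- local forms
  have hnear : ∀ w : ℂ, (w, y) ∈ DD E → ‖w - 1‖ < η →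
      (fun w => Fc hη g (w, y)) =ᶠ[𝓝 w] (fun w => ct η hη w * g (w, y)) := by
    intro w _ hw
    have h2 : {w : ℂ | ‖w - 1‖ < η} ∈ 𝓝 w :=
      (isOpen_lt (by fun_prop) continuous_const).mem_nhds hw
    filter_upwards [h2] with w' hw'
    unfold Fc
    rw [indicator_of_mem (show (w', y) ∈ {p : ℂ × E | ‖p.1 - 1‖ < η} from hw')]
  have hfar : ∀ w : ℂ, ¬ ‖w - 1‖ < η →
      (fun w => Fc hη g (w, y)) =ᶠ[𝓝 w] (fun _ => 0) := by
    intro w hw
    have h2 : {w : ℂ | η / 2 < ‖w - 1‖} ∈ 𝓝 w := by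
      refine (isOpen_lt continuous_const (by fun_prop)).mem_nhds ?_
      rw [not_lt] at hw
      change η / 2 < ‖w - 1‖
      linarith
    filter_upwards [h2] with w' hw'
    unfold Fc
    by_cases h : (w', y) ∈ {p : ℂ × E | ‖p.1 - 1‖ < η}
    · rw [indicator_of_mem h]
      have h3 : ct η hη w' = 0 := ct_zero hη (le_of_lt hw')
      simp only
      rw [h3, zero_mul]
    · rw [indicator_of_notMem h]
  have hgw : ∀ w : ℂ, (w, y) ∈ DD E → ‖w - 1‖ < η → DifferentiableAt ℂ (fun w => g (w, y)) w := by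
    intro w hw1 hw2
    have hm : (w, y) ∈ Rg E η := ⟨hw1, hw2⟩
    have h1 : DifferentiableAt ℂ g (w, y) := (hg _ hm).differentiableAt (Rg_open.mem_nhds hm)
    exact DifferentiableAt.comp (g := g) (f := fun w : ℂ => (w, y)) w h1
      (differentiableAt_id.prodMk (differentiableAt_const _))
  have hC1 : ContDiffOn ℝ 1 (fun w => Fc hη g (w, y)) {w : ℂ | (w, y) ∈ DD E} := by
    intro w hw
    apply ContDiffAt.contDiffWithinAt
    by_cases h : ‖w - 1‖ < η
    · refine ContDiffAt.congr_of_eventuallyEq ?_ (hnear w hw h)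
      have h1 : ContDiffAt ℝ 1 (ct η hη) w := ((ct_smooth hη).of_le (by exact_mod_cast le_top)).contDiffAt
      have h2 : AnalyticAt ℂ (fun w => g (w, y)) w := by
        have hO : IsOpen {w : ℂ | (w, y) ∈ Rg E η} :=
          Rg_open.preimage (by fun_prop : Continuous fun w : ℂ => (w, y))
        have h3 : DifferentiableOn ℂ (fun w => g (w, y)) {w : ℂ | (w, y) ∈ Rg E η} := fun w' hw' =>
          (hgw w' hw'.1 hw'.2).differentiableWithinAt
        exact h3.analyticAt (hO.mem_nhds ⟨hw, h⟩)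
      have h4 : ContDiffAt ℝ 1 (fun w => g (w, y)) w :=
        (h2.contDiffAt (n := 1)).restrict_scalars ℝ
      exact h1.mul h4
    · exact ContDiffAt.congr_of_eventuallyEq contDiffAt_const (hfar w h)
  have h1 := WD.of_C1 (slice_op y) hC1
  refine h1.congr (slice_op y) (fun z _ => rfl) (fun z hz => ?_)
  by_cases h : ‖z - 1‖ < η
  · rw [db_congr (hnear z hz h)]
    have h2 : DifferentiableAt ℝ (ct η hη) z :=
      ((ct_smooth hη).differentiable (by simp)).differentiableAt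
    have h3 := hgw z hz h
    rw [db_mul h2 (h3.restrictScalars ℝ), db_holo h3, mul_zero, zero_add,
      Bf_eq hη (sub_ball E hz) h hz, (tubeD E).retr.self z y hz, mul_comm]
  · rw [db_congr (hfar z h), db_holo (differentiableAt_const _), Bf_zero hη (fun h1 => h h1.2)]

theorem sub_hol {K : ℝ} (hK0 : 0 ≤ K) (hK : ∀ z, ‖db (ct η hη) z‖ ≤ K)
    (hg : DifferentiableOn ℂ g (Rg E η)) (hgb : ∀ p ∈ Rg E η, ‖g p‖ ≤ 1) :
    DifferentiableOn ℂ (fun p => Fc hη g p - Vc hη g p) (DD E) := by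
  have hb : ∀ p ∈ DD E, ‖Fc hη g p - Vc hη g p‖ ≤ 1 + 4 * K := fun p hp =>
    (norm_sub_le _ _).trans (add_le_add (Fc_bd hη hgb hp) (Vc_bd hη hK0 hK hgb hp))
  refine osgood2 isOpen_DD hb ?_ ?_
  · intro y
    have h1 := WD_Fc hη hg y
    have h2 : WD {w : ℂ | (w, y) ∈ DD E} (CT (Bf hη g y)) (fun z => Bf hη g y z z) :=
      CT_weak (slice_op y) zero_le_one hK0 (Bf_meas hη hg y) (fun ζ => Bf_diff hη hg y ζ)
        (fun ζ w => Bf_bd hη hK0 hK hgb y ζ w)
    have h3 := h2.mul_holo (slice_op y) (c := fun _ => (-1 : ℂ)) (differentiableOn_const _)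
    have h4 := h1.add (slice_op y) h3
    have h5 := h4.holo (slice_op y) (fun z _ => by ring)
    refine h5.congr (fun w _ => ?_)
    simp only [Vc]
    ring
  · intro w
    refine DifferentiableOn.sub ?_ ?_
    · by_cases h : ‖w - 1‖ < η
      · have h1 : ∀ y : E, Fc hη g (w, y) = ct η hη w * g (w, y) := by
          intro y
          unfold Fc
          rw [indicator_of_mem (show (w, y) ∈ {p : ℂ × E | ‖p.1 - 1‖ < η} from h)]
        simp only [h1]
        refine DifferentiableOn.const_mul ?_ _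
        intro y hy
        have hm : (w, y) ∈ Rg E η := ⟨hy, h⟩
        have h2 : DifferentiableAt ℂ g (w, y) := (hg _ hm).differentiableAt (Rg_open.mem_nhds hm)
        exact (DifferentiableAt.comp (g := g) (f := fun y : E => (w, y)) y h2
          ((differentiableAt_const _).prodMk differentiableAt_id)).differentiableWithinAt
      · have h1 : ∀ y : E, Fc hη g (w, y) = 0 := by
          intro y
          unfold Fc
          rw [indicator_of_notMem (show (w, y) ∉ {p : ℂ × E | ‖p.1 - 1‖ < η} from h)]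
        simp only [h1]
        exact differentiableOn_const _
    · have h1 := Pool.Agent.HP.differentiableOn_integral (X := E) (E := ℂ) volume
        (fun ζ y => Bf hη g y ζ w / (w - ζ)) {y : E | (w, y) ∈ DD E} (fib_op w)
        (fun y _ => by
          have h2 : Measurable (fun ζ => Bf hη g y ζ w) :=
            (Bf_meas hη hg y).comp (measurable_id.prodMk measurable_const)
          exact (h2.div (measurable_const.sub measurable_id)).aestronglyMeasurable)
        (fun ζ y hy => by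
          apply DifferentiableAt.differentiableWithinAt
          by_cases h : ‖ζ‖ < 1 ∧ ‖ζ - 1‖ < η
          · have h1 := g_LL_diff hg h.1 h.2 (p := (w, y)) hy
            have h2 : DifferentiableAt ℂ (fun y : E => (w, y)) y :=
              (differentiableAt_const _).prodMk differentiableAt_id
            have h3 : DifferentiableAt ℂ (fun y : E => g (ζ, LL E ζ (w, y))) y :=
              DifferentiableAt.comp (g := fun p : ℂ × E => g (ζ, LL E ζ p)) y h1 h2
            have h4 : DifferentiableAt ℂ (fun y : E => Bf hη g y ζ w) y := by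
              refine (h3.const_mul (db (ct η hη) ζ)).congr_of_eventuallyEq ?_
              filter_upwards [(fib_op w).mem_nhds hy] with y' hy'
              exact Bf_eq hη h.1 h.2 hy'
            simp only [div_eq_mul_inv]
            exact h4.mul_const _
          · have h3 : (fun y => Bf hη g y ζ w / (w - ζ)) = fun _ => 0 := by
              funext y'
              rw [Bf_zero hη h, zero_div]
            rw [h3]
            exact differentiableAt_const _)
        (fun ζ => (ball (0 : ℂ) 1).indicator (fun _ => K) ζ * ‖w - ζ‖⁻¹) (dom_int w 1 K)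
        (fun ζ y _ => by
          rw [norm_div, div_eq_mul_inv]
          exact mul_le_mul_of_nonneg_right (Bf_bd hη hK0 hK hgb y ζ w) (by positivity))
      exact h1.const_mul _

end

end Pool.Agent.TH310.Cor
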