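import Mathlib
import Pool.Agent.TH310.Cor.LG
import Pool.Agent.TH310.Cor.Step

/-!
Bounded holomorphic functions near a boundary point of the ball: comparison with global functions.
The localisation theorem.
-/

set_option autoImplicit false

open MeasureTheory Metric Set Filter Topology Complex WeakDual
open scoped ContDiff

namespace Pool.Agent.TH310.Cor

open Pool.Agent.H720R2.HP Pool.Agent.H788R3.Cor2
open Pool.Agent.W597.Cor.Ball (DD LL tubeD sub_ball)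

section

variable {η : ℝ} (hη : 0 < η)
variable {E : Type} [NormedAddCommGroup E] [NormedSpace ℂ E] [FiniteDimensional ℂ E]
variable {g : ℂ × E → ℂ}

/-- Schwarz lemma on the fibres -/
theorem fib_schwarz (hg : DifferentiableOn ℂ g (Rg E η)) (hgb : ∀ p ∈ Rg E η, ‖g p‖ ≤ 1) {ζ : ℂ}
    (hζ2 : ‖ζ - 1‖ < η) {R : ℝ} (hR : 0 < R) (hR2 : R ^ 2 = 1 - ‖ζ‖ ^ 2) {y : E} (hy : ‖y‖ < R) :
    ‖g (ζ, y) - g (ζ, 0)‖ ≤ 2 * ‖y‖ / R := by
  rcases eq_or_ne y 0 with h0 | h0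
  · rw [h0, sub_self, norm_zero, norm_zero]; simp
  have hn : 0 < ‖y‖ := norm_pos_iff.2 h0
  have hmaps : MapsTo (fun l : ℂ => ((ζ, l • y) : ℂ × E)) (ball 0 (R / ‖y‖)) (Rg E η) := by
    intro l hl
    rw [mem_ball_zero_iff, lt_div_iff₀ hn] at hl
    refine ⟨?_, hζ2⟩
    change ‖ζ‖ ^ 2 + ‖l • y‖ ^ 2 < 1
    rw [norm_smul]
    have : (‖l‖ * ‖y‖) ^ 2 < R ^ 2 := pow_lt_pow_left₀ hl (by positivity) (by norm_num)
    linarith
  have hd : DifferentiableOn ℂ (fun l : ℂ => g (ζ, l • y)) (ball 0 (R / ‖y‖)) := by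
    have h1 : Differentiable ℂ (fun l : ℂ => ((ζ, l • y) : ℂ × E)) :=
      (differentiable_const _).prodMk (differentiable_id.smul_const y)
    exact hg.comp h1.differentiableOn hmaps
  have h0b : (0 : ℂ) ∈ ball (0 : ℂ) (R / ‖y‖) := mem_ball_self (by positivity)
  have hb : MapsTo (fun l : ℂ => g (ζ, l • y)) (ball 0 (R / ‖y‖))
      (closedBall ((fun l : ℂ => g (ζ, l • y)) 0) 2) := by
    intro l hl
    rw [mem_closedBall, dist_eq_norm]
    have h1 := hgb _ (hmaps hl)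
    have h2 := hgb _ (hmaps h0b)
    have h3 := norm_sub_le (g (ζ, l • y)) (g (ζ, (0 : ℂ) • y))
    simp only at h1 h2
    linarith
  have h3 := Complex.dist_le_div_mul_dist_of_mapsTo_ball hd hb (z := 1)
    (by rw [mem_ball_zero_iff, norm_one, lt_div_iff₀ hn, one_mul]; exact hy)
  simp only [one_smul, zero_smul, dist_zero_right, norm_one, mul_one] at h3
  rw [dist_eq_norm] at h3
  refine h3.trans (le_of_eq ?_)
  field_simp

/-- the value at `1` -/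
noncomputable def V1 (g : ℂ × E → ℂ) : ℂ := (1 / Real.pi : ℂ) * ∫ ζ, Bf hη g 0 ζ 0 / (1 - ζ)

theorem V1_bd {K : ℝ} (hK0 : 0 ≤ K) (hK : ∀ z, ‖db (ct η hη) z‖ ≤ K)
    (hgb : ∀ p ∈ Rg E η, ‖g p‖ ≤ 1) : ‖V1 hη g‖ ≤ 4 * K := by
  unfold V1
  rw [norm_mul, norm_div, norm_one, Complex.norm_real, Real.norm_of_nonneg Real.pi_pos.le]
  have h1 : ‖∫ ζ, Bf hη g 0 ζ 0 / (1 - ζ)‖ ≤ K * (2 * Real.pi * (‖(1 : ℂ)‖ + 1)) := by
    refine (norm_integral_le_of_norm_le (dom_int 1 1 K) (Eventually.of_forall fun ζ => ?_)).trans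
      (dom_int_le 1 zero_le_one hK0)
    rw [norm_div, div_eq_mul_inv]
    exact mul_le_mul_of_nonneg_right (Bf_bd hη hK0 hK hgb 0 ζ 0) (by positivity)
  rw [norm_one] at h1
  have hpi := Real.pi_pos
  calc 1 / Real.pi * ‖∫ ζ, Bf hη g 0 ζ 0 / (1 - ζ)‖
      ≤ 1 / Real.pi * (K * (2 * Real.pi * (1 + 1))) := by gcongr
    _ = 4 * K := by field_simp; ring

theorem Vc_mod {K : ℝ} (hK0 : 0 ≤ K) (hK : ∀ z, ‖db (ct η hη) z‖ ≤ K)
    (hg : DifferentiableOn ℂ g (Rg E η)) (hgb : ∀ p ∈ Rg E η, ‖g p‖ ≤ 1) {w : ℂ} {y : E}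
    (hp : (w, y) ∈ DD E) (hw : ‖w - 1‖ < η / 8) :
    ‖Vc hη g (w, y) - V1 hη g‖ ≤ K * ((128 * ‖y‖ + 32 * ‖w - 1‖) / η ^ 2) := by
  have h00 : ((0 : ℂ), (0 : E)) ∈ DD E := by
    change ‖(0 : ℂ)‖ ^ 2 + ‖(0 : E)‖ ^ 2 < 1
    simp
  have hi1 : Integrable (fun ζ => Bf hη g y ζ w / (w - ζ)) :=
    B_int (Bf_meas hη hg y) (fun ζ w => Bf_bd hη hK0 hK hgb y ζ w) w w
  have hi2 : Integrable (fun ζ => Bf hη g 0 ζ 0 / (1 - ζ)) :=
    B_int (Bf_meas hη hg 0) (fun ζ w => Bf_bd hη hK0 hK hgb 0 ζ w) 0 1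
  obtain ⟨T, hT⟩ : ∃ T : ℝ, T = (128 * ‖y‖ + 32 * ‖w - 1‖) / η ^ 2 := ⟨_, rfl⟩
  have hT0 : 0 ≤ T := by rw [hT]; positivity
  rw [← hT]
  have hw1 : ‖w‖ < 1 := sub_ball E hp
  have hpt : ∀ ζ, ‖Bf hη g y ζ w / (w - ζ) - Bf hη g 0 ζ 0 / (1 - ζ)‖ ≤
      (ball (0 : ℂ) 1).indicator (fun _ => K * T) ζ := by
    intro ζ
    by_cases h : ‖ζ‖ < 1 ∧ ‖ζ - 1‖ < η
    · rw [indicator_of_mem (by rw [mem_ball_zero_iff]; exact h.1)]
      by_cases h4 : ‖ζ - 1‖ < η / 4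
      · rw [Bf_eq hη h.1 h.2 hp, Bf_eq hη h.1 h.2 h00, db_ct_near hη h4]
        simp only [zero_mul, zero_div, sub_self, norm_zero]
        positivity
      · push Not at h4
        have hLL0 : LL E ζ ((0 : ℂ), (0 : E)) = 0 := by
          unfold LL
          simp
        rw [Bf_eq hη h.1 h.2 hp, Bf_eq hη h.1 h.2 h00, hLL0]
        -- distances
        have d1 : η / 8 ≤ ‖w - ζ‖ := by
          have h5 := norm_sub_le (w - ζ) (w - 1)
          have h6 : w - ζ - (w - 1) = -(ζ - 1) := by ring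
          rw [h6, norm_neg] at h5
          linarith
        have d2 : η / 4 ≤ ‖1 - ζ‖ := by rw [norm_sub_rev]; exact h4
        have d3 : η / 8 ≤ ‖1 - starRingEnd ℂ ζ * w‖ := by
          have h5 : 1 - starRingEnd ℂ ζ = (1 - starRingEnd ℂ ζ * w) + starRingEnd ℂ ζ * (w - 1) := by
            ring
          have h6 : ‖1 - starRingEnd ℂ ζ‖ = ‖1 - ζ‖ := by
            have h7 : 1 - starRingEnd ℂ ζ = starRingEnd ℂ (1 - ζ) := by simp
            rw [h7, RCLike.norm_conj]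
          have h7 := norm_add_le (1 - starRingEnd ℂ ζ * w) (starRingEnd ℂ ζ * (w - 1))
          rw [← h5, h6, norm_mul, RCLike.norm_conj] at h7
          have h8 : ‖ζ‖ * ‖w - 1‖ ≤ 1 * ‖w - 1‖ := by gcongr; exact h.1.le
          linarith
        have d1p : 0 < ‖w - ζ‖ := by linarith
        have d2p : 0 < ‖1 - ζ‖ := by linarith
        have d3p : 0 < ‖1 - starRingEnd ℂ ζ * w‖ := by linarith
        have hζ2 : 0 < 1 - ‖ζ‖ ^ 2 := by nlinarith [norm_nonneg ζ, h.1]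
        obtain ⟨R, hR⟩ : ∃ R : ℝ, R = √(1 - ‖ζ‖ ^ 2) := ⟨_, rfl⟩
        have hR0 : 0 < R := by rw [hR]; exact Real.sqrt_pos.2 hζ2
        have hR2 : R ^ 2 = 1 - ‖ζ‖ ^ 2 := by rw [hR]; exact Real.sq_sqrt hζ2.le
        have hR1 : R ≤ 1 := by nlinarith [sq_nonneg ‖ζ‖]
        have hLLn : ‖LL E ζ (w, y)‖ = R ^ 2 / ‖1 - starRingEnd ℂ ζ * w‖ * ‖y‖ := by
          unfold LL
          rw [norm_smul, norm_div, Complex.norm_real, Real.norm_of_nonneg hζ2.le, hR2]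
        have hLm : (ζ, LL E ζ (w, y)) ∈ DD E := LL_mem h.1 hp
        have hLlt : ‖LL E ζ (w, y)‖ < R := by
          have h5 : ‖ζ‖ ^ 2 + ‖LL E ζ (w, y)‖ ^ 2 < 1 := hLm
          refine lt_of_pow_lt_pow_left₀ 2 hR0.le ?_
          rw [hR2]; linarith
        have hs := fib_schwarz hg hgb h.2 hR0 hR2 hLlt
        have hs2 : ‖g (ζ, LL E ζ (w, y)) - g (ζ, 0)‖ ≤ 16 * ‖y‖ / η := by
          refine hs.trans ?_
          rw [hLLn]
          have h5 : 2 * (R ^ 2 / ‖1 - starRingEnd ℂ ζ * w‖ * ‖y‖) / R =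
              2 * R * ‖y‖ / ‖1 - starRingEnd ℂ ζ * w‖ := by
            field_simp
          rw [h5, div_le_div_iff₀ d3p hη]
          have h6 : 2 * R * ‖y‖ * η ≤ 2 * 1 * ‖y‖ * η := by gcongr
          have h7 : 2 * ‖y‖ * η ≤ 16 * ‖y‖ * ‖1 - starRingEnd ℂ ζ * w‖ := by
            nlinarith [norm_nonneg y]
          linarith
        have hg0 : ‖g (ζ, 0)‖ ≤ 1 := by
          refine hgb _ ⟨?_, h.2⟩
          change ‖ζ‖ ^ 2 + ‖(0 : E)‖ ^ 2 < 1
          rw [norm_zero]; nlinarith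
        have hwζ : w - ζ ≠ 0 := norm_pos_iff.1 d1p
        have h1ζ : 1 - ζ ≠ 0 := norm_pos_iff.1 d2p
        have heq : db (ct η hη) ζ * g (ζ, LL E ζ (w, y)) / (w - ζ) -
            db (ct η hη) ζ * g (ζ, 0) / (1 - ζ) =
            db (ct η hη) ζ * ((g (ζ, LL E ζ (w, y)) - g (ζ, 0)) / (w - ζ) +
              g (ζ, 0) * ((1 - w) / ((w - ζ) * (1 - ζ)))) := by
          field_simp
          ring
        rw [heq, norm_mul]
        have b1 : ‖(g (ζ, LL E ζ (w, y)) - g (ζ, 0)) / (w - ζ)‖ ≤ 128 * ‖y‖ / η ^ 2 := by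
          rw [norm_div, div_le_iff₀ d1p]
          refine hs2.trans ?_
          have h5 : 128 * ‖y‖ / η ^ 2 * (η / 8) = 16 * ‖y‖ / η := by field_simp; ring
          rw [← h5]
          gcongr
        have b2 : ‖g (ζ, 0) * ((1 - w) / ((w - ζ) * (1 - ζ)))‖ ≤ 32 * ‖w - 1‖ / η ^ 2 := by
          rw [norm_mul, norm_div, norm_mul]
          have h5 : ‖1 - w‖ / (‖w - ζ‖ * ‖1 - ζ‖) ≤ 32 * ‖w - 1‖ / η ^ 2 := by
            rw [norm_sub_rev 1 w, div_le_div_iff₀ (by positivity) (by positivity)]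
            have h6 : η / 8 * (η / 4) ≤ ‖w - ζ‖ * ‖1 - ζ‖ := by gcongr
            nlinarith [norm_nonneg (w - 1)]
          calc ‖g (ζ, 0)‖ * (‖1 - w‖ / (‖w - ζ‖ * ‖1 - ζ‖))
              ≤ 1 * (32 * ‖w - 1‖ / η ^ 2) := by gcongr
            _ = _ := one_mul _
        have b3 := norm_add_le ((g (ζ, LL E ζ (w, y)) - g (ζ, 0)) / (w - ζ))
          (g (ζ, 0) * ((1 - w) / ((w - ζ) * (1 - ζ))))
        have b4 : 128 * ‖y‖ / η ^ 2 + 32 * ‖w - 1‖ / η ^ 2 = T := by rw [hT]; ring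
        refine mul_le_mul (hK ζ) ?_ (norm_nonneg _) hK0
        linarith
    · rw [Bf_zero hη h, Bf_zero hη h]
      simp only [zero_div, sub_self, norm_zero]
      exact indicator_nonneg (fun _ _ => by positivity) _
  have hdiff : Vc hη g (w, y) - V1 hη g = (1 / Real.pi : ℂ) *
      ∫ ζ, (Bf hη g y ζ w / (w - ζ) - Bf hη g 0 ζ 0 / (1 - ζ)) := by
    rw [integral_sub hi1 hi2]
    unfold Vc V1 CT
    ring
  rw [hdiff, norm_mul, norm_div, norm_one, Complex.norm_real, Real.norm_of_nonneg Real.pi_pos.le]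
  have hint : Integrable ((ball (0 : ℂ) 1).indicator (fun _ : ℂ => K * T)) :=
    (integrable_indicator_iff measurableSet_ball).2
      (integrableOn_const measure_ball_lt_top.ne enorm_ne_top)
  have h1 := norm_integral_le_of_norm_le hint (Eventually.of_forall hpt)
  have h2 : ∫ ζ : ℂ, (ball (0 : ℂ) 1).indicator (fun _ : ℂ => K * T) ζ = Real.pi * (K * T) := by
    rw [integral_indicator measurableSet_ball, integral_const]
    have h3 : (volume : Measure ℂ).real (ball 0 1) = Real.pi := by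
      rw [Measure.real, Complex.volume_ball]; simp
    rw [measureReal_restrict_apply_univ, h3, smul_eq_mul]
  rw [h2] at h1
  have hpi := Real.pi_pos
  calc 1 / Real.pi * ‖∫ ζ, (Bf hη g y ζ w / (w - ζ) - Bf hη g 0 ζ 0 / (1 - ζ))‖
      ≤ 1 / Real.pi * (Real.pi * (K * T)) := by gcongr
    _ = K * T := by field_simp

theorem lgE (hη : 0 < η) : ∃ (K : ℝ) (r : ℝ → ℝ), 0 ≤ K ∧ (∀ ε, 0 < ε → 0 < r ε) ∧
    ∀ (E : Type) [NormedAddCommGroup E] [NormedSpace ℂ E] [FiniteDimensional ℂ E]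
      (g : ℂ × E → ℂ), DifferentiableOn ℂ g (Rg E η) → (∀ p ∈ Rg E η, ‖g p‖ ≤ 1) →
      ∃ G : ℂ × E → ℂ, DifferentiableOn ℂ G (DD E) ∧ (∀ p ∈ DD E, ‖G p‖ ≤ K) ∧
        ∀ ε, 0 < ε → ∀ p ∈ DD E, ‖p.1 - 1‖ < r ε → ‖G p - g p‖ ≤ ε := by
  obtain ⟨K, hK0, hK⟩ := db_ct_bd hη
  refine ⟨1 + 8 * K, fun ε => min (min (η / 8) 1) ((ε * η ^ 2 / (224 * (K + 1))) ^ 2),
    by positivity, fun ε hε => by positivity, ?_⟩
  intro E _ _ _ g hg hgb
  refine ⟨fun p => Fc hη g p - Vc hη g p + V1 hη g,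
    (sub_hol hη hK0 hK hg hgb).add_const _, fun p hp => ?_, fun ε hε p hp hpr => ?_⟩
  · have h1 := Fc_bd hη hgb hp
    have h2 := Vc_bd hη hK0 hK hgb hp
    have h3 := V1_bd hη hK0 hK hgb (g := g)
    have h4 := norm_add_le (Fc hη g p - Vc hη g p) (V1 hη g)
    have h5 := norm_sub_le (Fc hη g p) (Vc hη g p)
    linarith
  · obtain ⟨w, y⟩ := p
    simp only at hpr ⊢
    have h1 : ‖w - 1‖ < η / 8 := hpr.trans_le ((min_le_left _ _).trans (min_le_left _ _))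
    have h2 : ‖w - 1‖ < 1 := hpr.trans_le ((min_le_left _ _).trans (min_le_right _ _))
    have h3 : ‖w - 1‖ < (ε * η ^ 2 / (224 * (K + 1))) ^ 2 := hpr.trans_le (min_le_right _ _)
    have hF : Fc hη g (w, y) = g (w, y) := by
      unfold Fc
      have h4 : (w, y) ∈ {p : ℂ × E | ‖p.1 - 1‖ < η} := by
        change ‖w - 1‖ < η
        linarith
      rw [indicator_of_mem h4, ct_one hη (by linarith), one_mul]
    have h4 : Fc hη g (w, y) - Vc hη g (w, y) + V1 hη g - g (w, y) =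
        -(Vc hη g (w, y) - V1 hη g) := by
      rw [hF]; ring
    rw [h4, norm_neg]
    refine (Vc_mod hη hK0 hK hg hgb hp h1).trans ?_
    obtain ⟨s, hs⟩ : ∃ s : ℝ, s = √‖w - 1‖ := ⟨_, rfl⟩
    have hs0 : 0 ≤ s := by rw [hs]; positivity
    have hs2 : s ^ 2 = ‖w - 1‖ := by rw [hs]; exact Real.sq_sqrt (norm_nonneg _)
    have hs1 : s ≤ 1 := by nlinarith
    have hs3 : s ≤ ε * η ^ 2 / (224 * (K + 1)) := by
      refine le_of_lt (lt_of_pow_lt_pow_left₀ 2 (by positivity) ?_)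
      rw [hs2]; exact h3
    have hy : ‖y‖ ≤ 3 / 2 * s := by
      have h5 : ‖w‖ ^ 2 + ‖y‖ ^ 2 < 1 := hp
      have h6 : 1 - ‖w‖ ≤ ‖w - 1‖ := by
        have := norm_sub_norm_le (1 : ℂ) w
        rw [norm_one, norm_sub_rev] at this
        exact this
      have h7 : ‖w‖ < 1 := sub_ball E hp
      have h8 : ‖y‖ ^ 2 ≤ (3 / 2 * s) ^ 2 := by
        have h9 : (3 / 2 * s) ^ 2 = 9 / 4 * ‖w - 1‖ := by rw [mul_pow, hs2]; norm_num
        rw [h9]
        nlinarith [norm_nonneg w, norm_nonneg (w - 1)]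
      exact le_of_sq_le_sq h8 (by positivity)
    have h5 : (128 * ‖y‖ + 32 * ‖w - 1‖) / η ^ 2 ≤ 224 * s / η ^ 2 := by
      gcongr
      rw [← hs2]
      nlinarith
    calc K * ((128 * ‖y‖ + 32 * ‖w - 1‖) / η ^ 2) ≤ (K + 1) * (224 * s / η ^ 2) := by
          gcongr
          linarith
      _ ≤ (K + 1) * (224 * (ε * η ^ 2 / (224 * (K + 1))) / η ^ 2) := by gcongr
      _ = ε := by field_simp

end

/-- the version on `ℂ^m` -/
theorem lgV {η : ℝ} (hη : 0 < η) : ∃ (K : ℝ) (r : ℝ → ℝ), 0 ≤ K ∧ (∀ ε, 0 < ε → 0 < r ε) ∧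
    ∀ (m : ℕ) (p : V m), ‖p‖ = 1 → ∀ g : V m → ℂ,
      DifferentiableOn ℂ g (ball 0 1 ∩ {z | ‖(inner ℂ p z : ℂ) - 1‖ < η}) →
      (∀ z ∈ ball (0 : V m) 1, ‖(inner ℂ p z : ℂ) - 1‖ < η → ‖g z‖ ≤ 1) →
      ∃ G : V m → ℂ, DifferentiableOn ℂ G (ball 0 1) ∧ (∀ z ∈ ball (0 : V m) 1, ‖G z‖ ≤ K) ∧
        ∀ ε, 0 < ε → ∀ z ∈ ball (0 : V m) 1, ‖(inner ℂ p z : ℂ) - 1‖ < r ε → ‖G z - g z‖ ≤ ε := by
  obtain ⟨K, r, hK, hr, hE⟩ := lgE hη
  refine ⟨K, r, hK, hr, ?_⟩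
  intro m p hp g hg hgb
  let E := ((Submodule.span ℂ {p})ᗮ : Submodule ℂ (V m))
  have hpp : (inner ℂ p p : ℂ) = 1 := by
    rw [inner_self_eq_norm_sq_to_K, hp]; simp
  have hpE : ∀ y : E, (inner ℂ p (y : V m) : ℂ) = 0 := by
    intro y
    exact (Submodule.mem_orthogonal _ _).1 y.2 p (Submodule.mem_span_singleton_self p)
  let J : ℂ × E → V m := fun q => q.1 • p + (q.2 : V m)
  have hJd : Differentiable ℂ J := by
    have h1 : Differentiable ℂ (fun q : ℂ × E => (q.2 : V m)) :=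
      (E.subtypeL.differentiable).comp differentiable_snd
    exact (differentiable_fst.smul_const p).add h1
  have hJin : ∀ q, (inner ℂ p (J q) : ℂ) = q.1 := by
    intro q
    simp only [J]
    rw [inner_add_right, inner_smul_right, hpp, hpE, mul_one, add_zero]
  have hJn : ∀ q, ‖J q‖ ^ 2 = ‖q.1‖ ^ 2 + ‖q.2‖ ^ 2 := by
    intro q
    have h1 := norm_add_sq_eq_norm_sq_add_norm_sq_of_inner_eq_zero (𝕜 := ℂ) (q.1 • p) (q.2 : V m)
      (by rw [inner_smul_left, hpE, mul_zero])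
    simp only [J]
    rw [pow_two, h1, norm_smul, hp, mul_one, ← pow_two, ← pow_two]
    rfl
  let L : V m →ₗ[ℂ] E := LinearMap.codRestrict E
    (LinearMap.id - (innerSL ℂ p : V m →L[ℂ] ℂ).toLinearMap.smulRight p) (by
      intro z
      rw [Submodule.mem_orthogonal_singleton_iff_inner_right]
      simp only [LinearMap.sub_apply, LinearMap.id_apply, LinearMap.smulRight_apply,
        ContinuousLinearMap.coe_coe, innerSL_apply_apply]
      rw [inner_sub_right, inner_smul_right, hpp, mul_one, sub_self])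
  let J' : V m → ℂ × E := fun z => (inner ℂ p z, L z)
  have hJ'd : Differentiable ℂ J' := by
    have h1 : Differentiable ℂ (fun z : V m => (inner ℂ p z : ℂ)) :=
      (innerSL ℂ p : V m →L[ℂ] ℂ).differentiable
    have h2 : Differentiable ℂ (fun z : V m => L z) :=
      (LinearMap.toContinuousLinearMap L).differentiable
    exact h1.prodMk h2
  have hJJ : ∀ z, J (J' z) = z := by
    intro z
    show (inner ℂ p z : ℂ) • p + ((L z : E) : V m) = z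
    have h1 : ((L z : E) : V m) = z - (inner ℂ p z : ℂ) • p := rfl
    rw [h1]
    abel
  have hJm : MapsTo J (DD E) (ball 0 1) := by
    intro q hq
    have h1 : ‖q.1‖ ^ 2 + ‖q.2‖ ^ 2 < 1 := hq
    rw [mem_ball_zero_iff]
    have h2 := hJn q
    nlinarith [norm_nonneg (J q)]
  have hJ'm : MapsTo J' (ball 0 1) (DD E) := by
    intro z hz
    rw [mem_ball_zero_iff] at hz
    show ‖(J' z).1‖ ^ 2 + ‖(J' z).2‖ ^ 2 < 1
    rw [← hJn, hJJ]
    nlinarith [norm_nonneg z]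
  have hJR : MapsTo J (Rg E η) (ball 0 1 ∩ {z | ‖(inner ℂ p z : ℂ) - 1‖ < η}) := by
    intro q hq
    refine ⟨hJm hq.1, ?_⟩
    change ‖(inner ℂ p (J q) : ℂ) - 1‖ < η
    rw [hJin]
    exact hq.2
  obtain ⟨G, hG1, hG2, hG3⟩ := hE E (fun q => g (J q)) (hg.comp hJd.differentiableOn hJR)
    (fun q hq => hgb _ (hJR hq).1 (hJR hq).2)
  refine ⟨fun z => G (J' z), hG1.comp hJ'd.differentiableOn hJ'm, fun z hz => hG2 _ (hJ'm hz),
    fun ε hε z hz hzr => ?_⟩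
  have h1 := hG3 ε hε _ (hJ'm hz) hzr
  simp only [hJJ] at h1
  exact h1

end Pool.Agent.TH310.Cor
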