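import Mathlib
import Pool.Agent.TH310.Cor.Step
import Pool.Agent.TH310.Cor.LG2

/-!
Whitney localisation: uniform solvability on the ball is equivalent to uniform solvability near
the points of the sphere orthogonal to `p` of the transported families.
-/

set_option autoImplicit false

open Metric Set Filter Topology WeakDual

namespace Pool.Agent.TH310.Cor

open Pool.Agent.H326R3.CB (Bt)
open Pool.Agent.W732.Cor (mv S_mv S_ball)

variable {m : ℕ}

/-- uniform solvability near `q` -/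
def SolvL {I ι : Type} [Fintype ι] (F : I → ι → V m → ℂ) (q : V m) : Prop :=
  ∃ C ρ : ℝ, 0 < ρ ∧ ∀ i, ∃ g : ι → V m → ℂ,
    (∀ j, DifferentiableOn ℂ (g j) (ball 0 1 ∩ ball q ρ)) ∧
    (∀ j, ∀ z ∈ ball (0 : V m) 1 ∩ ball q ρ, ‖g j z‖ ≤ C) ∧
    ∀ z ∈ ball (0 : V m) 1 ∩ ball q ρ, ∑ j, F i j z * g j z = 1

theorem whit1 (hmv : S_mv) (hball : S_ball) {p : V m} (hp : ‖p‖ = 1) {I ι : Type} [Fintype ι]
    {F : I → ι → V m → ℂ} (hF : ∀ i j, HB (F i j)) {δ : ℝ} (hδ : 0 < δ)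
    (hlow : ∀ i, ∀ z ∈ ball (0 : V m) 1, δ ≤ ∑ j, ‖F i j z‖)
    (hloc : ∀ q : V m, ‖q‖ = 1 → (inner ℂ p q : ℂ) = 0 →
      SolvL (fun (x : I × ball (0 : ℂ) 1) j z => F x.1 j (mv p x.2 z)) q) : Solv F := by
  classical
  by_contra hns
  have h2 := slice hmv hball hp hF hns
  letI tJ : TopologicalSpace (I × ball (0 : ℂ) 1) := ⊥
  haveI dJ : DiscreteTopology (I × ball (0 : ℂ) 1) := ⟨rfl⟩
  have hmvx : ∀ x : I × ball (0 : ℂ) 1, Aut (mv p x.2) (mv p (-(x.2 : ℂ))) :=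
    fun x => aut_mv hmv hp x.2.2
  have hF2 : ∀ (x : I × ball (0 : ℂ) 1) (o : ι ⊕ Unit),
      HB (fun z => o.elim (fun j => F x.1 j (mv p x.2 z)) (fun _ => inner ℂ p z)) := by
    intro x o
    rcases o with o | o
    · exact (hF x.1 o).comp (hmvx x)
    · exact HB_inner hp
  obtain ⟨χ, hχ⟩ := exists_zero hF2 h2
  obtain ⟨q, hq⟩ : ∃ q, q = pt χ := ⟨_, rfl⟩
  have hA2 : ∀ (x : I × ball (0 : ℂ) 1) (j : ι), HB (fun z => F x.1 j (mv p x.2 z)) :=
    fun x j => hF2 x (Sum.inl j)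
  have hχA : ∀ j : ι, χ (El (f := fun x z => F x.1 j (mv p x.2 z))
      (fun x => hA2 x j)) = 0 := fun j => hχ (Sum.inl j)
  have hpq : (inner ℂ p q : ℂ) = 0 := by
    have h3 := char_Lw χ p
    have h4 : (Lw p : HI (I × ball (0 : ℂ) 1) m) =
        El (f := fun _ z => (inner ℂ p z : ℂ)) (fun x => HB_inner hp) := ext' fun x => rfl
    have h5 : χ (El (I := I × ball (0 : ℂ) 1) (f := fun _ z => (inner ℂ p z : ℂ))
      (fun x => HB_inner hp)) = 0 := hχ (Sum.inr ())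
    rw [h4, h5] at h3
    rw [hq]
    exact h3.symm
  have hlow2 : ∀ (x : I × ball (0 : ℂ) 1), ∀ z ∈ ball (0 : V m) 1,
      δ ≤ ∑ j, ‖F x.1 j (mv p x.2 z)‖ := fun x z hz => hlow x.1 _ ((hmvx x).m1 hz)
  have hq1 : ‖q‖ = 1 := by
    rcases lt_or_eq_of_le (pt_norm χ) with h3 | h3
    · exfalso
      have hpt : pt χ ∈ ball (0 : V m) 1 := by rw [mem_ball_zero_iff]; exact h3
      refine char_index (ι := ι) χ (fun o x => F x.1 o (mv p x.2 (pt χ))) (C := 1)
        (fun o x => (hA2 x o).2 _ hpt) hδ (fun x => hlow2 x _ hpt) ?_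
      intro o
      have h4 := char_interior χ h3 (El (f := fun x z => F x.1 o (mv p x.2 z))
        (fun x => hA2 x o))
      rw [hχA o] at h4
      refine Eq.trans (congrArg χ ?_) h4.symm
      exact ext' fun x => rfl
    · rw [hq]; exact h3
  obtain ⟨C, ρ, hρ, hg⟩ := hloc q hq1 hpq
  choose g hgd hgb hid using hg
  obtain ⟨C', hC'⟩ : ∃ C', C' = max C 1 := ⟨_, rfl⟩
  have hC'1 : 1 ≤ C' := by rw [hC']; exact le_max_right _ _
  have hCC' : C ≤ C' := by rw [hC']; exact le_max_left _ _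
  have hC'0 : 0 < C' := by linarith
  obtain ⟨K, r, hK, hr, hlg⟩ := lgV (η := ρ ^ 2 / 2) (by positivity)
  have hsub : ∀ z ∈ ball (0 : V m) 1, ‖(inner ℂ q z : ℂ) - 1‖ < ρ ^ 2 / 2 →
      z ∈ ball (0 : V m) 1 ∩ ball q ρ := by
    intro z hz hzq
    refine ⟨hz, ?_⟩
    rw [mem_ball, dist_eq_norm]
    by_contra hcon
    push Not at hcon
    have h3 := one_sub_inner hq1 (by rw [mem_ball_zero_iff] at hz; exact hz.le) hρ.le hcon
    rw [norm_sub_rev] at h3
    linarith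
  have hG : ∀ (j : ι) (x : I × ball (0 : ℂ) 1), ∃ G : V m → ℂ, DifferentiableOn ℂ G (ball 0 1) ∧
      (∀ z ∈ ball (0 : V m) 1, ‖G z‖ ≤ K) ∧ ∀ ε, 0 < ε → ∀ z ∈ ball (0 : V m) 1,
        ‖(inner ℂ q z : ℂ) - 1‖ < r ε → ‖G z - g x j z / C'‖ ≤ ε := by
    intro j x
    refine hlg m q hq1 (fun z => g x j z / C') ?_ ?_
    · have h3 : DifferentiableOn ℂ (fun z => g x j z * (C' : ℂ)⁻¹) (ball (0 : V m) 1 ∩ ball q ρ) :=
        (hgd x j).mul_const _
      simp only [div_eq_mul_inv]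
      refine h3.mono ?_
      rintro z ⟨hz, hz2⟩
      exact hsub z hz hz2
    · intro z hz hz2
      rw [norm_div, Complex.norm_real, Real.norm_of_nonneg hC'0.le, div_le_one hC'0]
      exact (hgb x j z (hsub z hz hz2)).trans hCC'
  choose G hG1 hG2 hG3 using hG
  obtain ⟨ε, hε⟩ : ∃ ε : ℝ, ε = 1 / (2 * C' * (Fintype.card ι + 1)) := ⟨_, rfl⟩
  have hε0 : 0 < ε := by rw [hε]; positivity
  have hNε : (Fintype.card ι : ℝ) * (C' * ε) ≤ 1 / 2 := by
    rw [hε]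
    have h3 : (Fintype.card ι : ℝ) * (C' * (1 / (2 * C' * (Fintype.card ι + 1)))) =
        (Fintype.card ι / (Fintype.card ι + 1)) * (1 / 2) := by field_simp
    rw [h3]
    have h4 : (Fintype.card ι : ℝ) / (Fintype.card ι + 1) ≤ 1 := by
      rw [div_le_one (by positivity)]; linarith
    linarith
  have hu0 : χ (∑ j, El (f := fun x z => F x.1 j (mv p x.2 z)) (fun x => hA2 x j) *
      (mk (hG1 j) (hG2 j) * Cc (C' : ℂ))) = 0 := by
    rw [map_sum]
    refine Finset.sum_eq_zero fun j _ => ?_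
    rw [map_mul, hχA j, zero_mul]
  have hu1 : ‖χ (∑ j, El (f := fun x z => F x.1 j (mv p x.2 z)) (fun x => hA2 x j) *
      (mk (hG1 j) (hG2 j) * Cc (C' : ℂ)) - 1)‖ ≤ 1 / 2 := by
    refine char_boundary χ (by rw [← hq]; exact hq1) _ (ρ := min (r ε) (ρ ^ 2 / 2))
      (lt_min (hr ε hε0) (by positivity)) (by norm_num) univ
      (by rw [Id_univ, map_one]) ?_
    intro x _ z hz
    rw [← hq] at hz
    have hz1 : ‖(inner ℂ q (z : V m) : ℂ) - 1‖ ≤ ‖(z : V m) - q‖ := by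
      have h3 : (inner ℂ q (z : V m) : ℂ) - 1 = inner ℂ q ((z : V m) - q) := by
        rw [inner_sub_right, inner_self_eq_norm_sq_to_K, hq1]
        norm_num
      rw [h3]
      refine (norm_inner_le_norm _ _).trans ?_
      rw [hq1, one_mul]
    have hz2 : ‖(inner ℂ q (z : V m) : ℂ) - 1‖ < r ε := by
      have := min_le_left (r ε) (ρ ^ 2 / 2); linarith
    have hz3 : ‖(inner ℂ q (z : V m) : ℂ) - 1‖ < ρ ^ 2 / 2 := by
      have := min_le_right (r ε) (ρ ^ 2 / 2); linarith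
    have hzm := hsub z z.2 hz3
    have h3 : (∑ j, El (f := fun x z => F x.1 j (mv p x.2 z)) (fun x => hA2 x j) *
        (mk (hG1 j) (hG2 j) * Cc (C' : ℂ)) - 1 : HI (I × ball (0 : ℂ) 1) m).1 (x, z) =
        ∑ j, F x.1 j (mv p x.2 z) * (C' * (G j x z - g x j z / C')) := by
      have h4 : (∑ j, El (f := fun x z => F x.1 j (mv p x.2 z)) (fun x => hA2 x j) *
        (mk (hG1 j) (hG2 j) * Cc (C' : ℂ)) - 1 : HI (I × ball (0 : ℂ) 1) m).1 (x, z) =
        (∑ j, El (f := fun x z => F x.1 j (mv p x.2 z)) (fun x => hA2 x j) *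
        (mk (hG1 j) (hG2 j) * Cc (C' : ℂ)) : HI (I × ball (0 : ℂ) 1) m).1 (x, z) - 1 := rfl
      rw [h4, sum_apply, ← hid x z hzm, ← Finset.sum_sub_distrib]
      refine Finset.sum_congr rfl fun j _ => ?_
      change F x.1 j (mv p x.2 z) * (G j x z * C') - F x.1 j (mv p x.2 z) * g x j z = _
      have h5 : (C' : ℂ) ≠ 0 := by exact_mod_cast hC'0.ne'
      field_simp
    rw [h3]
    refine (norm_sum_le _ _).trans ?_
    have h4 : ∀ j ∈ (Finset.univ : Finset ι),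
        ‖F x.1 j (mv p x.2 z) * (C' * (G j x z - g x j z / C'))‖ ≤ C' * ε := by
      intro j _
      rw [norm_mul, norm_mul, Complex.norm_real, Real.norm_of_nonneg hC'0.le]
      have h5 := (hA2 x j).2 z z.2
      have h6 := hG3 j x ε hε0 z z.2 hz2
      calc ‖F x.1 j (mv p x.2 z)‖ * (C' * ‖G j x z - g x j z / C'‖) ≤ 1 * (C' * ε) := by
            gcongr
        _ = C' * ε := one_mul _
    refine (Finset.sum_le_sum h4).trans ?_
    rw [Finset.sum_const, Finset.card_univ, nsmul_eq_mul]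
    exact hNε
  rw [map_sub, hu0, map_one, zero_sub, norm_neg, norm_one] at hu1
  norm_num at hu1

theorem whit1' (hmv : S_mv) {p : V m} (hp : ‖p‖ = 1) {I ι : Type} [Fintype ι]
    {F : I → ι → V m → ℂ} (h : Solv F) (q : V m) :
    SolvL (fun (x : I × ball (0 : ℂ) 1) j z => F x.1 j (mv p x.2 z)) q := by
  obtain ⟨C, hC⟩ := h
  refine ⟨C, 1, one_pos, fun x => ?_⟩
  obtain ⟨g, h1, h2, h3⟩ := hC x.1
  have A := aut_mv hmv hp x.2.2
  exact ⟨fun j z => g j (mv p x.2 z), fun j => ((h1 j).comp A.d1 A.m1).mono inter_subset_left,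
    fun j z hz => h2 j _ (A.m1 hz.1), fun z hz => h3 _ (A.m1 hz.1)⟩

end Pool.Agent.TH310.Cor
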