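import Mathlib
import Pool.Agent.TH310.Cor.Whit

/-!
Whitney localisation at a boundary point.
-/

set_option autoImplicit false

open Metric Set Filter Topology WeakDual

namespace Pool.Agent.TH310.Cor

open Pool.Agent.H326R3.CB (Bt)
open Pool.Agent.W732.Cor (mv S_mv S_ball)

variable {m : ℕ}

theorem one_sub_mv (hmv : S_mv) {q : V m} (hq : ‖q‖ = 1) {c : ℂ} (hc : c ∈ ball (0 : ℂ) 1)
    {q' : V m} (hqq : (inner ℂ q q' : ℂ) = 0) {z : V m} (hz : z ∈ ball (0 : V m) 1)
    (hzq : ‖z - q'‖ < 1 / 2) :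
    ‖(1 : ℂ) - inner ℂ q (mv q c z)‖ ≤ 3 * ‖1 - c‖ ∧
      ‖1 - c‖ / 3 ≤ ‖(1 : ℂ) - inner ℂ q (mv q c z)‖ := by
  obtain ⟨-, -, -, h1, -⟩ := hmv m q hq c hc
  rw [h1 z hz]
  obtain ⟨ζ, hζ⟩ : ∃ ζ : ℂ, ζ = inner ℂ q z := ⟨_, rfl⟩
  rw [← hζ]
  have hζ1 : ‖ζ‖ < 1 / 2 := by
    have h3 : ζ = inner ℂ q (z - q') := by rw [inner_sub_right, hqq, sub_zero, hζ]
    rw [h3]
    refine (norm_inner_le_norm _ _).trans_lt ?_
    rw [hq, one_mul]
    exact hzq
  rw [mem_ball_zero_iff] at hc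
  have hcz : ‖starRingEnd ℂ c * ζ‖ ≤ 1 / 2 := by
    rw [norm_mul, RCLike.norm_conj]
    nlinarith [norm_nonneg c, norm_nonneg ζ]
  have hd1 : 1 / 2 ≤ ‖1 + starRingEnd ℂ c * ζ‖ := by
    have h3 := norm_sub_norm_le (1 : ℂ) (-(starRingEnd ℂ c * ζ))
    rw [norm_one, norm_neg, sub_neg_eq_add] at h3
    linarith
  have hd2 : ‖1 + starRingEnd ℂ c * ζ‖ ≤ 3 / 2 := by
    have h3 := norm_add_le (1 : ℂ) (starRingEnd ℂ c * ζ)
    rw [norm_one] at h3
    linarith
  have hd0 : (1 + starRingEnd ℂ c * ζ) ≠ 0 := by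
    rw [← norm_pos_iff]; linarith
  have heq : (1 : ℂ) - (ζ + c) / (1 + starRingEnd ℂ c * ζ) =
      ((1 - c) - ζ * starRingEnd ℂ (1 - c)) / (1 + starRingEnd ℂ c * ζ) := by
    rw [map_sub, map_one, eq_div_iff hd0, sub_mul, div_mul_cancel₀ _ hd0]
    ring
  have hn : ‖ζ * starRingEnd ℂ (1 - c)‖ ≤ 1 / 2 * ‖1 - c‖ := by
    rw [norm_mul, RCLike.norm_conj]
    gcongr
  rw [heq, norm_div]
  have hdp : 0 < ‖1 + starRingEnd ℂ c * ζ‖ := by linarith
  have h1c := norm_nonneg (1 - c)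
  constructor
  · rw [div_le_iff₀ hdp]
    have h3 := norm_sub_le (1 - c) (ζ * starRingEnd ℂ (1 - c))
    nlinarith
  · rw [le_div_iff₀ hdp]
    have h3 := norm_sub_norm_le (1 - c) (ζ * starRingEnd ℂ (1 - c))
    nlinarith

/-- the parameters near `1` -/
abbrev Nr (κ : ℝ) : Type := {c : ℂ // c ∈ ball (0 : ℂ) 1 ∧ ‖1 - c‖ < κ}

theorem whit2 (hmv : S_mv) (hball : S_ball) {q : V m} (hq : ‖q‖ = 1) {I ι : Type} [Fintype ι]
    {F : I → ι → V m → ℂ} (hF : ∀ i j, HB (F i j)) {δ ρ₀ : ℝ} (hδ : 0 < δ) (hρ₀ : 0 < ρ₀)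
    (hlow : ∀ i, ∀ z ∈ ball (0 : V m) 1 ∩ ball q ρ₀, δ ≤ ∑ j, ‖F i j z‖)
    (hloc : ∀ q' : V m, ‖q'‖ = 1 → (inner ℂ q q' : ℂ) = 0 → ∃ κ : ℝ, 0 < κ ∧
      SolvL (fun (x : I × Nr κ) j z => F x.1 j (mv q x.2 z)) q') : SolvL F q := by
  classical
  have hF2 : ∀ i (o : ι ⊕ Unit), HB (fun z : V m => o.elim (fun j => F i j z) (fun _ => Lo q z)) := by
    intro i o
    rcases o with o | o
    · exact hF i o
    · exact HB_Lo hq
  have h1 : Solv (fun i (o : ι ⊕ Unit) (z : V m) =>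
      o.elim (fun j => F i j z) (fun _ => Lo q z)) := by
    refine whit1 hmv hball hq hF2 (δ := min δ (ρ₀ ^ 2 / 4)) (by positivity) ?_ ?_
    · intro i z hz
      rw [Fintype.sum_sum_type]
      simp only [Sum.elim_inl, Sum.elim_inr, Finset.univ_unique, Finset.sum_singleton]
      by_cases hzq : ‖z - q‖ < ρ₀
      · have h3 := hlow i z ⟨hz, by rw [mem_ball, dist_eq_norm]; exact hzq⟩
        have h4 := min_le_left δ (ρ₀ ^ 2 / 4)
        have h5 := norm_nonneg (Lo q z)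
        linarith
      · push Not at hzq
        have h3 := Lo_ge hq hz hρ₀.le hzq
        have h4 := min_le_right δ (ρ₀ ^ 2 / 4)
        have h5 : 0 ≤ ∑ j, ‖F i j z‖ := Finset.sum_nonneg fun j _ => norm_nonneg _
        linarith
    · intro q' hq' hqq
      obtain ⟨κ, hκ, C, ρ, hρ, hg⟩ := hloc q' hq' hqq
      refine ⟨max C (6 / κ), min ρ (1 / 2), by positivity, ?_⟩
      rintro ⟨i, c⟩
      have hc := c.2
      have hsub1 : ball (0 : V m) 1 ∩ ball q' (min ρ (1 / 2)) ⊆ ball (0 : V m) 1 ∩ ball q' ρ :=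
        inter_subset_inter_right _ (ball_subset_ball (min_le_left _ _))
      have hC6 : (0 : ℝ) ≤ max C (6 / κ) := (by positivity : (0 : ℝ) ≤ 6 / κ).trans (le_max_right _ _)
      by_cases hcκ : ‖1 - (c : ℂ)‖ < κ
      · obtain ⟨g, h3, h4, h5⟩ := hg (i, ⟨c, hc, hcκ⟩)
        refine ⟨fun o z => o.elim (fun j => g j z) (fun _ => 0), ?_, ?_, ?_⟩
        · rintro (j | j)
          · exact (h3 j).mono hsub1
          · exact differentiableOn_const _
        · rintro (j | j) z hz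
          · exact (h4 j z (hsub1 hz)).trans (le_max_left _ _)
          · change ‖(0 : ℂ)‖ ≤ _
            rw [norm_zero]; exact hC6
        · intro z hz
          rw [Fintype.sum_sum_type]
          simp only [Sum.elim_inl, Sum.elim_inr, Finset.univ_unique, Finset.sum_singleton,
            mul_zero, add_zero]
          exact h5 z (hsub1 hz)
      · push Not at hcκ
        have hlo : ∀ z ∈ ball (0 : V m) 1 ∩ ball q' (min ρ (1 / 2)), κ / 6 ≤ ‖Lo q (mv q c z)‖ := by
          rintro z ⟨hz, hzq⟩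
          rw [mem_ball, dist_eq_norm] at hzq
          have h3 := (one_sub_mv hmv hq hc hqq hz (hzq.trans_le (min_le_right _ _))).2
          unfold Lo
          rw [norm_div]
          have h4 : ‖(2 : ℂ)‖ = 2 := by norm_num
          rw [h4]
          linarith
        have A := aut_mv hmv hq hc
        refine ⟨fun o z => o.elim (fun _ => 0) (fun _ => (Lo q (mv q c z))⁻¹), ?_, ?_, ?_⟩
        · rintro (j | j)
          · exact differentiableOn_const _
          · change DifferentiableOn ℂ (fun z => (Lo q (mv q c z))⁻¹) _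
            refine DifferentiableOn.inv (((HB_Lo hq).1.comp A.d1 A.m1).mono inter_subset_left) ?_
            intro z hz h3
            have h4 := hlo z hz
            change Lo q (mv q c z) = 0 at h3
            rw [h3, norm_zero] at h4
            linarith
        · rintro (j | j) z hz
          · change ‖(0 : ℂ)‖ ≤ _
            rw [norm_zero]; exact hC6
          · change ‖(Lo q (mv q c z))⁻¹‖ ≤ _
            rw [norm_inv]
            refine le_trans ?_ (le_max_right _ _)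
            have h4 := hlo z hz
            rw [inv_le_comm₀ (by linarith) (by positivity), inv_div]
            exact h4
        · intro z hz
          rw [Fintype.sum_sum_type]
          simp only [Sum.elim_inl, Sum.elim_inr, Finset.univ_unique, Finset.sum_singleton,
            mul_zero, Finset.sum_const_zero, zero_add]
          have h4 := hlo z hz
          refine mul_inv_cancel₀ ?_
          intro h3
          rw [h3, norm_zero] at h4
          linarith
  obtain ⟨C, hC⟩ := h1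
  obtain ⟨C', hC'⟩ : ∃ C', C' = max C 1 := ⟨_, rfl⟩
  have hC'1 : 1 ≤ C' := by rw [hC']; exact le_max_right _ _
  have hCC' : C ≤ C' := by rw [hC']; exact le_max_left _ _
  refine ⟨2 * C', 1 / C', by positivity, fun i => ?_⟩
  obtain ⟨g, h1, h2, h3⟩ := hC i
  have hlo : ∀ z ∈ ball (0 : V m) 1 ∩ ball q (1 / C'), 1 / 2 ≤ ‖1 - Lo q z * g (Sum.inr ()) z‖ := by
    rintro z ⟨hz, hzq⟩
    rw [mem_ball, dist_eq_norm] at hzq
    have h4 : ‖Lo q z‖ ≤ 1 / C' / 2 := by
      unfold Lo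
      rw [norm_div]
      have h4 : ‖(2 : ℂ)‖ = 2 := by norm_num
      rw [h4]
      have h5 : (1 : ℂ) - inner ℂ q z = inner ℂ q (q - z) := by
        rw [inner_sub_right, inner_self_eq_norm_sq_to_K, hq]
        norm_num
      have h6 : ‖(1 : ℂ) - inner ℂ q z‖ ≤ ‖z - q‖ := by
        rw [h5]
        refine (norm_inner_le_norm _ _).trans ?_
        rw [hq, one_mul, norm_sub_rev]
      linarith
    have h5 : ‖Lo q z * g (Sum.inr ()) z‖ ≤ 1 / 2 := by
      rw [norm_mul]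
      calc ‖Lo q z‖ * ‖g (Sum.inr ()) z‖ ≤ (1 / C' / 2) * C' := by
            gcongr
            exact (h2 _ z hz).trans hCC'
        _ = 1 / 2 := by field_simp
    have h6 := norm_sub_norm_le (1 : ℂ) (Lo q z * g (Sum.inr ()) z)
    rw [norm_one] at h6
    linarith
  have hsb : ball (0 : V m) 1 ∩ ball q (1 / C') ⊆ ball (0 : V m) 1 := inter_subset_left
  have hne : ∀ z ∈ ball (0 : V m) 1 ∩ ball q (1 / C'), 1 - Lo q z * g (Sum.inr ()) z ≠ 0 := by
    intro z hz h4
    have h5 := hlo z hz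
    rw [h4, norm_zero] at h5
    norm_num at h5
  refine ⟨fun j z => g (Sum.inl j) z * (1 - Lo q z * g (Sum.inr ()) z)⁻¹, ?_, ?_, ?_⟩
  · intro j
    have h4 : DifferentiableOn ℂ (fun z => 1 - Lo q z * g (Sum.inr ()) z)
        (ball (0 : V m) 1 ∩ ball q (1 / C')) := by
      have h5 : DifferentiableOn ℂ (fun z => Lo q z * g (Sum.inr ()) z) (ball (0 : V m) 1) :=
        (HB_Lo hq).1.mul (h1 _)
      exact (h5.mono hsb).const_sub 1
    exact ((h1 _).mono hsb).mul (h4.inv hne)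
  · intro j z hz
    rw [norm_mul, norm_inv]
    have h4 := hlo z hz
    have h5 : ‖1 - Lo q z * g (Sum.inr ()) z‖⁻¹ ≤ 2 := by
      rw [inv_le_comm₀ (by linarith) (by norm_num)]
      linarith
    calc ‖g (Sum.inl j) z‖ * ‖1 - Lo q z * g (Sum.inr ()) z‖⁻¹ ≤ C' * 2 := by
          gcongr
          exact (h2 _ z hz.1).trans hCC'
      _ = 2 * C' := by ring
  · intro z hz
    have h4 := h3 z hz.1
    rw [Fintype.sum_sum_type] at h4
    simp only [Sum.elim_inl, Sum.elim_inr, Finset.univ_unique, Finset.sum_singleton] at h4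
    have h5 : ∑ j, F i j z * g (Sum.inl j) z = 1 - Lo q z * g (Sum.inr ()) z := by
      rw [← h4]
      change _ = _ + Lo q z * g (Sum.inr ()) z - Lo q z * g (Sum.inr ()) z
      ring
    have h6 : ∑ j, F i j z * (g (Sum.inl j) z * (1 - Lo q z * g (Sum.inr ()) z)⁻¹) =
        (∑ j, F i j z * g (Sum.inl j) z) * (1 - Lo q z * g (Sum.inr ()) z)⁻¹ := by
      rw [Finset.sum_mul]
      exact Finset.sum_congr rfl fun j _ => by ring
    rw [h6, h5]
    exact mul_inv_cancel₀ (hne z hz)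

theorem whit2' (hmv : S_mv) {q : V m} (hq : ‖q‖ = 1) {I ι : Type} [Fintype ι]
    {F : I → ι → V m → ℂ} (h : SolvL F q) (q' : V m) (hqq : (inner ℂ q q' : ℂ) = 0) :
    ∃ κ : ℝ, 0 < κ ∧ SolvL (fun (x : I × Nr κ) j z => F x.1 j (mv q x.2 z)) q' := by
  obtain ⟨C, ρ, hρ, hC⟩ := h
  refine ⟨ρ ^ 2 / 6, by positivity, C, 1 / 2, by norm_num, fun x => ?_⟩
  obtain ⟨g, h1, h2, h3⟩ := hC x.1
  obtain ⟨hx1, hx2⟩ := x.2.2
  have A := aut_mv hmv hq hx1
  have hm : MapsTo (mv q x.2) (ball (0 : V m) 1 ∩ ball q' (1 / 2)) (ball (0 : V m) 1 ∩ ball q ρ) := by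
    rintro z ⟨hz, hzq⟩
    refine ⟨A.m1 hz, ?_⟩
    rw [mem_ball, dist_eq_norm] at hzq ⊢
    have h4 := (one_sub_mv hmv hq hx1 hqq hz hzq).1
    by_contra hcon
    push Not at hcon
    have h6 := A.m1 hz
    rw [mem_ball_zero_iff] at h6
    have h5 := one_sub_inner hq h6.le hρ.le hcon
    linarith
  exact ⟨fun j z => g j (mv q x.2 z), fun j => (h1 j).comp (A.d1.mono inter_subset_left) hm,
    fun j z hz => h2 j _ (hm hz), fun z hz => h3 _ (hm hz)⟩

end Pool.Agent.TH310.Cor
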